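import Pool.Agent.Helper10.P4.SSq
import Pool.Agent.Helper10.P5.Err5

/-! Level of distribution three tenths: the weighted sum of the error terms is small. -/

namespace Pool.Agent.Helper10.P4

open Finset Filter Pool.Agent.Helper10 Pool.Agent.Helper10.P5

lemma blk4_large (g : ℕ) (hg : 1 ≤ g) : ∃ C θ : ℝ, 0 < C ∧ 0 < θ ∧ θ < 1 ∧
    ∀ κ T j : ℕ, (∀ q : ℕ, q.Coprime 10 → q.Coprime κ) → 5 * j + 3 * (j / g) ≤ 3 * T →
      blk5 κ T j ≤ C * θ ^ j := by
  obtain ⟨C1, θ, hC1, hθ0, hθ1, hS⟩ := S_all4 g hg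
  set μ : ℝ := (1 + 1 / θ) / 2 with hμ
  have hinv : 1 < 1 / θ := by
    rw [lt_div_iff₀ hθ0]
    linarith
  have hμ1 : 1 < μ := by
    rw [hμ]
    linarith
  have hθμ : θ * μ = (1 + θ) / 2 := by
    rw [hμ]
    field_simp
    ring
  obtain ⟨C2, hC2, htau⟩ := tau_cube10 μ hμ1
  refine ⟨C2 * C1, θ * μ, by positivity, by positivity, by rw [hθμ]; linarith, ?_⟩
  clear_value μ
  intro κ T j hκ hT
  have h1 := hS κ T j hκ hT
  calc blk5 κ T j ≤ ∑ q ∈ QT j, (C2 * μ ^ j) / 10 ^ j * Psi5 κ T q := by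
        unfold blk5
        apply Finset.sum_le_sum
        intro q hq
        rw [mem_QT] at hq
        have hqpos : 0 < q := by omega
        have hq' : (0 : ℝ) < q := by exact_mod_cast hqpos
        have h2 := htau j q hqpos hq.1.2
        have h3 : (10 : ℝ) ^ j ≤ q := by exact_mod_cast hq.1.1.le
        have h4 : ((tau q : ℝ)) ^ 3 / q ≤ (C2 * μ ^ j) / 10 ^ j := by
          apply div_le_div₀ (by positivity) h2 (by positivity) h3
        calc ((tau q : ℝ)) ^ 3 * Psi5 κ T q / q = ((tau q : ℝ)) ^ 3 / q * Psi5 κ T q := by ring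
          _ ≤ (C2 * μ ^ j) / 10 ^ j * Psi5 κ T q :=
            mul_le_mul_of_nonneg_right h4 (Psi5_nonneg _ _ _)
    _ = (C2 * μ ^ j) / 10 ^ j * ∑ q ∈ QT j, Psi5 κ T q := by rw [Finset.mul_sum]
    _ ≤ (C2 * μ ^ j) / 10 ^ j * (C1 * (10 * θ) ^ j) := by
        apply mul_le_mul_of_nonneg_left _ (by positivity)
        exact h1
    _ = C2 * C1 * (θ * μ) ^ j := by
        rw [mul_pow, mul_pow]
        field_simp

/-- total over all decimal blocks -/
lemma blk4_total (g : ℕ) (hg : 1 ≤ g) : ∃ C θ : ℝ, 0 < C ∧ 0 < θ ∧ θ < 1 ∧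
    ∃ s : ℕ, 0 < s ∧ ∀ κ T J : ℕ, (∀ q : ℕ, q.Coprime 10 → q.Coprime κ) → 5 * J + 3 * (J / g) ≤ 3 * T →
      ∑ j ∈ range J, blk5 κ T j ≤ C * θ ^ (Nat.sqrt (T / s)) := by
  obtain ⟨C, θ, hC, hθ0, hθ1, hL⟩ := blk4_large g hg
  obtain ⟨ρ, hρ0, hρ1, hS⟩ := blk5_small
  obtain ⟨s, hs⟩ := exists_pow_lt_of_lt_one (show (0 : ℝ) < 1 / 20000 by norm_num) hρ1
  have hs0 : 0 < s := by
    rcases Nat.eq_zero_or_pos s with h | h
    · rw [h, pow_zero] at hs
      norm_num at hs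
    · exact h
  set θ' : ℝ := max (1 / 2) θ with hθ'
  have hθ'0 : 0 < θ' := lt_max_of_lt_right hθ0
  have hθ'1 : θ' < 1 := max_lt (by norm_num) hθ1
  refine ⟨9000 + C / (1 - θ), θ', by
    have : 0 < C / (1 - θ) := div_pos hC (by linarith)
    linarith, hθ'0, hθ'1, 7 * s, by omega, ?_⟩
  intro κ T J hκ hT
  set u := Nat.sqrt (T / (7 * s)) with hu
  have hu2 : 7 * s * (u * u) ≤ T := by
    calc 7 * s * (u * u) ≤ 7 * s * (T / (7 * s)) := Nat.mul_le_mul_left _ (Nat.sqrt_le _)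
      _ ≤ T := Nat.mul_div_le _ _
  have hsmall : ∀ j < u, blk5 κ T j ≤ 9000 * 10000 ^ j * (1 / 20000) ^ u := by
    intro j hj
    refine (hS κ T j hκ).trans ?_
    apply mul_le_mul_of_nonneg_left _ (by positivity)
    have h1 : s * u ≤ T / (2 * j + 5) := by
      rw [Nat.le_div_iff_mul_le (by omega)]
      calc s * u * (2 * j + 5) ≤ s * u * (7 * u) := Nat.mul_le_mul_left _ (by omega)
        _ = 7 * s * (u * u) := by ring
        _ ≤ T := hu2
    calc ρ ^ (T / (2 * j + 5)) ≤ ρ ^ (s * u) := pow_le_pow_of_le_one hρ0.le hρ1.le h1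
      _ = (ρ ^ s) ^ u := by rw [pow_mul]
      _ ≤ (1 / 20000) ^ u := pow_le_pow_left₀ (by positivity) hs.le u
  have hlarge : ∀ j ∈ range J, blk5 κ T j ≤ C * θ ^ j := by
    intro j hj
    rw [Finset.mem_range] at hj
    apply hL κ T j hκ
    have := Nat.div_le_div_right (c := g) hj.le
    omega
  have hsplit : ∑ j ∈ range J, blk5 κ T j ≤
      ∑ j ∈ range u, 9000 * 10000 ^ j * (1 / 20000) ^ u + ∑ j ∈ Ico u (u + J), C * θ ^ j := by
    have h1 : ∑ j ∈ range J, blk5 κ T j =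
        ∑ j ∈ (range J).filter (fun j => j < u), blk5 κ T j +
          ∑ j ∈ (range J).filter (fun j => ¬ j < u), blk5 κ T j :=
      (Finset.sum_filter_add_sum_filter_not _ _ _).symm
    rw [h1]
    apply add_le_add
    · calc ∑ j ∈ (range J).filter (fun j => j < u), blk5 κ T j
          ≤ ∑ j ∈ (range J).filter (fun j => j < u), 9000 * 10000 ^ j * (1 / 20000 : ℝ) ^ u := by
            apply Finset.sum_le_sum
            intro j hj
            rw [Finset.mem_filter] at hj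
            exact hsmall j hj.2
        _ ≤ ∑ j ∈ range u, 9000 * 10000 ^ j * (1 / 20000) ^ u := by
            apply Finset.sum_le_sum_of_subset_of_nonneg
            · intro j hj
              rw [Finset.mem_filter] at hj
              exact Finset.mem_range.mpr hj.2
            · intro _ _ _
              positivity
    · calc ∑ j ∈ (range J).filter (fun j => ¬ j < u), blk5 κ T j
          ≤ ∑ j ∈ (range J).filter (fun j => ¬ j < u), C * θ ^ j := by
            apply Finset.sum_le_sum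
            intro j hj
            rw [Finset.mem_filter] at hj
            exact hlarge j hj.1
        _ ≤ ∑ j ∈ Ico u (u + J), C * θ ^ j := by
            apply Finset.sum_le_sum_of_subset_of_nonneg
            · intro j hj
              rw [Finset.mem_filter, Finset.mem_range] at hj
              rw [Finset.mem_Ico]
              omega
            · intro _ _ _
              positivity
  refine hsplit.trans ?_
  have hA : ∑ j ∈ range u, 9000 * 10000 ^ j * (1 / 20000 : ℝ) ^ u ≤ 9000 * (1 / 2) ^ u := by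
    rw [← Finset.sum_mul, ← Finset.mul_sum]
    have h1 : ∑ j ∈ range u, (10000 : ℝ) ^ j ≤ 10000 ^ u := by
      rw [geom_sum_eq (by norm_num)]
      have : (1 : ℝ) ≤ 10000 ^ u := one_le_pow₀ (by norm_num)
      rw [div_le_iff₀ (by norm_num)]
      linarith
    calc 9000 * (∑ j ∈ range u, (10000 : ℝ) ^ j) * (1 / 20000) ^ u
        ≤ 9000 * 10000 ^ u * (1 / 20000) ^ u := by
          apply mul_le_mul_of_nonneg_right _ (by positivity)
          linarith
      _ = 9000 * (1 / 2) ^ u := by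
          rw [mul_assoc, ← mul_pow]
          norm_num
  have hB : ∑ j ∈ Ico u (u + J), C * θ ^ j ≤ C / (1 - θ) * θ ^ u := by
    rw [← Finset.mul_sum, Finset.sum_Ico_eq_sum_range, Nat.add_sub_cancel_left]
    have h1 : ∀ i ∈ range J, θ ^ (u + i) = θ ^ u * θ ^ i := fun i _ => pow_add _ _ _
    rw [Finset.sum_congr rfl h1, ← Finset.mul_sum]
    have h2 : ∑ i ∈ range J, θ ^ i ≤ 1 / (1 - θ) := by
      rw [geom_sum_eq hθ1.ne]
      have e : (θ ^ J - 1) / (θ - 1) = (1 - θ ^ J) / (1 - θ) := by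
        rw [← neg_sub, ← neg_sub 1 θ, neg_div_neg_eq]
      rw [e]
      apply div_le_div_of_nonneg_right _ (by linarith)
      have : 0 ≤ θ ^ J := by positivity
      linarith
    calc C * (θ ^ u * ∑ i ∈ range J, θ ^ i) ≤ C * (θ ^ u * (1 / (1 - θ))) := by
          apply mul_le_mul_of_nonneg_left _ hC.le
          apply mul_le_mul_of_nonneg_left h2 (by positivity)
      _ = C / (1 - θ) * θ ^ u := by ring
  have hA' : (1 / 2 : ℝ) ^ u ≤ θ' ^ u := pow_le_pow_left₀ (by norm_num) (le_max_left _ _) u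
  have hB' : θ ^ u ≤ θ' ^ u := pow_le_pow_left₀ hθ0.le (le_max_right _ _) u
  have hCpos : 0 ≤ C / (1 - θ) := (div_pos hC (by linarith)).le
  calc ∑ j ∈ range u, 9000 * 10000 ^ j * (1 / 20000 : ℝ) ^ u + ∑ j ∈ Ico u (u + J), C * θ ^ j
      ≤ 9000 * (1 / 2) ^ u + C / (1 - θ) * θ ^ u := add_le_add hA hB
    _ ≤ 9000 * θ' ^ u + C / (1 - θ) * θ' ^ u := by
        apply add_le_add
        · linarith
        · exact mul_le_mul_of_nonneg_left hB' hCpos
    _ = (9000 + C / (1 - θ)) * θ' ^ u := by ring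


/-- **Level of distribution.** -/
theorem err4 (g : ℕ) (hg : 1 ≤ g) (A : ℕ) : ∃ T0 : ℕ, ∀ T : ℕ, T0 ≤ T →
    ∀ κ N0 Q J : ℕ, (∀ q : ℕ, q.Coprime 10 → q.Coprime κ) → Q ≤ 10 ^ J → 5 * J + 3 * (J / g) ≤ 3 * T →
      errSum5 κ T N0 Q ≤ 10 ^ T / (T : ℝ) ^ A := by
  obtain ⟨C, θ, hC, hθ0, hθ1, s, hs, htot⟩ := blk4_total g hg
  have hlim : Tendsto (fun u : ℕ => (u : ℝ) ^ (2 * (A + 8)) * θ ^ u) atTop (nhds 0) :=
    tendsto_pow_const_mul_const_pow_of_abs_lt_one _ (by rw [abs_of_pos hθ0]; exact hθ1)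
  have hCs : 0 < C * (3 * (4 * s : ℝ)) ^ (A + 8) := by positivity
  have hev := (hlim.eventually (gt_mem_nhds
    (show (0 : ℝ) < 1 / (C * (3 * (4 * s : ℝ)) ^ (A + 8)) by positivity)))
  obtain ⟨u0, hu0⟩ := Filter.eventually_atTop.mp hev
  refine ⟨s * (u0 + 1) ^ 2 + 1, ?_⟩
  intro T hT κ N0 Q J hκ hQ hJ
  have hT1 : 1 ≤ T := by omega
  have hTR : (1 : ℝ) ≤ T := by exact_mod_cast hT1
  set u := Nat.sqrt (T / s) with hu
  have hu1 : u0 + 1 ≤ u := by
    rw [hu, Nat.le_sqrt, Nat.le_div_iff_mul_le hs]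
    nlinarith
  have hu2 : T < s * ((u + 1) * (u + 1)) := by
    have h1 : T / s < (u + 1) * (u + 1) := Nat.lt_succ_sqrt _
    rw [Nat.div_lt_iff_lt_mul hs] at h1
    linarith
  have hTu : (T : ℝ) ≤ 4 * s * (u : ℝ) ^ 2 := by
    have h1 : (T : ℝ) ≤ s * ((u + 1) * (u + 1)) := by exact_mod_cast hu2.le
    have h2 : (1 : ℝ) ≤ u := by exact_mod_cast (by omega : 1 ≤ u)
    have h3 : ((u : ℝ) + 1) * (u + 1) ≤ 4 * (u : ℝ) ^ 2 := by nlinarith
    have hsR : (0 : ℝ) < s := by exact_mod_cast hs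
    nlinarith
  rcases Nat.eq_zero_or_pos Q with hQ0 | hQ0
  · subst hQ0
    unfold errSum5
    simp
    positivity
  have hJT : 5 * J ≤ 3 * T := (Nat.le_add_right _ _).trans hJ
  have h1 := errSum5_le κ T N0 Q J hQ
  have h2 := htot κ T J hκ hJ
  have h3 : hsum 3 Q ≤ (3 * (T : ℝ)) ^ 8 := by
    refine (hsum_le 3 Q hQ0).trans ?_
    norm_num
    have hlog : Real.log Q ≤ 2 * T := by
      have e1 : Real.log Q ≤ Real.log ((10 : ℝ) ^ J) := by
        apply Real.log_le_log (by exact_mod_cast hQ0)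
        exact_mod_cast hQ
      rw [Real.log_pow] at e1
      have e2 : 5 * ((J : ℕ) : ℝ) ≤ 3 * T := by exact_mod_cast hJT
      have e3 : Real.log 10 ≤ 3 := by
        have h16 : Real.log 10 ≤ Real.log 16 := Real.log_le_log (by norm_num) (by norm_num)
        have : Real.log 16 = 4 * Real.log 2 := by
          rw [show (16 : ℝ) = 2 ^ 4 by norm_num, Real.log_pow]
          norm_num
        have := Real.log_two_lt_d9
        linarith
      have e4 : (0 : ℝ) ≤ Real.log 10 := Real.log_nonneg (by norm_num)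
      have e5 : (0 : ℝ) ≤ ((J : ℕ) : ℝ) := by positivity
      nlinarith
    have hlog0 : 0 ≤ Real.log Q := Real.log_natCast_nonneg Q
    apply pow_le_pow_left₀ (by linarith)
    linarith
  have h4 : (u : ℝ) ^ (2 * (A + 8)) * θ ^ u < 1 / (C * (3 * (4 * s : ℝ)) ^ (A + 8)) :=
    hu0 u (by omega)
  have h5 : (3 * (T : ℝ)) ^ 8 * (C * θ ^ u) * (T : ℝ) ^ A ≤ 1 := by
    calc (3 * (T : ℝ)) ^ 8 * (C * θ ^ u) * (T : ℝ) ^ A
        ≤ (3 * (T : ℝ)) ^ 8 * (C * θ ^ u) * (3 * (T : ℝ)) ^ A := by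
          apply mul_le_mul_of_nonneg_left _ (by positivity)
          apply pow_le_pow_left₀ (by positivity)
          linarith
      _ = C * θ ^ u * (3 * (T : ℝ)) ^ (A + 8) := by rw [pow_add]; ring
      _ ≤ C * θ ^ u * (3 * (4 * s * (u : ℝ) ^ 2)) ^ (A + 8) := by
          apply mul_le_mul_of_nonneg_left _ (by positivity)
          apply pow_le_pow_left₀ (by positivity)
          linarith
      _ = C * (3 * (4 * s : ℝ)) ^ (A + 8) * ((u : ℝ) ^ (2 * (A + 8)) * θ ^ u) := by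
          rw [pow_mul (u : ℝ) 2 (A + 8), mul_pow 3 (4 * (s : ℝ) * (u : ℝ) ^ 2) (A + 8),
            mul_pow (4 * (s : ℝ)) ((u : ℝ) ^ 2) (A + 8), mul_pow 3 (4 * (s : ℝ)) (A + 8)]
          ring
      _ ≤ C * (3 * (4 * s : ℝ)) ^ (A + 8) * (1 / (C * (3 * (4 * s : ℝ)) ^ (A + 8))) := by
          apply mul_le_mul_of_nonneg_left h4.le hCs.le
      _ = 1 := by field_simp
  have hblk0 : 0 ≤ ∑ j ∈ range J, blk5 κ T j := Finset.sum_nonneg fun j _ => blk5_nonneg _ _ _
  calc errSum5 κ T N0 Q ≤ 10 ^ T * hsum 3 Q * ∑ j ∈ range J, blk5 κ T j := h1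
    _ ≤ 10 ^ T * (3 * (T : ℝ)) ^ 8 * (C * θ ^ u) := by
        apply mul_le_mul _ h2 hblk0 (by positivity)
        exact mul_le_mul_of_nonneg_left h3 (by positivity)
    _ ≤ 10 ^ T / (T : ℝ) ^ A := by
        rw [le_div_iff₀ (by positivity)]
        calc 10 ^ T * (3 * (T : ℝ)) ^ 8 * (C * θ ^ u) * (T : ℝ) ^ A
            = 10 ^ T * ((3 * (T : ℝ)) ^ 8 * (C * θ ^ u) * (T : ℝ) ^ A) := by ring
          _ ≤ 10 ^ T * 1 := mul_le_mul_of_nonneg_left h5 (by positivity)
          _ = 10 ^ T := mul_one _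

end Pool.Agent.Helper10.P4
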