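import Pool.Agent.Helper10.P5.Dig
import Pool.Agent.Helper10.PalBasics

/-! All palindromes with `2 * n + 1` digits, parametrized by digit vectors. -/

namespace Pool.Agent.Helper10.P4

open Finset Pool.Agent.Helper10 Pool.Agent.Helper10.P5

/-- `N` is a decimal palindrome with exactly `l` digits -/
def IsPalD (l N : ℕ) : Prop :=
  (Nat.digits 10 N).length = l ∧ (Nat.digits 10 N).reverse = Nat.digits 10 N

/-- the palindrome with outer digit `c`, central digit `d` and other digits `f` -/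
def PN (n c d : ℕ) (f : Fin (n - 1) → ℕ) : ℕ :=
  c * (10 ^ (2 * n) + 1) + d * 10 ^ n + 10 * vl (n - 1) f

/-- extension of a digit vector -/
def fa (n c : ℕ) (f : Fin (n - 1) → ℕ) (t : ℕ) : ℕ := if h : t < n - 1 then f ⟨t, h⟩ else c

/-- digits of the palindrome -/
def ga (n c d : ℕ) (f : Fin (n - 1) → ℕ) (i : ℕ) : ℕ :=
  if i = n then d else fa n c f (i - n + (n - i) - 1)

lemma ga_symm (n c d : ℕ) (f : Fin (n - 1) → ℕ) (i : ℕ) (hi : i < 2 * n + 1) :
    ga n c d f (2 * n + 1 - 1 - i) = ga n c d f i := by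
  unfold ga
  by_cases h : i = n
  · rw [if_pos (by omega), if_pos h]
  · rw [if_neg (by omega), if_neg h]
    congr 1
    omega

lemma ga_lt (n c d : ℕ) (hc : c < 10) (hd : d < 10) (f : Fin (n - 1) → ℕ) (hf : f ∈ KK (n - 1) 10)
    (i : ℕ) : ga n c d f i < 10 := by
  unfold KK at hf
  rw [Fintype.mem_piFinset] at hf
  unfold ga fa
  split_ifs with h1 h2
  · exact hd
  · exact Finset.mem_range.mp (hf _)
  · exact hc

lemma ga_top (n c d : ℕ) (hn : 1 ≤ n) (hc : c ≠ 0) (f : Fin (n - 1) → ℕ) :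
    ga n c d f (2 * n + 1 - 1) ≠ 0 := by
  unfold ga fa
  rw [if_neg (by omega), dif_neg (by omega)]
  exact hc

lemma PN_eq (n c d : ℕ) (hn : 1 ≤ n) (f : Fin (n - 1) → ℕ) :
    PN n c d f = ∑ i ∈ range (2 * n + 1), ga n c d f i * 10 ^ i := by
  have h1 : ∑ i ∈ range (2 * n + 1), ga n c d f i * 10 ^ i =
      ∑ i ∈ range n, ga n c d f i * 10 ^ i + (d * 10 ^ n +
        ∑ i ∈ range n, ga n c d f (n + (i + 1)) * 10 ^ (n + (i + 1))) := by
    rw [show 2 * n + 1 = n + (n + 1) by ring, Finset.sum_range_add, Finset.sum_range_succ']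
    have : ga n c d f (n + 0) = d := by
      unfold ga
      rw [if_pos (by omega)]
    rw [this]
    ring_nf
  have h2 : ∑ i ∈ range n, ga n c d f i * 10 ^ i = ∑ i ∈ range n, fa n c f i * 10 ^ (n - (i + 1)) := by
    rw [← Finset.sum_range_reflect]
    apply Finset.sum_congr rfl
    intro i hi
    rw [Finset.mem_range] at hi
    unfold ga
    rw [if_neg (by omega), show n - 1 - i - n + (n - (n - 1 - i)) - 1 = i by omega,
      show n - 1 - i = n - (i + 1) by omega]
  have h3 : ∑ i ∈ range n, ga n c d f (n + (i + 1)) * 10 ^ (n + (i + 1)) =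
      ∑ i ∈ range n, fa n c f i * 10 ^ (n + (i + 1)) := by
    apply Finset.sum_congr rfl
    intro i hi
    unfold ga
    rw [if_neg (by omega), show n + (i + 1) - n + (n - (n + (i + 1))) - 1 = i by omega]
  rw [h1, h2, h3]
  obtain ⟨k, rfl⟩ : ∃ k, n = k + 1 := ⟨n - 1, by omega⟩
  rw [Finset.sum_range_succ, Finset.sum_range_succ]
  have h4 : fa (k + 1) c f k = c := by
    unfold fa
    rw [dif_neg (by omega)]
  rw [h4]
  unfold PN vl
  have h5 : 10 * ∑ i : Fin (k + 1 - 1), f i * ww 10 (k + 1 - 1) ((i : ℕ) + 1) =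
      ∑ i ∈ range (k + 1 - 1), (fa (k + 1) c f i * 10 ^ (k + 1 - (i + 1)) +
        fa (k + 1) c f i * 10 ^ (k + 1 + (i + 1))) := by
    rw [Finset.sum_range (fun i => fa (k + 1) c f i * 10 ^ (k + 1 - (i + 1)) +
        fa (k + 1) c f i * 10 ^ (k + 1 + (i + 1))), Finset.mul_sum]
    apply Finset.sum_congr rfl
    intro i _
    have h6 : fa (k + 1) c f (i : ℕ) = f i := by
      unfold fa
      rw [dif_pos i.isLt]
    rw [h6]
    unfold ww
    have hi := i.isLt
    have e1 : 10 ^ (k + 1 - ((i : ℕ) + 1)) = 10 * 10 ^ (k + 1 - 1 - ((i : ℕ) + 1)) := by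
      rw [← pow_succ']
      congr 1
      omega
    have e2 : 10 ^ (k + 1 + ((i : ℕ) + 1)) = 10 * 10 ^ (k + 1 - 1 + ((i : ℕ) + 1)) := by
      rw [← pow_succ']
      congr 1
      omega
    rw [e1, e2]
    ring
  rw [h5, Finset.sum_add_distrib]
  simp only [Nat.add_sub_cancel, Nat.sub_self, pow_zero]
  rw [show 2 * (k + 1) = k + 1 + (k + 1) by ring]
  ring

lemma PN_pal (n c d : ℕ) (hn : 1 ≤ n) (hc0 : c ≠ 0) (hc : c < 10) (hd : d < 10)
    (f : Fin (n - 1) → ℕ) (hf : f ∈ KK (n - 1) 10) : IsPalD (2 * n + 1) (PN n c d f) := by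
  unfold IsPalD
  rw [PN_eq n c d hn f, digits_sum_range (ga n c d f) (2 * n + 1) (by omega)
    (fun i _ => ga_lt n c d hc hd f hf i) (ga_top n c d hn hc0 f)]
  refine ⟨by simp, ?_⟩
  exact reverse_map_range (ga n c d f) (2 * n + 1) (fun i hi => ga_symm n c d f i hi)

lemma PN_digit (n c d : ℕ) (hn : 1 ≤ n) (hc0 : c ≠ 0) (hc : c < 10) (hd : d < 10)
    (f : Fin (n - 1) → ℕ) (hf : f ∈ KK (n - 1) 10) (i : ℕ) (hi : i < 2 * n + 1) :
    PN n c d f / 10 ^ i % 10 = ga n c d f i := by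
  rw [PN_eq n c d hn f, digit_sum_range (ga n c d f) (2 * n + 1) (by omega)
    (fun i _ => ga_lt n c d hc hd f hf i) (ga_top n c d hn hc0 f), if_pos hi]

lemma PN_inj (n : ℕ) (hn : 1 ≤ n) (c d c' d' : ℕ) (f f' : Fin (n - 1) → ℕ) (hc0 : c ≠ 0)
    (hc : c < 10) (hd : d < 10) (hf : f ∈ KK (n - 1) 10) (hc0' : c' ≠ 0) (hc' : c' < 10)
    (hd' : d' < 10) (hf' : f' ∈ KK (n - 1) 10) (h : PN n c d f = PN n c' d' f') :
    c = c' ∧ d = d' ∧ f = f' := by
  have key : ∀ i, i < 2 * n + 1 → ga n c d f i = ga n c' d' f' i := by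
    intro i hi
    rw [← PN_digit n c d hn hc0 hc hd f hf i hi, ← PN_digit n c' d' hn hc0' hc' hd' f' hf' i hi, h]
  refine ⟨?_, ?_, ?_⟩
  · have := key 0 (by omega)
    unfold ga fa at this
    rw [if_neg (by omega), if_neg (by omega), dif_neg (by omega), dif_neg (by omega)] at this
    exact this
  · have := key n (by omega)
    unfold ga at this
    rw [if_pos rfl, if_pos rfl] at this
    exact this
  · funext i
    have hi := i.isLt
    have := key (n + ((i : ℕ) + 1)) (by omega)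
    unfold ga fa at this
    rw [if_neg (by omega), if_neg (by omega), dif_pos (by omega), dif_pos (by omega)] at this
    have e : ∀ g : Fin (n - 1) → ℕ, g ⟨n + ((i : ℕ) + 1) - n + (n - (n + ((i : ℕ) + 1))) - 1, by omega⟩ =
        g i := by
      intro g
      congr 1
      apply Fin.ext
      simp only
      omega
    rw [e f, e f'] at this
    exact this

lemma PN_surj (n : ℕ) (hn : 1 ≤ n) (N : ℕ) (hN : IsPalD (2 * n + 1) N) :
    ∃ c d : ℕ, ∃ f ∈ KK (n - 1) 10, c ≠ 0 ∧ c < 10 ∧ d < 10 ∧ N = PN n c d f := by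
  obtain ⟨hl, hr⟩ := hN
  have hlt : N < 10 ^ (2 * n + 1) := by
    rw [← Nat.digits_length_le_iff (by norm_num : 1 < 10), hl]
  have hge : 10 ^ (2 * n) ≤ N := by
    by_contra hcon
    push Not at hcon
    rw [← Nat.digits_length_le_iff (by norm_num : 1 < 10), hl] at hcon
    omega
  have hsym := digit_symm N (2 * n + 1) hl hr
  refine ⟨N / 10 ^ (2 * n) % 10, N / 10 ^ n % 10, fun i => N / 10 ^ (n + ((i : ℕ) + 1)) % 10,
    ?_, ?_, Nat.mod_lt _ (by norm_num), Nat.mod_lt _ (by norm_num), ?_⟩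
  · unfold KK
    rw [Fintype.mem_piFinset]
    intro i
    rw [Finset.mem_range]
    exact Nat.mod_lt _ (by norm_num)
  · have h1 : N / 10 ^ (2 * n) < 10 := by
      rw [Nat.div_lt_iff_lt_mul (by positivity)]
      rw [pow_succ] at hlt
      linarith
    have h2 : 1 ≤ N / 10 ^ (2 * n) := (Nat.one_le_div_iff (by positivity)).mpr hge
    rw [Nat.mod_eq_of_lt h1]
    omega
  · rw [PN_eq n _ _ hn]
    conv_lhs => rw [eq_sum_digits N (2 * n + 1) hl]
    apply Finset.sum_congr rfl
    intro i hi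
    rw [Finset.mem_range] at hi
    congr 1
    unfold ga fa
    by_cases h1 : i = n
    · rw [if_pos h1, h1]
    · rw [if_neg h1]
      by_cases h2 : i - n + (n - i) - 1 < n - 1
      · rw [dif_pos h2]
        simp only
        rcases Nat.lt_or_ge i n with h3 | h3
        · rw [← hsym i hi]
          congr 3
          omega
        · congr 3
          omega
      · rw [dif_neg h2]
        have h3 : i = 0 ∨ i = 2 * n := by omega
        rcases h3 with rfl | rfl
        · rw [← hsym 0 (by omega)]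
          congr 3
        · rfl

end Pool.Agent.Helper10.P4
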