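import Pool.Agent.Helper10.P4.Grid4
import Pool.Agent.Helper10.P5.Num

/-! Lower bounds for the smooth sums on the grid and the numerical inequalities. -/

namespace Pool.Agent.Helper10.P4

open Finset Pool.Agent.Helper10 Pool.Agent.Helper10.P5

/-- scaled sum of the corrections -/
def sN (w : ℕ) : ℕ := ∑ i ∈ Ico 36 ((w + 1) / 2), (500000 * (w - 2 * i) / i + 1)

/-- scaled lower bound for the smooth sums -/
def gN (w : ℕ) : ℕ := 500000 * w - (100 + sN w)

lemma G5_mono (Y Y' : ℕ) (h : Y ≤ Y') : G5 Y ≤ G5 Y' := by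
  unfold G5
  exact Finset.sum_le_sum_of_subset_of_nonneg (DD_mono Y Y' h) (fun _ _ _ => by positivity)

lemma inv_pred (p : ℝ) (hp : 10 ^ 7 ≤ p) : 1 / (p - 1) ≤ (1 + 1 / 10 ^ 6) * (1 / p) := by
  have h0 : (0 : ℝ) < 10 ^ 7 := by norm_num
  have h1 : (1 : ℝ) < 10 ^ 7 := by norm_num
  rw [mul_one_div, div_le_div_iff₀ (by linarith) (by linarith)]
  norm_num at hp ⊢
  linarith

lemma GS_grid (m : ℕ) (V C : ℝ) (hg : GridOK (1 / 10 ^ 6) m V C) (hm : 1000 ≤ m)
    (hG3 : ∀ j : ℕ, G5 (10 ^ (m * j)) ≤ V * (j / 2 + 1 / 10 ^ 6)) (w : ℕ) (hw : w ≤ 122)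
    (G : ℕ) (hG : G + 100 + sN w ≤ 500000 * w) :
    V * ((G : ℝ) / 10 ^ 6) ≤ GS (10 ^ (m * w)) ((10 ^ (2 * m)) ^ 36) := by
  classical
  have hV := V_lower m V C _ hg
  have hmR : (1000 : ℝ) ≤ m := by exact_mod_cast hm
  have hV0 : 0 < V := by linarith
  set ε : ℝ := 1 / 10 ^ 6 with hε
  have hε0 : 0 < ε := by rw [hε]; norm_num
  obtain ⟨U, hU⟩ : ∃ U, U = 10 ^ (2 * m) := ⟨_, rfl⟩
  have hcell := hg.cell
  rw [← hU] at hcell ⊢
  have hU1 : 1 ≤ U := by rw [hU]; exact Nat.one_le_pow _ _ (by norm_num)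
  have hUbig : 10 ^ 7 ≤ U := by
    rw [hU]
    exact Nat.pow_le_pow_right (by norm_num) (by omega)
  have hUpow : ∀ i : ℕ, U ^ i = 10 ^ (m * (2 * i)) := by
    intro i
    rw [hU, ← pow_mul]
    congr 1
    ring
  set W := 10 ^ (m * w) with hW
  have h1 := GS_lower W (U ^ 36)
  -- covering
  have hcov : (PL W).filter (fun p => U ^ 36 ≤ p) ⊆
      (Ico 36 ((w + 1) / 2)).biUnion (fun i => cellP U i) := by
    intro p hp
    rw [Finset.mem_filter, mem_PL] at hp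
    obtain ⟨⟨hpW, hpp⟩, hpz⟩ := hp
    have hne : p ≠ U ^ 36 := by
      intro h
      rw [h] at hpp
      exact Nat.Prime.not_prime_pow (by norm_num) hpp
    have hlt : U ^ 36 < p := lt_of_le_of_ne hpz (Ne.symm hne)
    have hex : ∃ i, p ≤ U ^ (i + 1) := by
      refine ⟨w, hpW.trans ?_⟩
      rw [hUpow]
      apply Nat.pow_le_pow_right (by norm_num)
      apply Nat.mul_le_mul_left
      omega
    obtain ⟨i, hi, hmin⟩ : ∃ i, p ≤ U ^ (i + 1) ∧ ∀ j < i, ¬ p ≤ U ^ (j + 1) :=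
      ⟨Nat.find hex, Nat.find_spec hex, fun j hj => Nat.find_min hex hj⟩
    have hi36 : 36 ≤ i := by
      by_contra hcon
      push Not at hcon
      have : U ^ (i + 1) ≤ U ^ 36 := Nat.pow_le_pow_right hU1 (by omega)
      omega
    have h2 := hmin (i - 1) (by omega)
    rw [show i - 1 + 1 = i by omega] at h2
    rw [Finset.mem_biUnion]
    refine ⟨i, ?_, ?_⟩
    · rw [Finset.mem_Ico]
      refine ⟨hi36, ?_⟩
      have h3 : U ^ i < W := by omega
      rw [hUpow, hW] at h3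
      have h4 := (Nat.pow_lt_pow_iff_right (by norm_num : 1 < 10)).mp h3
      have h5 : 2 * i < w := lt_of_mul_lt_mul_left h4 (Nat.zero_le m)
      omega
    · rw [mem_cellP]
      exact ⟨⟨by omega, hi⟩, hpp⟩
  have hnn : ∀ p ∈ (Ico 36 ((w + 1) / 2)).biUnion (fun i => cellP U i),
      0 ≤ (1 / ((p : ℝ) - 1)) * G5 (W / p) := by
    intro p hp
    rw [Finset.mem_biUnion] at hp
    obtain ⟨i, _, hp⟩ := hp
    rw [mem_cellP] at hp
    have : (1 : ℝ) < p := by exact_mod_cast hp.2.one_lt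
    have h2 : 0 < (p : ℝ) - 1 := by linarith
    have := G5_nonneg (W / p)
    positivity
  have hdisj : (↑(Ico 36 ((w + 1) / 2)) : Set ℕ).PairwiseDisjoint (fun i => cellP U i) := by
    intro i _ j _ hij
    rw [Function.onFun, Finset.disjoint_left]
    intro p hp hp2
    rw [mem_cellP] at hp hp2
    rcases Nat.lt_or_gt_of_ne hij with h | h
    · have : U ^ (i + 1) ≤ U ^ j := Nat.pow_le_pow_right hU1 h
      omega
    · have : U ^ (j + 1) ≤ U ^ i := Nat.pow_le_pow_right hU1 h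
      omega
  have h2 : ∑ p ∈ (PL W).filter (fun p => U ^ 36 ≤ p), (1 / ((p : ℝ) - 1)) * G5 (W / p) ≤
      ∑ i ∈ Ico 36 ((w + 1) / 2), ∑ p ∈ cellP U i, (1 / ((p : ℝ) - 1)) * G5 (W / p) := by
    rw [← Finset.sum_biUnion hdisj]
    exact Finset.sum_le_sum_of_subset_of_nonneg hcov (fun p hp _ => hnn p hp)
  have h3 : ∀ i ∈ Ico 36 ((w + 1) / 2), ∑ p ∈ cellP U i, (1 / ((p : ℝ) - 1)) * G5 (W / p) ≤
      V * (((500000 * (w - 2 * i) / i + 1 : ℕ) : ℝ) / 10 ^ 6 + 3 * ε) := by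
    intro i hi
    rw [Finset.mem_Ico] at hi
    have hiR : (36 : ℝ) ≤ i := by exact_mod_cast hi.1
    have hwi : 2 * i < w := by omega
    have hcast : ((w - 2 * i : ℕ) : ℝ) = w - 2 * i := by
      rw [Nat.cast_sub hwi.le]
      push_cast
      ring
    have hterm : ∀ p ∈ cellP U i, (1 / ((p : ℝ) - 1)) * G5 (W / p) ≤
        ((1 + ε) * (1 / (p : ℝ))) * (V * (((w : ℝ) - 2 * i) / 2 + ε)) := by
      intro p hp
      rw [mem_cellP] at hp
      have hpbig : 10 ^ 7 ≤ p := by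
        calc 10 ^ 7 ≤ U := hUbig
          _ = U ^ 1 := (pow_one U).symm
          _ ≤ U ^ i := Nat.pow_le_pow_right hU1 (by omega)
          _ ≤ p := hp.1.1.le
      have hpR : (10 : ℝ) ^ 7 ≤ p := by exact_mod_cast hpbig
      have e1 : 1 / ((p : ℝ) - 1) ≤ (1 + ε) * (1 / (p : ℝ)) := by
        rw [hε]
        exact inv_pred (p : ℝ) hpR
      have e2 : G5 (W / p) ≤ V * (((w : ℝ) - 2 * i) / 2 + ε) := by
        have e3 : W / p ≤ 10 ^ (m * (w - 2 * i)) := by
          have e4 : W / p ≤ W / U ^ i := Nat.div_le_div_left hp.1.1.le (by positivity)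
          refine e4.trans ?_
          rw [hUpow, hW, Nat.pow_div (Nat.mul_le_mul_left m hwi.le) (by norm_num), ← Nat.mul_sub]
        refine (G5_mono _ _ e3).trans ?_
        have := hG3 (w - 2 * i)
        rw [hcast] at this
        exact this
      have e5 : 0 ≤ (1 + ε) * (1 / (p : ℝ)) := by positivity
      exact mul_le_mul e1 e2 (G5_nonneg _) e5
    have hnum : (1 + ε) * ((1 + ε) / i) * (((w : ℝ) - 2 * i) / 2 + ε) ≤
        ((500000 * (w - 2 * i) / i + 1 : ℕ) : ℝ) / 10 ^ 6 + 3 * ε := by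
      have hi0 : (0 : ℝ) < i := by linarith
      have hwiR : (2 * (i : ℝ)) ≤ w := by exact_mod_cast hwi.le
      have hwR : (w : ℝ) ≤ 122 := by exact_mod_cast hw
      have hdiv := Nat.lt_div_mul_add (a := 500000 * (w - 2 * i)) (b := i) (by omega)
      have hdiv2 : (500000 * ((w : ℝ) - 2 * i)) ≤
          ((500000 * (w - 2 * i) / i + 1 : ℕ) : ℝ) * i := by
        rw [← hcast]
        have : 500000 * (w - 2 * i) ≤ (500000 * (w - 2 * i) / i + 1) * i := by
          rw [add_mul, one_mul]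
          exact hdiv.le
        exact_mod_cast this
      set F : ℝ := ((500000 * (w - 2 * i) / i + 1 : ℕ) : ℝ) with hF
      have hmain : ((w : ℝ) - 2 * i) / 2 / i ≤ F / 10 ^ 6 := by
        rw [div_div, div_le_div_iff₀ (by positivity) (by norm_num)]
        norm_num
        linarith
      have hx : ((w : ℝ) - 2 * i) / 2 / i ≤ 1 := by
        rw [div_div, div_le_one (by positivity)]
        linarith
      have hx0 : 0 ≤ ((w : ℝ) - 2 * i) / 2 / i := by
        apply div_nonneg (by linarith) hi0.le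
      have hei : ε / i ≤ ε / 36 := div_le_div_of_nonneg_left hε0.le (by norm_num) hiR
      have e1 : (1 + ε) * ((1 + ε) / i) * (((w : ℝ) - 2 * i) / 2 + ε) =
          (1 + ε) ^ 2 * (((w : ℝ) - 2 * i) / 2 / i) + (1 + ε) ^ 2 * (ε / i) := by
        field_simp
      rw [e1]
      have e2 : (1 + ε) ^ 2 ≤ 1 + 21 / 10 * ε := by
        rw [hε]
        norm_num
      have e3 : (1 + ε) ^ 2 * (((w : ℝ) - 2 * i) / 2 / i) ≤ ((w : ℝ) - 2 * i) / 2 / i + 21 / 10 * ε := by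
        calc (1 + ε) ^ 2 * (((w : ℝ) - 2 * i) / 2 / i) ≤
              (1 + 21 / 10 * ε) * (((w : ℝ) - 2 * i) / 2 / i) := mul_le_mul_of_nonneg_right e2 hx0
          _ ≤ _ := by nlinarith
      have e4 : (1 + ε) ^ 2 * (ε / i) ≤ 2 * (ε / 36) := by
        have : (1 + ε) ^ 2 ≤ 2 := by rw [hε]; norm_num
        have h0 : 0 ≤ ε / i := by positivity
        nlinarith
      linarith
    calc ∑ p ∈ cellP U i, (1 / ((p : ℝ) - 1)) * G5 (W / p)
        ≤ ∑ p ∈ cellP U i, ((1 + ε) * (1 / (p : ℝ))) * (V * (((w : ℝ) - 2 * i) / 2 + ε)) :=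
          Finset.sum_le_sum hterm
      _ = ((1 + ε) * ∑ p ∈ cellP U i, 1 / (p : ℝ)) * (V * (((w : ℝ) - 2 * i) / 2 + ε)) := by
          rw [← Finset.sum_mul, ← Finset.mul_sum]
      _ ≤ ((1 + ε) * ((1 + ε) / i)) * (V * (((w : ℝ) - 2 * i) / 2 + ε)) := by
          apply mul_le_mul_of_nonneg_right
          · apply mul_le_mul_of_nonneg_left (hcell i (by omega)) (by linarith)
          · apply mul_nonneg hV0.le
            have : (2 * (i : ℝ)) ≤ w := by exact_mod_cast hwi.le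
            linarith
      _ = V * ((1 + ε) * ((1 + ε) / i) * (((w : ℝ) - 2 * i) / 2 + ε)) := by ring
      _ ≤ _ := mul_le_mul_of_nonneg_left hnum hV0.le
  have h4 : ∑ i ∈ Ico 36 ((w + 1) / 2), ∑ p ∈ cellP U i, (1 / ((p : ℝ) - 1)) * G5 (W / p) ≤
      V * ((sN w : ℝ) / 10 ^ 6 + 75 * ε) := by
    refine (Finset.sum_le_sum h3).trans ?_
    rw [← Finset.mul_sum]
    apply mul_le_mul_of_nonneg_left _ hV0.le
    rw [Finset.sum_add_distrib, ← Finset.sum_div, ← Nat.cast_sum, Finset.sum_const, nsmul_eq_mul,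
      Nat.card_Ico]
    have h5 : (((w + 1) / 2 - 36 : ℕ) : ℝ) ≤ 25 := by
      exact_mod_cast (by omega : (w + 1) / 2 - 36 ≤ 25)
    unfold sN
    have : (((w + 1) / 2 - 36 : ℕ) : ℝ) * (3 * ε) ≤ 25 * (3 * ε) :=
      mul_le_mul_of_nonneg_right h5 (by positivity)
    linarith
  have h5 := hg.G2 w
  have h6 : (G : ℝ) / 10 ^ 6 ≤ w / 2 - ε - ((sN w : ℝ) / 10 ^ 6 + 75 * ε) := by
    have h7 : (G : ℝ) + 100 + sN w ≤ 500000 * w := by exact_mod_cast hG
    rw [hε]
    rw [div_le_iff₀ (by norm_num)]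
    norm_num
    linarith
  have h7 := mul_le_mul_of_nonneg_left h6 hV0.le
  rw [mul_sub] at h7
  linarith

set_option maxRecDepth 100000 in
lemma gN_ok : ∀ w ∈ Icc 5 122, 100 + sN w ≤ 500000 * w := by
  decide +kernel

set_option maxRecDepth 100000 in
lemma gN_pos : ∀ w ∈ Icc 5 122, 2000000 ≤ gN w := by
  decide +kernel

lemma GS_gN (m : ℕ) (V C : ℝ) (hg : GridOK (1 / 10 ^ 6) m V C) (hm : 1000 ≤ m)
    (hG3 : ∀ j : ℕ, G5 (10 ^ (m * j)) ≤ V * (j / 2 + 1 / 10 ^ 6)) (w : ℕ) (hw5 : 5 ≤ w)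
    (hw : w ≤ 122) :
    V * ((gN w : ℝ) / 10 ^ 6) ≤ GS (10 ^ (m * w)) ((10 ^ (2 * m)) ^ 36) := by
  apply GS_grid m V C hg hm hG3 w hw
  have := gN_ok w (Finset.mem_Icc.mpr ⟨hw5, hw⟩)
  unfold gN
  omega

set_option maxRecDepth 100000 in
lemma nums2 : ∑ i ∈ Icc 1 35, (Acell 61 i / i + 1) = 32057 := by
  decide +kernel

set_option maxRecDepth 100000 in
lemma nums3 : ∑ i ∈ Icc 1 61, ∑ j ∈ Icc 1 61, min i j = 77531 := by
  decide +kernel

lemma nums1 (i : ℕ) (hi : i ∈ Icc 1 35) : (Acell 61 i : ℝ) / i ≤ ((Acell 61 i / i + 1 : ℕ) : ℝ) := by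
  rw [Finset.mem_Icc] at hi
  have hi0 : (0 : ℝ) < i := by exact_mod_cast (by omega : 0 < i)
  rw [div_le_iff₀ hi0]
  have h1 := Nat.lt_div_mul_add (a := Acell 61 i) (show 0 < i by omega)
  have h2 : Acell 61 i ≤ (Acell 61 i / i + 1) * i := by
    rw [add_mul, one_mul]
    exact h1.le
  exact_mod_cast h2

set_option maxRecDepth 100000 in
lemma nums4 : ∑ i ∈ Icc 36 153, ((10 ^ 15 * (154 - i)) / (154 * i * gN (158 - i)) + 1) ≤
    18180000 := by
  decide +kernel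

lemma nums5 : ∑ i ∈ Icc (36 : ℕ) 153, (1 - (i : ℝ) / 154) / ((i : ℝ) * ((gN (158 - i) : ℝ) / 10 ^ 6)) ≤
    18180 / 10 ^ 6 := by
  have h1 : ∀ i ∈ Icc (36 : ℕ) 153, (1 - (i : ℝ) / 154) / ((i : ℝ) * ((gN (158 - i) : ℝ) / 10 ^ 6)) ≤
      (((10 ^ 15 * (154 - i)) / (154 * i * gN (158 - i)) + 1 : ℕ) : ℝ) / 10 ^ 9 := by
    intro i hi
    rw [Finset.mem_Icc] at hi
    have hgp := gN_pos (158 - i) (Finset.mem_Icc.mpr ⟨by omega, by omega⟩)
    generalize gN (158 - i) = M at hgp ⊢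
    have hM0 : 0 < M := by omega
    have hMR : (0 : ℝ) < M := by exact_mod_cast hM0
    have hiR : (0 : ℝ) < i := by exact_mod_cast (by omega : 0 < i)
    have e1 : (1 - (i : ℝ) / 154) / ((i : ℝ) * ((M : ℝ) / 10 ^ 6)) =
        (((10 ^ 15 * (154 - i) : ℕ) : ℝ) / ((154 * i * M : ℕ) : ℝ)) / 10 ^ 9 := by
      have hsub : ((154 - i : ℕ) : ℝ) = 154 - i := by
        rw [Nat.cast_sub (by omega)]
        norm_num
      push_cast
      rw [hsub]
      field_simp
      norm_num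
    rw [e1]
    apply div_le_div_of_nonneg_right _ (by positivity)
    have hden : (0 : ℝ) < ((154 * i * M : ℕ) : ℝ) := by
      have : 0 < 154 * i * M := by
        have : 0 < i := by omega
        positivity
      exact_mod_cast this
    rw [div_le_iff₀ hden]
    have h2 := Nat.lt_div_mul_add (a := 10 ^ 15 * (154 - i)) (b := 154 * i * M)
      (by have : 0 < i := by omega
          positivity)
    have h3 : 10 ^ 15 * (154 - i) ≤ ((10 ^ 15 * (154 - i)) / (154 * i * M) + 1) * (154 * i * M) := by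
      rw [add_mul, one_mul]
      exact h2.le
    exact_mod_cast h3
  refine (Finset.sum_le_sum h1).trans ?_
  rw [← Finset.sum_div, ← Nat.cast_sum, div_le_div_iff₀ (by norm_num) (by norm_num)]
  have := nums4
  have h2 : ((∑ i ∈ Icc 36 153, ((10 ^ 15 * (154 - i)) / (154 * i * gN (158 - i)) + 1) : ℕ) : ℝ) ≤
      18180000 := by exact_mod_cast this
  clear this
  generalize (∑ i ∈ Icc 36 153, ((10 ^ 15 * (154 - i)) / (154 * i * gN (158 - i)) + 1)) = S at h2 ⊢
  norm_num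
  linarith

end Pool.Agent.Helper10.P4
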