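import Pool.Agent.Helper10.P4.Wt4
import Pool.Agent.Helper10.P4.Err4

/-! Assembly: the lower bound with squares and the weighted upper bound. -/

namespace Pool.Agent.Helper10.P4

open Finset Pool.Agent.Helper10 Pool.Agent.Helper10.P5

/-- the lower bound for the sifted set, squares kept -/
theorem lowS4 (m n : ℕ) (V C : ℝ) (hg : GridOK (1 / 10 ^ 6) m V C) (hm : 1000 ≤ m)
    (hn : 532 * m ≤ n)
    (hErr : ∀ Q : ℕ, Q ≤ 10 ^ (318 * m) →
      errTot (rr n) Q ≤ 10 ^ (n - 1) / ((n - 1 : ℕ) : ℝ) ^ 20) :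
    10 ^ (n - 1) * (45411 * V) ≤
      ∑ f ∈ sift (KK (n - 1) 10) (Npal n) ((10 ^ (2 * m)) ^ 36),
        wt5 ((10 ^ (2 * m)) ^ 61) (ys (10 ^ (2 * m)) 61) (Npal n f) ^ 2 := by
  classical
  have hV := V_bounds m V C _ hg
  have hmR : (1000 : ℝ) ≤ m := by exact_mod_cast hm
  have hV0 : 0 < V := by linarith [hV.1]
  have hmain := low_main4 m V C hg nums1 nums2 nums3
  have hG := hg.G
  have hlogU : Real.log ((10 ^ (2 * m) : ℕ) : ℝ) = 2 * m * Real.log 10 := by
    push_cast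
    rw [Real.log_pow]
    push_cast
    ring
  have hU2 : 1001 ≤ 10 ^ (2 * m) := by
    calc 1001 ≤ 10 ^ 4 := by norm_num
      _ ≤ 10 ^ (2 * m) := Nat.pow_le_pow_right (by norm_num) (by omega)
  obtain ⟨U, hU⟩ : ∃ U, U = 10 ^ (2 * m) := ⟨_, rfl⟩
  rw [← hU] at hmain hG hU2 hlogU ⊢
  set X : ℝ := 10 ^ (n - 1) with hX
  have hX0 : 0 < X := by rw [hX]; positivity
  set B : ℝ := 61 * (G5 (U ^ 61) * (1 + Real.log ((U ^ 61 : ℕ) : ℝ))) with hB
  have hBle : ∀ d ∈ DD (U ^ 61), |lm (U ^ 61) (ys U 61) d| ≤ B := by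
    intro d hd
    have := lm_abs_le (U ^ 61) (ys U 61) ((61 : ℕ) : ℝ) (ys_nonneg U 61) (ys_le U 61) d hd
    rw [hB]
    exact_mod_cast this
  have h1 := low4 (KK (n - 1) 10) (Npal n) X hX0.le (rr n) (rr_nonneg n)
    (fun q _ _ => rr_spec n q) (U ^ 61) (U ^ 36) (Nat.one_le_pow _ _ (by omega)) (ys U 61)
    (fun k hk => ys_zero U 61 k (by omega) hk) B hBle
  have h2 : U ^ 61 * U ^ 61 * U ^ 36 ≤ 10 ^ (318 * m) := by
    rw [← pow_add, ← pow_add, hU, ← pow_mul]
    apply Nat.pow_le_pow_right (by norm_num)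
    omega
  have h3 := hErr _ h2
  -- size of `B`
  have hl10 := log10_bounds
  have hG59 : G5 (U ^ 61) ≤ 489 * m := by
    have := (abs_le.mp (hG 61)).2
    push_cast at this
    norm_num at this
    linarith [hV.2]
  have hlog59 : 1 + Real.log ((U ^ 61 : ℕ) : ℝ) ≤ 1099 * m := by
    rw [Nat.cast_pow, Real.log_pow, hlogU]
    push_cast
    nlinarith
  have hlog59' : 0 ≤ 1 + Real.log ((U ^ 61 : ℕ) : ℝ) := by
    have := Real.log_natCast_nonneg (U ^ 61)
    linarith
  have hB0 : 0 ≤ B := by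
    rw [hB]
    have := G5_nonneg (U ^ 61)
    positivity
  have hBup : B ≤ 10 ^ 8 * (m : ℝ) ^ 2 := by
    have h4 : G5 (U ^ 61) * (1 + Real.log ((U ^ 61 : ℕ) : ℝ)) ≤ (489 * m) * (1099 * m) :=
      mul_le_mul hG59 hlog59 hlog59' (by positivity)
    rw [hB]
    nlinarith
  have hB2 : B ^ 2 ≤ 10 ^ 16 * (m : ℝ) ^ 4 := by
    calc B ^ 2 ≤ (10 ^ 8 * (m : ℝ) ^ 2) ^ 2 := pow_le_pow_left₀ hB0 hBup 2
      _ = 10 ^ 16 * (m : ℝ) ^ 4 := by ring
  have hTm : (m : ℝ) ≤ ((n - 1 : ℕ) : ℝ) := by exact_mod_cast (by omega : m ≤ n - 1)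
  have hT20 : 10 ^ 51 * (m : ℝ) ^ 3 ≤ ((n - 1 : ℕ) : ℝ) ^ 20 := by
    calc 10 ^ 51 * (m : ℝ) ^ 3 = 1000 ^ 17 * (m : ℝ) ^ 3 := by norm_num
      _ ≤ (m : ℝ) ^ 17 * (m : ℝ) ^ 3 := by
          apply mul_le_mul_of_nonneg_right _ (by positivity)
          exact pow_le_pow_left₀ (by norm_num) hmR 17
      _ = (m : ℝ) ^ 20 := by ring
      _ ≤ ((n - 1 : ℕ) : ℝ) ^ 20 := pow_le_pow_left₀ (by positivity) hTm 20
  have hT0 : (0 : ℝ) < ((n - 1 : ℕ) : ℝ) ^ 20 := lt_of_lt_of_le (by positivity) hT20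
  have hErrB : B ^ 2 * errTot (rr n) (U ^ 61 * U ^ 61 * U ^ 36) ≤ X * V := by
    calc B ^ 2 * errTot (rr n) (U ^ 61 * U ^ 61 * U ^ 36)
        ≤ (10 ^ 16 * (m : ℝ) ^ 4) * (X / ((n - 1 : ℕ) : ℝ) ^ 20) := by
          apply mul_le_mul hB2 h3 _ (by positivity)
          unfold errTot
          exact Finset.sum_nonneg fun q _ => mul_nonneg (by positivity) (rr_nonneg n q)
      _ ≤ (10 ^ 16 * (m : ℝ) ^ 4) * (X / (10 ^ 51 * (m : ℝ) ^ 3)) := by
          apply mul_le_mul_of_nonneg_left _ (by positivity)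
          apply div_le_div_of_nonneg_left hX0.le (by positivity) hT20
      _ = X * (m / 10 ^ 35) := by
          field_simp
      _ ≤ X * V := by
          apply mul_le_mul_of_nonneg_left _ hX0.le
          have : (m : ℝ) / 10 ^ 35 ≤ m * (4 / 5) := by
            rw [div_le_iff₀ (by positivity)]
            nlinarith
          linarith [hV.1]
  have h5 : X * (45412 * V) ≤ X * (∑ k ∈ DD (U ^ 61), ys U 61 k ^ 2 / (Nat.totient k : ℝ) -
      ∑ p ∈ PP (U ^ 36), (1 / (p : ℝ)) *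
        ∑ k ∈ DD (U ^ 61), (ys U 61 k - ys U 61 (k * p)) ^ 2 / (Nat.totient k : ℝ)) :=
    mul_le_mul_of_nonneg_left hmain hX0.le
  linarith

/-- one prime -/
lemma cell_prime4 (m n i p : ℕ) (hm : 1000 ≤ m) (hi : 36 ≤ i)
    (hp : p ∈ cellP (10 ^ (2 * m)) i) :
    ((((sift (KK (n - 1) 10) (Npal n) ((10 ^ (2 * m)) ^ 36)).filter
      (fun f => p ∣ Npal n f)).card : ℕ) : ℝ) ≤
      10 ^ (n - 1) / (p * GS (10 ^ (m * (158 - i))) ((10 ^ (2 * m)) ^ 36)) +
      (G5 (10 ^ (m * (158 - i))) * (1 + Real.log ((10 ^ (m * (158 - i)) : ℕ) : ℝ))) ^ 2 *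
        ∑ d1 ∈ DD (10 ^ (m * (158 - i))), ∑ d2 ∈ DD (10 ^ (m * (158 - i))),
          rr n (Nat.lcm (Nat.lcm d1 d2) p) := by
  classical
  rw [mem_cellP] at hp
  set W := 10 ^ (m * (158 - i)) with hW
  have hW1 : 1 ≤ W := Nat.one_le_pow _ _ (by norm_num)
  have hzi : (10 ^ (2 * m)) ^ 36 ≤ (10 ^ (2 * m)) ^ i :=
    Nat.pow_le_pow_right (Nat.one_le_pow _ _ (by norm_num)) hi
  have hp10 : p.Coprime 10 := by
    have h1 : 10 < p := by
      calc 10 = 10 ^ 1 := by norm_num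
        _ ≤ (10 ^ (2 * m)) ^ i := by
            rw [← pow_mul]
            apply Nat.pow_le_pow_right (by norm_num)
            have : 1 ≤ m * i := Nat.mul_pos (by omega) (by omega)
            nlinarith
        _ < p := hp.1.1
    rw [Nat.Prime.coprime_iff_not_dvd hp.2]
    intro h
    have := Nat.le_of_dvd (by norm_num) h
    omega
  apply up4 (KK (n - 1) 10) (Npal n) (10 ^ (n - 1)) (by positivity) (rr n)
    (fun q _ _ => rr_spec n q) W ((10 ^ (2 * m)) ^ 36) p hW1 hp.2 hp10 (by omega)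
  · intro d hd
    have := lm_abs_le W (yS W ((10 ^ (2 * m)) ^ 36)) 1 (yS_nonneg W _)
      (fun k => yS_le W _ k hW1) d hd
    rw [one_mul] at this
    exact this
  · intro f hf
    unfold sift at hf
    rw [Finset.mem_filter, Finset.mem_filter] at hf
    exact hf.1.1
  · intro f hf
    unfold sift at hf
    rw [Finset.mem_filter, Finset.mem_filter] at hf
    exact ⟨hf.2, hf.1.2⟩

/-- the weighted sum over the primes of medium size -/
theorem upS4 (m n : ℕ) (V C : ℝ) (hg : GridOK (1 / 10 ^ 6) m V C) (hm : 1000 ≤ m)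
    (hG3 : ∀ j : ℕ, G5 (10 ^ (m * j)) ≤ V * (j / 2 + 1 / 10 ^ 6))
    (hn : 532 * m ≤ n)
    (hErr : ∀ Q : ℕ, Q ≤ 10 ^ (318 * m) →
      errTot (rr n) Q ≤ 10 ^ (n - 1) / ((n - 1 : ℕ) : ℝ) ^ 20) :
    ∑ i ∈ Icc 36 153, ∑ p ∈ cellP (10 ^ (2 * m)) i,
      (1 - Real.log p / Real.log (((10 ^ (2 * m)) ^ 154 : ℕ) : ℝ)) *
      (((sift (KK (n - 1) 10) (Npal n) ((10 ^ (2 * m)) ^ 36)).filter
        (fun f => p ∣ Npal n f)).card : ℝ) ≤ 1819 / 100000 * (10 ^ (n - 1) / V) := by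
  classical
  have hV := V_bounds m V C _ hg
  have hmR : (1000 : ℝ) ≤ m := by exact_mod_cast hm
  have hV0 : 0 < V := by linarith [hV.1]
  have hl10 := log10_bounds
  have hlogU : Real.log ((10 ^ (2 * m) : ℕ) : ℝ) = 2 * m * Real.log 10 := by
    push_cast
    rw [Real.log_pow]
    push_cast
    ring
  set X : ℝ := 10 ^ (n - 1) with hX
  have hX0 : 0 < X := by rw [hX]; positivity
  have hTm : (m : ℝ) ≤ ((n - 1 : ℕ) : ℝ) := by exact_mod_cast (by omega : m ≤ n - 1)
  have hT20 : 10 ^ 45 * (m : ℝ) ^ 5 ≤ ((n - 1 : ℕ) : ℝ) ^ 20 := by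
    calc 10 ^ 45 * (m : ℝ) ^ 5 = 1000 ^ 15 * (m : ℝ) ^ 5 := by norm_num
      _ ≤ (m : ℝ) ^ 15 * (m : ℝ) ^ 5 := by
          apply mul_le_mul_of_nonneg_right _ (by positivity)
          exact pow_le_pow_left₀ (by norm_num) hmR 15
      _ = (m : ℝ) ^ 20 := by ring
      _ ≤ ((n - 1 : ℕ) : ℝ) ^ 20 := pow_le_pow_left₀ (by positivity) hTm 20
  have hT0 : (0 : ℝ) < ((n - 1 : ℕ) : ℝ) ^ 20 := lt_of_lt_of_le (by positivity) hT20
  set ε : ℝ := 1 / 10 ^ 6 with hε
  have key : ∀ i ∈ Icc (36 : ℕ) 153, ∑ p ∈ cellP (10 ^ (2 * m)) i,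
      (1 - Real.log p / Real.log (((10 ^ (2 * m)) ^ 154 : ℕ) : ℝ)) *
      (((sift (KK (n - 1) 10) (Npal n) ((10 ^ (2 * m)) ^ 36)).filter
        (fun f => p ∣ Npal n f)).card : ℝ) ≤
      (X / V * (1 + ε)) *
        ((1 - (i : ℝ) / 154) / ((i : ℝ) * ((gN (158 - i) : ℝ) / 10 ^ 6))) +
      X / V * (1 / 10 ^ 30) := by
    intro i hi
    rw [Finset.mem_Icc] at hi
    have hcp := fun p hp => cell_prime4 m n i p hm hi.1 hp
    have hcell := hg.cell i (by omega)
    have hGS := GS_gN m V C hg hm hG3 (158 - i) (by omega) (by omega)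
    have hgp := gN_pos (158 - i) (Finset.mem_Icc.mpr ⟨by omega, by omega⟩)
    have hGW3 := hG3 (158 - i)
    have hM3 : 158 - i + i = 158 := by omega
    have hM122 : 158 - i ≤ 122 := by omega
    generalize hMeq : 158 - i = M at *
    have hiR : (36 : ℝ) ≤ i := by exact_mod_cast hi.1
    have hiR2 : (i : ℝ) ≤ 153 := by exact_mod_cast hi.2
    have hgpR : (2000000 : ℝ) ≤ (gN M : ℝ) := by exact_mod_cast hgp
    have hM122R : (M : ℝ) ≤ 122 := by exact_mod_cast hM122
    set W := 10 ^ (m * M) with hW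
    set w : ℝ := 1 - (i : ℝ) / 154 with hw
    have hw0 : 0 ≤ w := by rw [hw]; linarith
    have hw1 : w ≤ 1 := by rw [hw]; linarith
    have hGW0 : 0 < V * ((gN M : ℝ) / 10 ^ 6) := by positivity
    have hG0 : 0 < GS W ((10 ^ (2 * m)) ^ 36) := lt_of_lt_of_le hGW0 hGS
    have hlogW0 : 0 ≤ Real.log (W : ℝ) := Real.log_natCast_nonneg W
    have hlogW : 1 + Real.log (W : ℝ) ≤ 1099 * m := by
      rw [hW, Nat.cast_pow, Real.log_pow]
      push_cast
      have h1 : (m : ℝ) * M ≤ m * 122 := by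
        apply mul_le_mul_of_nonneg_left _ (by positivity)
        exact hM122R
      have h2 : (m : ℝ) * M * Real.log 10 ≤ (m * 122) * 9 :=
        mul_le_mul h1 hl10.2 (by linarith) (by positivity)
      linarith
    have hG5W : G5 W ≤ 489 * m := by
      refine hGW3.trans ?_
      calc V * ((M : ℝ) / 2 + ε) ≤ (8 * m) * (611 / 10) := by
            apply mul_le_mul hV.2 _ _ (by positivity)
            · rw [hε]
              linarith
            · rw [hε]
              positivity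
        _ ≤ 489 * m := by linarith
    set B : ℝ := G5 W * (1 + Real.log (W : ℝ)) with hB
    have hB0 : 0 ≤ B := by
      rw [hB]
      have := G5_nonneg W
      positivity
    have hBup : B ≤ 10 ^ 6 * (m : ℝ) ^ 2 := by
      have h4 : G5 W * (1 + Real.log (W : ℝ)) ≤ (489 * m) * (1099 * m) :=
        mul_le_mul hG5W hlogW (by linarith) (by positivity)
      rw [hB]
      nlinarith
    have hB2 : B ^ 2 ≤ 10 ^ 12 * (m : ℝ) ^ 4 := by
      calc B ^ 2 ≤ (10 ^ 6 * (m : ℝ) ^ 2) ^ 2 := pow_le_pow_left₀ hB0 hBup 2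
        _ = 10 ^ 12 * (m : ℝ) ^ 4 := by ring
    -- termwise
    have hterm : ∀ p ∈ cellP (10 ^ (2 * m)) i,
        (1 - Real.log p / Real.log (((10 ^ (2 * m)) ^ 154 : ℕ) : ℝ)) *
        (((sift (KK (n - 1) 10) (Npal n) ((10 ^ (2 * m)) ^ 36)).filter
          (fun f => p ∣ Npal n f)).card : ℝ) ≤
        w * (X / GS W ((10 ^ (2 * m)) ^ 36)) * (1 / (p : ℝ)) + B ^ 2 *
          ∑ d1 ∈ DD W, ∑ d2 ∈ DD W, rr n (Nat.lcm (Nat.lcm d1 d2) p) := by
      intro p hp
      have h1 := hcp p hp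
      rw [mem_cellP] at hp
      have hp0 : (0 : ℝ) < p := by exact_mod_cast hp.2.pos
      have h2 : (i : ℝ) / 154 ≤ Real.log p / Real.log (((10 ^ (2 * m)) ^ 154 : ℕ) : ℝ) := by
        have h3 : (i : ℝ) * (2 * m * Real.log 10) ≤ Real.log p := by
          rw [← hlogU, ← Real.log_pow]
          apply Real.log_le_log (by positivity)
          exact_mod_cast hp.1.1.le
        have h4 : Real.log (((10 ^ (2 * m)) ^ 154 : ℕ) : ℝ) = 154 * (2 * m * Real.log 10) := by
          rw [Nat.cast_pow, Real.log_pow, hlogU]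
          push_cast
          ring
        rw [h4, div_le_div_iff₀ (by norm_num) (by
          have : 0 < Real.log 10 := by linarith
          positivity)]
        linarith
      have h5 : 1 - Real.log p / Real.log (((10 ^ (2 * m)) ^ 154 : ℕ) : ℝ) ≤ w := by
        rw [hw]; linarith
      set c : ℝ := (((sift (KK (n - 1) 10) (Npal n) ((10 ^ (2 * m)) ^ 36)).filter
          (fun f => p ∣ Npal n f)).card : ℝ) with hc
      have hc0 : 0 ≤ c := Nat.cast_nonneg _
      have hE0 : 0 ≤ B ^ 2 *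
          ∑ d1 ∈ DD W, ∑ d2 ∈ DD W, rr n (Nat.lcm (Nat.lcm d1 d2) p) := by
        apply mul_nonneg (sq_nonneg _)
        exact Finset.sum_nonneg fun _ _ => Finset.sum_nonneg fun _ _ => rr_nonneg _ _
      calc (1 - Real.log p / Real.log (((10 ^ (2 * m)) ^ 154 : ℕ) : ℝ)) * c ≤ w * c :=
            mul_le_mul_of_nonneg_right h5 hc0
        _ ≤ w * (X / (p * GS W ((10 ^ (2 * m)) ^ 36)) + B ^ 2 *
            ∑ d1 ∈ DD W, ∑ d2 ∈ DD W, rr n (Nat.lcm (Nat.lcm d1 d2) p)) :=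
            mul_le_mul_of_nonneg_left h1 hw0
        _ = w * (X / GS W ((10 ^ (2 * m)) ^ 36)) * (1 / (p : ℝ)) + w * (B ^ 2 *
            ∑ d1 ∈ DD W, ∑ d2 ∈ DD W, rr n (Nat.lcm (Nat.lcm d1 d2) p)) := by
            field_simp
        _ ≤ _ := by
            have := mul_le_mul_of_nonneg_right hw1 hE0
            linarith
    have herr : ∑ p ∈ cellP (10 ^ (2 * m)) i, ∑ d1 ∈ DD W, ∑ d2 ∈ DD W,
        rr n (Nat.lcm (Nat.lcm d1 d2) p) ≤ X / (10 ^ 45 * (m : ℝ) ^ 5) := by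
      have h1 := err_regroup (rr n) (rr_nonneg n) W ((10 ^ (2 * m)) ^ (i + 1))
        (cellP (10 ^ (2 * m)) i) (by
          intro p hp
          rw [mem_cellP] at hp
          refine ⟨hp.2.pos, hp.1.2, ?_⟩
          have h1 : 10 < p := by
            calc 10 = 10 ^ 1 := by norm_num
              _ ≤ (10 ^ (2 * m)) ^ i := by
                  rw [← pow_mul]
                  apply Nat.pow_le_pow_right (by norm_num)
                  have : 1 ≤ m * i := Nat.mul_pos (by omega) (by omega)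
                  nlinarith
              _ < p := hp.1.1
          rw [Nat.Prime.coprime_iff_not_dvd hp.2]
          intro h
          have := Nat.le_of_dvd (by norm_num) h
          omega)
      refine h1.trans ?_
      refine (hErr _ ?_).trans ?_
      · rw [hW, ← pow_mul, ← pow_add, ← pow_add]
        apply Nat.pow_le_pow_right (by norm_num)
        have hk2 : i = 158 - M := by omega
        have hk3 : M ≤ 158 := by omega
        have h3 : m * M + m * M + 2 * m * (i + 1) = 318 * m := by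
          zify [hk2, hk3]
          ring
        omega
      · exact div_le_div_of_nonneg_left hX0.le (by positivity) hT20
    calc ∑ p ∈ cellP (10 ^ (2 * m)) i,
          (1 - Real.log p / Real.log (((10 ^ (2 * m)) ^ 154 : ℕ) : ℝ)) *
          (((sift (KK (n - 1) 10) (Npal n) ((10 ^ (2 * m)) ^ 36)).filter
            (fun f => p ∣ Npal n f)).card : ℝ)
        ≤ ∑ p ∈ cellP (10 ^ (2 * m)) i, (w * (X / GS W ((10 ^ (2 * m)) ^ 36)) * (1 / (p : ℝ)) +
          B ^ 2 * ∑ d1 ∈ DD W, ∑ d2 ∈ DD W, rr n (Nat.lcm (Nat.lcm d1 d2) p)) :=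
          Finset.sum_le_sum hterm
      _ = w * (X / GS W ((10 ^ (2 * m)) ^ 36)) * ∑ p ∈ cellP (10 ^ (2 * m)) i, 1 / (p : ℝ) +
          B ^ 2 * ∑ p ∈ cellP (10 ^ (2 * m)) i, ∑ d1 ∈ DD W, ∑ d2 ∈ DD W,
            rr n (Nat.lcm (Nat.lcm d1 d2) p) := by
          rw [Finset.sum_add_distrib, Finset.mul_sum, Finset.mul_sum]
      _ ≤ (X / V * (1 + ε)) * (w / ((i : ℝ) * ((gN M : ℝ) / 10 ^ 6))) +
          X / V * (1 / 10 ^ 30) := by
          apply add_le_add
          · calc w * (X / GS W ((10 ^ (2 * m)) ^ 36)) * ∑ p ∈ cellP (10 ^ (2 * m)) i, 1 / (p : ℝ)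
                ≤ w * (X / (V * ((gN M : ℝ) / 10 ^ 6))) * ((1 + ε) / i) := by
                  apply mul_le_mul _ hcell _ _
                  · apply mul_le_mul_of_nonneg_left _ hw0
                    exact div_le_div_of_nonneg_left hX0.le hGW0 hGS
                  · exact Finset.sum_nonneg fun _ _ => by positivity
                  · positivity
              _ = (X / V * (1 + ε)) * (w / ((i : ℝ) * ((gN M : ℝ) / 10 ^ 6))) := by
                  field_simp
          · calc B ^ 2 * ∑ p ∈ cellP (10 ^ (2 * m)) i, ∑ d1 ∈ DD W,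
                  ∑ d2 ∈ DD W, rr n (Nat.lcm (Nat.lcm d1 d2) p)
                ≤ (10 ^ 12 * (m : ℝ) ^ 4) * (X / (10 ^ 45 * (m : ℝ) ^ 5)) := by
                  apply mul_le_mul hB2 herr _ (by positivity)
                  · exact Finset.sum_nonneg fun _ _ => Finset.sum_nonneg fun _ _ =>
                      Finset.sum_nonneg fun _ _ => rr_nonneg _ _
              _ = X / m * (1 / 10 ^ 33) := by
                  field_simp
              _ ≤ (8 * (X / V)) * (1 / 10 ^ 33) := by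
                  apply mul_le_mul_of_nonneg_right _ (by positivity)
                  rw [← mul_div_assoc, div_le_div_iff₀ (by positivity) hV0]
                  nlinarith [hV.2]
              _ ≤ X / V * (1 / 10 ^ 30) := by
                  have : 0 < X / V := by positivity
                  norm_num
                  linarith
  refine (Finset.sum_le_sum key).trans ?_
  rw [Finset.sum_add_distrib, ← Finset.mul_sum, Finset.sum_const, Nat.card_Icc, nsmul_eq_mul]
  have h1 := nums5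
  have hXV : 0 < X / V := by positivity
  have h2 : (X / V * (1 + ε)) * ∑ i ∈ Icc (36 : ℕ) 153,
      ((1 - (i : ℝ) / 154) / ((i : ℝ) * ((gN (158 - i) : ℝ) / 10 ^ 6))) ≤
      (X / V * (1 + ε)) * (18180 / 10 ^ 6) := by
    apply mul_le_mul_of_nonneg_left h1
    have : 0 ≤ 1 + ε := by rw [hε]; norm_num
    positivity
  have h3 : 1 + ε ≤ 1 + 3 / 10 ^ 6 := by
    rw [hε]
    norm_num
  have h4 : (X / V * (1 + ε)) * (18180 / 10 ^ 6) ≤
      (X / V * (1 + 3 / 10 ^ 6)) * (18180 / 10 ^ 6) := by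
    apply mul_le_mul_of_nonneg_right _ (by norm_num)
    exact mul_le_mul_of_nonneg_left h3 hXV.le
  norm_num at h2 h4 ⊢
  linarith

end Pool.Agent.Helper10.P4
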