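import Pool.Agent.Helper10.P4.Asm4

/-! The final count. -/

namespace Pool.Agent.Helper10.P4

open Finset Pool.Agent.Helper10 Pool.Agent.Helper10.P5 Filter

/-- palindromes of the family with at most four prime factors, all of them large -/
noncomputable def good4 (m n : ℕ) : Finset (Fin (n - 1) → ℕ) :=
  (sift (KK (n - 1) 10) (Npal n) ((10 ^ (2 * m)) ^ 36)).filter
    (fun f => (Npal n f).primeFactorsList.length ≤ 4)

/-- members divisible by a large square -/
noncomputable def bad4 (m n : ℕ) : Finset (Fin (n - 1) → ℕ) := by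
  classical
  exact (KK (n - 1) 10).filter (fun f => ∃ p : ℕ, p.Prime ∧ p.Coprime 10 ∧
        10 ^ (72 * m) < p ∧ p ≤ 10 ^ (308 * m) ∧ p ^ 2 ∣ Npal n f)

lemma sift_prime_gt4 (m n : ℕ) (hm : 1 ≤ m) (hn : 1 ≤ n) (f : Fin (n - 1) → ℕ)
    (hf : f ∈ sift (KK (n - 1) 10) (Npal n) ((10 ^ (2 * m)) ^ 36)) (p : ℕ) (hp : p.Prime)
    (hpN : p ∣ Npal n f) : p.Coprime 10 ∧ (10 ^ (2 * m)) ^ 36 < p := by
  unfold sift at hf
  rw [Finset.mem_filter] at hf
  have hp10 : p.Coprime 10 := Nat.Coprime.coprime_dvd_left hpN (Npal_coprime n hn f)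
  refine ⟨hp10, ?_⟩
  by_contra hcon
  push Not at hcon
  rcases Nat.lt_or_ge p ((10 ^ (2 * m)) ^ 36) with h1 | h1
  · exact hf.2 p ((mem_PP _ _).mpr ⟨h1, hp, hp10⟩) hpN
  · have h2 : p = (10 ^ (2 * m)) ^ 36 := by omega
    rw [h2, ← pow_mul] at hp10
    exact pow10_not_coprime _ (by omega) hp10

set_option maxRecDepth 100000 in
/-- the weight of a sifted member -/
lemma weight4 (m n : ℕ) (hm : 1000 ≤ m) (hn1 : 1 ≤ n) (hn2 : n < 532 * m + 532)
    (f : Fin (n - 1) → ℕ)
    (hf : f ∈ sift (KK (n - 1) 10) (Npal n) ((10 ^ (2 * m)) ^ 36)) (hfb : f ∉ bad4 m n) :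
    ((Npal n f).primeFactorsList.length : ℝ) - 346 / 100 ≤
      ∑ i ∈ Icc 36 153, ∑ p ∈ (cellP (10 ^ (2 * m)) i).filter (fun p => p ∣ Npal n f),
      (1 - Real.log p / Real.log (((10 ^ (2 * m)) ^ 154 : ℕ) : ℝ)) := by
  classical
  have hN0 := Npal_pos n f
  have hfK : f ∈ KK (n - 1) 10 := by
    unfold sift at hf
    exact (Finset.mem_filter.mp hf).1
  have hmR : (1000 : ℝ) ≤ m := by exact_mod_cast hm
  have hl10 := log10_bounds
  have hU1 : 1 ≤ 10 ^ (2 * m) := Nat.one_le_pow _ _ (by norm_num)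
  have hy2 : 2 ≤ (10 ^ (2 * m)) ^ 154 := by
    rw [← pow_mul]
    calc 2 ≤ 10 ^ 1 := by norm_num
      _ ≤ 10 ^ (2 * m * 154) := Nat.pow_le_pow_right (by norm_num) (by omega)
  have hlogy : Real.log (((10 ^ (2 * m)) ^ 154 : ℕ) : ℝ) = 308 * m * Real.log 10 := by
    rw [Nat.cast_pow, Real.log_pow, Nat.cast_pow, Real.log_pow]
    push_cast
    ring
  have hlogy0 : 0 < Real.log (((10 ^ (2 * m)) ^ 154 : ℕ) : ℝ) := by
    rw [hlogy]
    have : 0 < Real.log 10 := by linarith
    positivity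
  have h1 := comb5 (Npal n f) ((10 ^ (2 * m)) ^ 154) (by omega) hy2 (by
    intro p hp hpy hsq
    apply hfb
    unfold bad4
    rw [Finset.mem_filter]
    have h2 := sift_prime_gt4 m n (by omega) hn1 f hf p hp ((dvd_pow_self p (by norm_num)).trans hsq)
    refine ⟨hfK, p, hp, h2.1, ?_, ?_, hsq⟩
    · have h3 := h2.2
      rw [← pow_mul] at h3
      rwa [show 2 * m * 36 = 72 * m by ring] at h3
    · rw [← pow_mul] at hpy
      rwa [show 2 * m * 154 = 308 * m by ring] at hpy)
  have h3 : Real.log (Npal n f) / Real.log (((10 ^ (2 * m)) ^ 154 : ℕ) : ℝ) ≤ 346 / 100 := by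
    rw [div_le_iff₀ hlogy0, hlogy]
    have h4 : Real.log (Npal n f) ≤ (1064 * m + 1064) * Real.log 10 := by
      have h5 : Real.log ((10 : ℝ) ^ (2 * n + 2)) = (2 * n + 2) * Real.log 10 := by
        rw [Real.log_pow]
        push_cast
        ring
      have h6 : Real.log (Npal n f) ≤ Real.log ((10 : ℝ) ^ (2 * n + 2)) := by
        apply Real.log_le_log (by exact_mod_cast hN0)
        exact_mod_cast (Npal_lt n hn1 f hfK).le
      rw [h5] at h6
      refine h6.trans ?_
      apply mul_le_mul_of_nonneg_right _ (by linarith)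
      have : 2 * n + 2 ≤ 1064 * m + 1064 := by omega
      exact_mod_cast this
    refine h4.trans ?_
    have h7 : (1064 * (m : ℝ) + 1064) ≤ 346 / 100 * (308 * m) := by linarith
    calc (1064 * (m : ℝ) + 1064) * Real.log 10 ≤ (346 / 100 * (308 * m)) * Real.log 10 :=
          mul_le_mul_of_nonneg_right h7 (by linarith)
      _ = _ := by ring
  have h8 : ((Npal n f).primeFactorsList.length : ℝ) - 346 / 100 ≤
      ∑ p ∈ (Npal n f).primeFactors.filter (fun p => p ≤ (10 ^ (2 * m)) ^ 154),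
      (1 - Real.log p / Real.log (((10 ^ (2 * m)) ^ 154 : ℕ) : ℝ)) := by linarith
  refine h8.trans ?_
  -- the primes are in the cells
  have hw0 : ∀ p : ℕ, 1 ≤ p → p ≤ (10 ^ (2 * m)) ^ 154 →
      0 ≤ 1 - Real.log p / Real.log (((10 ^ (2 * m)) ^ 154 : ℕ) : ℝ) := by
    intro p hp0 hp
    have : Real.log p / Real.log (((10 ^ (2 * m)) ^ 154 : ℕ) : ℝ) ≤ 1 := by
      rw [div_le_one hlogy0]
      apply Real.log_le_log (by exact_mod_cast hp0)
      exact_mod_cast hp
    linarith
  rw [← Finset.sum_biUnion]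
  · apply Finset.sum_le_sum_of_subset_of_nonneg
    · intro p hp
      rw [Finset.mem_filter] at hp
      have hpp := Nat.prime_of_mem_primeFactors hp.1
      have hpd := Nat.dvd_of_mem_primeFactors hp.1
      have h9 := (sift_prime_gt4 m n (by omega) hn1 f hf p hpp hpd).2
      rw [Finset.mem_biUnion]
      have hex : ∃ i, p ≤ (10 ^ (2 * m)) ^ (i + 1) := ⟨153, hp.2⟩
      obtain ⟨i, hi, hmin⟩ : ∃ i, p ≤ (10 ^ (2 * m)) ^ (i + 1) ∧
          ∀ j < i, ¬ p ≤ (10 ^ (2 * m)) ^ (j + 1) :=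
        ⟨Nat.find hex, Nat.find_spec hex, fun j hj => Nat.find_min hex hj⟩
      have hi40 : 36 ≤ i := by
        by_contra hcon
        push Not at hcon
        have : (10 ^ (2 * m)) ^ (i + 1) ≤ (10 ^ (2 * m)) ^ 36 := Nat.pow_le_pow_right hU1 (by omega)
        omega
      refine ⟨i, ?_, ?_⟩
      · rw [Finset.mem_Icc]
        refine ⟨hi40, ?_⟩
        by_contra hcon
        push Not at hcon
        exact hmin 153 hcon hp.2
      · rw [Finset.mem_filter, mem_cellP]
        have h2 := hmin (i - 1) (by omega)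
        rw [show i - 1 + 1 = i by omega] at h2
        exact ⟨⟨⟨by omega, hi⟩, hpp⟩, hpd⟩
    · intro p hp _
      rw [Finset.mem_biUnion] at hp
      obtain ⟨i, hi, hp⟩ := hp
      rw [Finset.mem_filter, mem_cellP] at hp
      rw [Finset.mem_Icc] at hi
      apply hw0 p hp.1.2.pos
      exact hp.1.1.2.trans (Nat.pow_le_pow_right hU1 (by omega))
  · intro i _ j _ hij
    rw [Function.onFun, Finset.disjoint_left]
    intro p hp hp2
    rw [Finset.mem_filter, mem_cellP] at hp hp2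
    rcases Nat.lt_or_gt_of_ne hij with h | h
    · have : (10 ^ (2 * m)) ^ (i + 1) ≤ (10 ^ (2 * m)) ^ j := Nat.pow_le_pow_right hU1 h
      omega
    · have : (10 ^ (2 * m)) ^ (j + 1) ≤ (10 ^ (2 * m)) ^ i := Nat.pow_le_pow_right hU1 h
      omega

theorem good_count4 (m n : ℕ) (V C : ℝ) (hg : GridOK (1 / 10 ^ 6) m V C) (hm : 1000 ≤ m)
    (hG3 : ∀ j : ℕ, G5 (10 ^ (m * j)) ≤ V * (j / 2 + 1 / 10 ^ 6))
    (hn : 532 * m ≤ n) (hn2 : n < 532 * m + 532)
    (hErr : ∀ Q : ℕ, Q ≤ 10 ^ (318 * m) →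
      errTot (rr n) Q ≤ 10 ^ (n - 1) / ((n - 1 : ℕ) : ℝ) ^ 20) :
    88 / 100000 * (10 ^ (n - 1) / V) ≤ ((good4 m n).card : ℝ) + 3 * ((bad4 m n).card : ℝ) := by
  classical
  have h1 := lowS4 m n V C hg hm hn hErr
  have h2 := upS4 m n V C hg hm hG3 hn hErr
  have hV := V_bounds m V C _ hg
  have hmR : (1000 : ℝ) ≤ m := by exact_mod_cast hm
  have hV0 : 0 < V := by linarith [hV.1]
  set S := sift (KK (n - 1) 10) (Npal n) ((10 ^ (2 * m)) ^ 36) with hS
  have hSK : ∀ f ∈ S, f ∈ KK (n - 1) 10 := by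
    intro f hf
    rw [hS] at hf
    unfold sift at hf
    exact (Finset.mem_filter.mp hf).1
  have hsift : ∀ f ∈ S, ∀ p ∈ PP ((10 ^ (2 * m)) ^ 36), ¬ p ∣ Npal n f := by
    intro f hf
    rw [hS] at hf
    unfold sift at hf
    exact (Finset.mem_filter.mp hf).2
  set wt : (Fin (n - 1) → ℕ) → ℝ := fun f =>
    wt5 ((10 ^ (2 * m)) ^ 61) (ys (10 ^ (2 * m)) 61) (Npal n f) ^ 2 with hwt
  set L2 : ℝ := (V * (1891 + 1 / 1000)) ^ 2 with hL2
  have hL20 : 0 < L2 := by rw [hL2]; positivity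
  set w : (Fin (n - 1) → ℕ) → ℝ := fun f => ∑ i ∈ Icc (36 : ℕ) 153,
    ∑ p ∈ (cellP (10 ^ (2 * m)) i).filter (fun p => p ∣ Npal n f),
      (1 - Real.log p / Real.log (((10 ^ (2 * m)) ^ 154 : ℕ) : ℝ)) with hw
  have e1 : ∑ i ∈ Icc (36 : ℕ) 153, ∑ p ∈ cellP (10 ^ (2 * m)) i,
        (1 - Real.log p / Real.log (((10 ^ (2 * m)) ^ 154 : ℕ) : ℝ)) *
        ((S.filter (fun f => p ∣ Npal n f)).card : ℝ) = ∑ f ∈ S, w f := by
    simp only [hw]
    rw [Finset.sum_comm]
    apply Finset.sum_congr rfl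
    intro i _
    simp only [Finset.sum_filter]
    rw [Finset.sum_comm]
    apply Finset.sum_congr rfl
    intro p _
    rw [← Finset.sum_filter, Finset.sum_const, nsmul_eq_mul, mul_comm]
  rw [e1] at h2
  have hnn : ∀ f ∈ S, 0 ≤ w f := by
    intro f _
    simp only [hw]
    apply Finset.sum_nonneg
    intro i hi
    apply Finset.sum_nonneg
    intro p hp
    rw [Finset.mem_Icc] at hi
    rw [Finset.mem_filter, mem_cellP] at hp
    have hle : p ≤ (10 ^ (2 * m)) ^ 154 := hp.1.1.2.trans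
      (Nat.pow_le_pow_right (Nat.one_le_pow _ _ (by norm_num)) (by omega))
    have h6 : Real.log p ≤ Real.log (((10 ^ (2 * m)) ^ 154 : ℕ) : ℝ) := by
      apply Real.log_le_log (by exact_mod_cast hp.1.2.pos)
      exact_mod_cast hle
    have h7 : 0 < Real.log (p : ℝ) := Real.log_pos (by exact_mod_cast hp.1.2.one_lt)
    have : Real.log p / Real.log (((10 ^ (2 * m)) ^ 154 : ℕ) : ℝ) ≤ 1 := by
      rw [div_le_one (lt_of_lt_of_le h7 h6)]
      exact h6
    linarith
  -- pointwise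
  have hpt : ∀ f ∈ S, wt f ≤ L2 * ((if (Npal n f).primeFactorsList.length ≤ 4 then 1 else 0) +
      w f / (154 / 100) + (if f ∈ bad4 m n then 3 else 0)) := by
    intro f hf
    have h3 := sift_wt4 m n V C hg hm (by omega) hn2 f (hSK f hf) (hsift f hf)
    rw [← hL2] at h3
    have h4 : wt f = wt5 ((10 ^ (2 * m)) ^ 61) (ys (10 ^ (2 * m)) 61) (Npal n f) ^ 2 := rfl
    rw [← h4] at h3
    have h5 := hnn f hf
    have h5' : 0 ≤ w f / (154 / 100) := by positivity
    by_cases hb : f ∈ bad4 m n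
    · rw [if_pos hb]
      have h6 : (0 : ℝ) ≤ if (Npal n f).primeFactorsList.length ≤ 4 then 1 else 0 := by
        split_ifs <;> norm_num
      have h7 : L2 * 3 ≤ L2 * ((if (Npal n f).primeFactorsList.length ≤ 4 then 1 else 0) +
          w f / (154 / 100) + 3) := by
        apply mul_le_mul_of_nonneg_left _ hL20.le
        linarith
      linarith [h3.1]
    · rw [if_neg hb, add_zero]
      by_cases h6 : (Npal n f).primeFactorsList.length ≤ 4
      · rw [if_pos h6]
        have h7 := h3.2 (by omega)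
        have h8 : L2 * 1 ≤ L2 * (1 + w f / (154 / 100)) := by
          apply mul_le_mul_of_nonneg_left _ hL20.le
          linarith
        linarith
      · rw [if_neg h6, zero_add]
        push Not at h6
        have hwf := weight4 m n hm (by omega) hn2 f hf hb
        have hwf2 : ((Npal n f).primeFactorsList.length : ℝ) - 346 / 100 ≤ w f := hwf
        by_cases h11 : (Npal n f).primeFactorsList.length ≤ 11
        · have h7 := h3.2 h11
          have h8 : (5 : ℝ) ≤ ((Npal n f).primeFactorsList.length : ℝ) := by exact_mod_cast h6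
          have h9 : L2 * 1 ≤ L2 * (w f / (154 / 100)) := by
            apply mul_le_mul_of_nonneg_left _ hL20.le
            rw [le_div_iff₀ (by norm_num)]
            linarith
          linarith
        · push Not at h11
          have h8 : (12 : ℝ) ≤ ((Npal n f).primeFactorsList.length : ℝ) := by exact_mod_cast h11
          have h9 : L2 * 3 ≤ L2 * (w f / (154 / 100)) := by
            apply mul_le_mul_of_nonneg_left _ hL20.le
            rw [le_div_iff₀ (by norm_num)]
            linarith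
          linarith [h3.1]
  have hsum : ∑ f ∈ S, wt f ≤ L2 * (((good4 m n).card : ℝ) + (∑ f ∈ S, w f) / (154 / 100) +
      3 * ((bad4 m n).card : ℝ)) := by
    refine (Finset.sum_le_sum hpt).trans ?_
    rw [← Finset.mul_sum]
    apply mul_le_mul_of_nonneg_left _ hL20.le
    rw [Finset.sum_add_distrib, Finset.sum_add_distrib, ← Finset.sum_div]
    have h3 : ∑ f ∈ S, (if (Npal n f).primeFactorsList.length ≤ 4 then (1 : ℝ) else 0) =
        ((good4 m n).card : ℝ) := by
      rw [← Finset.sum_filter, Finset.sum_const, nsmul_eq_mul, mul_one]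
      rfl
    have h4 : ∑ f ∈ S, (if f ∈ bad4 m n then (3 : ℝ) else 0) ≤ 3 * ((bad4 m n).card : ℝ) := by
      rw [← Finset.sum_filter, Finset.sum_const, nsmul_eq_mul, mul_comm]
      apply mul_le_mul_of_nonneg_left _ (by norm_num)
      have : (S.filter (fun f => f ∈ bad4 m n)).card ≤ (bad4 m n).card := by
        apply Finset.card_le_card
        intro f hf
        exact (Finset.mem_filter.mp hf).2
      exact_mod_cast this
    rw [h3]
    linarith
  set X : ℝ := 10 ^ (n - 1) with hX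
  have hX0 : 0 < X := by rw [hX]; positivity
  have hXV : 0 < X / V := by positivity
  have h3 : X * (45411 * V) ≤ L2 * (((good4 m n).card : ℝ) + (1819 / 100000 * (X / V)) / (154 / 100) +
      3 * ((bad4 m n).card : ℝ)) := by
    refine h1.trans (hsum.trans ?_)
    apply mul_le_mul_of_nonneg_left _ hL20.le
    have : (∑ f ∈ S, w f) / (154 / 100) ≤ (1819 / 100000 * (X / V)) / (154 / 100) :=
      div_le_div_of_nonneg_right h2 (by norm_num)
    linarith
  have h4 : X * (45411 * V) = L2 * ((X / V) * (45411 / (1891 + 1 / 1000) ^ 2)) := by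
    rw [hL2]
    field_simp
  rw [h4] at h3
  have h5 := le_of_mul_le_mul_left h3 hL20
  have h6 : (X / V) * (1269 / 100000) ≤ (X / V) * (45411 / (1891 + 1 / 1000) ^ 2) := by
    apply mul_le_mul_of_nonneg_left _ hXV.le
    norm_num
  have h7 : (1819 / 100000 * (X / V)) / (154 / 100) ≤ (X / V) * (11812 / 1000000) := by
    have : (1819 / 100000 * (X / V)) / (154 / 100) = (X / V) * (1819 / 100000 / (154 / 100)) := by
      ring
    rw [this]
    apply mul_le_mul_of_nonneg_left _ hXV.le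
    norm_num
  have h8 : (X / V) * (12692 / 1000000) ≤ (X / V) * (45411 / (1891 + 1 / 1000) ^ 2) := by
    apply mul_le_mul_of_nonneg_left _ hXV.le
    norm_num
  linarith

/-- **Palindromes with at most four prime factors**, counting form on digit vectors. -/
theorem main4 : ∃ n0 : ℕ, ∀ n : ℕ, n0 ≤ n → ∃ m : ℕ, 1000 ≤ m ∧ 532 * m ≤ n ∧
    n < 532 * m + 532 ∧ 1 / 200 * ((10 : ℝ) ^ n / n) ≤ ((good4 m n).card : ℝ) := by
  classical
  obtain ⟨C, m1, hgrid⟩ := grid_ok4 (1 / 10 ^ 6) (by norm_num)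
  obtain ⟨T0, herr⟩ := err4 318 (by norm_num) 20
  obtain ⟨C', θ, hC', hθ0, hθ1, hsq⟩ := sq4 308 (by norm_num)
  have hlim : Tendsto (fun u : ℕ => (u : ℝ) ^ 1 * θ ^ u) atTop (nhds 0) :=
    tendsto_pow_const_mul_const_pow_of_abs_lt_one _ (by rw [abs_of_pos hθ0]; exact hθ1)
  have hev := hlim.eventually (gt_mem_nhds (show (0 : ℝ) < 1 / (10 ^ 6 * C') by positivity))
  obtain ⟨u0, hu0⟩ := Filter.eventually_atTop.mp hev
  refine ⟨532 * (m1 + T0 + u0 + 1000) + 532, ?_⟩
  intro n hn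
  obtain ⟨m, hm⟩ : ∃ m, m = n / 532 := ⟨_, rfl⟩
  have hmn : 532 * m ≤ n := by omega
  have hmn2 : n < 532 * m + 532 := by omega
  have hmb : m1 + T0 + u0 + 1000 ≤ m := by omega
  refine ⟨m, by omega, hmn, hmn2, ?_⟩
  obtain ⟨V, hg, hG3⟩ := hgrid m (by omega)
  have hκ : ∀ q : ℕ, q.Coprime 10 → q.Coprime 10 := fun q h => h
  have h318 : 318 * m / 318 = m := by omega
  have h308 : 308 * m / 308 = m := by omega
  have hErr : ∀ Q : ℕ, Q ≤ 10 ^ (318 * m) →
      errTot (rr n) Q ≤ 10 ^ (n - 1) / ((n - 1 : ℕ) : ℝ) ^ 20 := by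
    intro Q hQ
    rw [errTot_rr]
    exact herr (n - 1) (by omega) 10 (10 ^ (2 * n) + 1) Q (318 * m) hκ hQ (by omega)
  have h1 := good_count4 m n V C hg (by omega) hG3 hmn hmn2 hErr
  have h2 : ((bad4 m n).card : ℝ) ≤ 10 ^ (n - 1) * (C' * θ ^ (72 * m)) := by
    apply hsq 10 (n - 1) (10 ^ (2 * n) + 1) (72 * m) (308 * m) hκ (by omega)
    · unfold bad4
      exact Finset.filter_subset _ _
    · intro f hf
      unfold bad4 at hf
      rw [Finset.mem_filter] at hf
      exact hf.2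
  have hV := V_bounds m V C _ hg
  have hmR : (1000 : ℝ) ≤ m := by exact_mod_cast (by omega : 1000 ≤ m)
  have hV0 : 0 < V := by linarith [hV.1]
  have h3 := hu0 (72 * m) (by omega)
  rw [pow_one] at h3
  push_cast at h3
  have h4 : C' * θ ^ (72 * m) ≤ 1 / (10 ^ 6 * V) := by
    have h5 : (72 * (m : ℝ)) * (θ ^ (72 * m) * (10 ^ 6 * C')) < 1 := by
      rw [lt_div_iff₀ (by positivity)] at h3
      linarith
    rw [le_div_iff₀ (by positivity)]
    have h6 : 0 < θ ^ (72 * m) * (10 ^ 6 * C') := by positivity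
    calc C' * θ ^ (72 * m) * (10 ^ 6 * V) = V * (θ ^ (72 * m) * (10 ^ 6 * C')) := by ring
      _ ≤ (72 * m) * (θ ^ (72 * m) * (10 ^ 6 * C')) := by
          apply mul_le_mul_of_nonneg_right _ h6.le
          linarith [hV.2]
      _ ≤ 1 := h5.le
  set X : ℝ := 10 ^ (n - 1) with hX
  have hX0 : 0 < X := by rw [hX]; positivity
  have h5 : ((bad4 m n).card : ℝ) ≤ 1 / 10 ^ 6 * (X / V) := by
    refine h2.trans ?_
    calc X * (C' * θ ^ (72 * m)) ≤ X * (1 / (10 ^ 6 * V)) := mul_le_mul_of_nonneg_left h4 hX0.le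
      _ = 1 / 10 ^ 6 * (X / V) := by field_simp
  have h6 : 87 / 100000 * (X / V) ≤ ((good4 m n).card : ℝ) := by
    have : 0 < X / V := by positivity
    norm_num at h1 h5 ⊢
    linarith
  refine le_trans ?_ h6
  have hnR : (0 : ℝ) < n := by exact_mod_cast (by omega : 0 < n)
  have h7 : (10 : ℝ) ^ n = 10 * X := by
    rw [hX, ← pow_succ']
    congr 1
    omega
  rw [h7]
  have h8 : V ≤ n / 66 := by
    have : (532 * (m : ℝ)) ≤ n := by exact_mod_cast hmn
    linarith [hV.2]
  have h9 : X * 66 / n ≤ X / V := by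
    rw [div_le_div_iff₀ hnR hV0]
    nlinarith
  calc 1 / 200 * (10 * X / n) ≤ 87 / 100000 * (X * 66 / n) := by
        have : 0 < X / n := by positivity
        have e1 : 10 * X / n = 10 * (X / n) := by ring
        have e2 : X * 66 / n = 66 * (X / n) := by ring
        rw [e1, e2]
        linarith
    _ ≤ _ := mul_le_mul_of_nonneg_left h9 (by norm_num)

end Pool.Agent.Helper10.P4
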