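import Pool.Agent.Helper10.P4.Low4

/-! Main terms on the grid for the sieve at level `3/10`. -/

namespace Pool.Agent.Helper10.P4

open Finset Pool.Agent.Helper10 Pool.Agent.Helper10.P5

lemma V_lower (m : ℕ) (V C ε : ℝ) (hg : GridOK ε m V C) : 4 / 5 * (m : ℝ) ≤ V := by
  have h := hg.hV
  have h1 : Real.log ((10 ^ (2 * m) : ℕ) : ℝ) = 2 * m * Real.log 10 := by
    push_cast
    rw [Real.log_pow]
    push_cast
    ring
  rw [h1] at h
  have h2 : 1 ≤ Real.log 10 := by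
    rw [Real.le_log_iff_exp_le (by norm_num)]
    have := Real.exp_one_lt_d9
    linarith
  have hm : (0 : ℝ) ≤ m := Nat.cast_nonneg m
  nlinarith

theorem grid_ok4 (ε : ℝ) (hε : 0 < ε) : ∃ C : ℝ, ∃ m0 : ℕ, ∀ m : ℕ, m0 ≤ m →
    ∃ V : ℝ, GridOK ε m V C ∧ ∀ j : ℕ, G5 (10 ^ (m * j)) ≤ V * (j / 2 + ε) := by
  obtain ⟨C, m0, h⟩ := grid_ok ε hε
  obtain ⟨m1, hm1⟩ := exists_nat_gt (2 * C / ε)
  refine ⟨C, max m0 m1, ?_⟩
  intro m hm
  obtain ⟨V, hg⟩ := h m ((le_max_left _ _).trans hm)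
  refine ⟨V, hg, ?_⟩
  intro j
  have hV := V_lower m V C ε hg
  have h1 : (m1 : ℝ) ≤ m := by exact_mod_cast (le_max_right _ _).trans hm
  have h2 : C ≤ ε * V := by
    rw [div_lt_iff₀ hε] at hm1
    nlinarith
  have h3 := (hg.asymp (10 ^ (m * j)) (Nat.one_le_pow _ _ (by norm_num))).2
  have h4 : 2 / 5 * Real.log ((10 ^ (m * j) : ℕ) : ℝ) = V * (j / 2) := by
    rw [hg.hV]
    push_cast
    rw [Real.log_pow, Real.log_pow]
    push_cast
    ring
  rw [h4] at h3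
  linarith

/-- the square-sum at the lower sieve -/
lemma low_main4 (m : ℕ) (V C : ℝ) (hg : GridOK (1 / 10 ^ 6) m V C)
    (hnum : ∀ i ∈ Icc 1 35, (Acell 61 i : ℝ) / i ≤ ((Acell 61 i / i + 1 : ℕ) : ℝ))
    (hnum2 : ∑ i ∈ Icc 1 35, (Acell 61 i / i + 1) = 32057)
    (hnum3 : ∑ i ∈ Icc 1 61, ∑ j ∈ Icc 1 61, min i j = 77531) :
    45412 * V ≤ ∑ k ∈ DD ((10 ^ (2 * m)) ^ 61), ys (10 ^ (2 * m)) 61 k ^ 2 / (Nat.totient k : ℝ) -
      ∑ p ∈ PP ((10 ^ (2 * m)) ^ 36), (1 / (p : ℝ)) * ∑ k ∈ DD ((10 ^ (2 * m)) ^ 61),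
        (ys (10 ^ (2 * m)) 61 k - ys (10 ^ (2 * m)) 61 (k * p)) ^ 2 / (Nat.totient k : ℝ) := by
  classical
  set U := 10 ^ (2 * m) with hU
  have hU1 : 1 ≤ U := Nat.one_le_pow _ _ (by norm_num)
  set ε : ℝ := 1 / 10 ^ 6 with hε
  have hε0 : 0 < ε := by rw [hε]; norm_num
  have hV0 : 0 < V := by
    have := hg.pos
    by_contra hcon
    push Not at hcon
    nlinarith
  -- first term
  have hQ0 : V * (77531 - 61 ^ 2 * ε) ≤
      ∑ k ∈ DD (U ^ 61), ys U 61 k ^ 2 / (Nat.totient k : ℝ) := by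
    rw [ys_Q0 U 61 hU1]
    have h1 : ∀ i ∈ Icc 1 61, ∀ j ∈ Icc 1 61, V * ((min i j : ℕ) : ℝ) - ε * V ≤ G5 (U ^ (min i j)) := by
      intro i _ j _
      have := (abs_le.mp (hg.G (min i j))).1
      linarith
    calc V * (77531 - 61 ^ 2 * ε) = ∑ i ∈ Icc 1 61, ∑ j ∈ Icc 1 61, (V * ((min i j : ℕ) : ℝ) - ε * V) := by
          simp only [Finset.sum_sub_distrib, ← Finset.mul_sum, Finset.sum_const, Nat.card_Icc,
            nsmul_eq_mul]
          have : (∑ i ∈ Icc 1 61, ∑ j ∈ Icc 1 61, ((min i j : ℕ) : ℝ)) = 77531 := by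
            rw [← Nat.cast_ofNat (n := 77531), ← hnum3]
            push_cast
            rfl
          rw [this]
          norm_num
          ring
      _ ≤ _ := Finset.sum_le_sum fun i hi => Finset.sum_le_sum fun j hj => h1 i hi j hj
  -- the primes
  set Qs : ℕ → ℝ := fun p => ∑ k ∈ DD (U ^ 61),
    (ys U 61 k - ys U 61 (k * p)) ^ 2 / (Nat.totient k : ℝ) with hQs
  have hQs0 : ∀ p, 0 ≤ Qs p := fun p => Finset.sum_nonneg fun _ _ =>
    div_nonneg (sq_nonneg _) (Nat.cast_nonneg _)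
  have hinv : ∀ p : ℕ, 0 ≤ 1 / (p : ℝ) := fun p => one_div_nonneg.mpr (Nat.cast_nonneg p)
  have hcov : PP (U ^ 36) ⊆ PL U ∪ (Icc 1 35).biUnion (fun i => cellP U i) := by
    intro p hp
    rw [mem_PP] at hp
    rw [Finset.mem_union, Finset.mem_biUnion]
    rcases Nat.lt_or_ge U p with h | h
    · right
      have hex : ∃ i, p ≤ U ^ (i + 1) := ⟨35, hp.1.le⟩
      obtain ⟨i, hi, hmin⟩ : ∃ i, p ≤ U ^ (i + 1) ∧ ∀ j < i, ¬ p ≤ U ^ (j + 1) :=
        ⟨Nat.find hex, Nat.find_spec hex, fun j hj => Nat.find_min hex hj⟩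
      have hi0 : i ≠ 0 := by
        rintro rfl
        rw [zero_add, pow_one] at hi
        omega
      refine ⟨i, ?_, ?_⟩
      · rw [Finset.mem_Icc]
        refine ⟨by omega, ?_⟩
        by_contra hcon
        push Not at hcon
        exact hmin 35 hcon hp.1.le
      · rw [mem_cellP]
        have h2 := hmin (i - 1) (by omega)
        rw [show i - 1 + 1 = i by omega] at h2
        exact ⟨⟨by omega, hi⟩, hp.2.1⟩
    · left
      rw [mem_PL]
      exact ⟨h, hp.2.1⟩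
  have hsum : ∑ p ∈ PP (U ^ 36), (1 / (p : ℝ)) * Qs p ≤
      ∑ p ∈ PL U, (1 / (p : ℝ)) * Qs p + ∑ i ∈ Icc 1 35, ∑ p ∈ cellP U i, (1 / (p : ℝ)) * Qs p := by
    have hn : ∀ p : ℕ, 0 ≤ (1 / (p : ℝ)) * Qs p := fun p => mul_nonneg (hinv p) (hQs0 p)
    calc ∑ p ∈ PP (U ^ 36), (1 / (p : ℝ)) * Qs p
        ≤ ∑ p ∈ PL U ∪ (Icc 1 35).biUnion (fun i => cellP U i), (1 / (p : ℝ)) * Qs p :=
          Finset.sum_le_sum_of_subset_of_nonneg hcov (fun p _ _ => hn p)
      _ ≤ ∑ p ∈ PL U, (1 / (p : ℝ)) * Qs p +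
          ∑ p ∈ (Icc 1 35).biUnion (fun i => cellP U i), (1 / (p : ℝ)) * Qs p := by
          rw [← Finset.sum_union_inter]
          have : 0 ≤ ∑ p ∈ PL U ∩ (Icc 1 35).biUnion (fun i => cellP U i), (1 / (p : ℝ)) * Qs p :=
            Finset.sum_nonneg fun p _ => hn p
          linarith
      _ ≤ _ := by
          have : ∑ p ∈ (Icc 1 35).biUnion (fun i => cellP U i), (1 / (p : ℝ)) * Qs p ≤
              ∑ i ∈ Icc 1 35, ∑ p ∈ cellP U i, (1 / (p : ℝ)) * Qs p := by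
            rw [Finset.sum_biUnion]
            intro i _ j _ hij
            rw [Function.onFun, Finset.disjoint_left]
            intro p hp hp2
            rw [mem_cellP] at hp hp2
            rcases Nat.lt_or_gt_of_ne hij with h | h
            · have : U ^ (i + 1) ≤ U ^ j := Nat.pow_le_pow_right hU1 h
              omega
            · have : U ^ (j + 1) ≤ U ^ i := Nat.pow_le_pow_right hU1 h
              omega
          linarith
  have hfirst : ∑ p ∈ PL U, (1 / (p : ℝ)) * Qs p ≤ 61 * ((1 + ε) * V) := by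
    calc ∑ p ∈ PL U, (1 / (p : ℝ)) * Qs p
        ≤ ∑ p ∈ PL U, 61 * ((1 / (p : ℝ)) * (2 / 5 * Real.log p +
          (2 / 5 * Real.log 2 + 2 * C))) := by
          apply Finset.sum_le_sum
          intro p hp
          rw [mem_PL] at hp
          have h1 := Qfirst U 61 p C hU1 hp.2.pos hp.1 hg.asymp
          calc (1 / (p : ℝ)) * Qs p ≤ (1 / (p : ℝ)) * ((61 : ℕ) * (2 / 5 * Real.log p +
                (2 / 5 * Real.log 2 + 2 * C))) := mul_le_mul_of_nonneg_left h1 (hinv p)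
            _ = _ := by push_cast; ring
      _ ≤ 61 * ((1 + ε) * V) := by
          rw [← Finset.mul_sum]
          exact mul_le_mul_of_nonneg_left hg.first (by norm_num)
  have hcells : ∑ i ∈ Icc 1 35, ∑ p ∈ cellP U i, (1 / (p : ℝ)) * Qs p ≤
      V * ((1 + ε) * (32057 + 35 * (3 * ε * 61 ^ 2))) := by
    have h1 : ∀ i ∈ Icc 1 35, ∑ p ∈ cellP U i, (1 / (p : ℝ)) * Qs p ≤
        V * ((1 + ε) * (((Acell 61 i / i + 1 : ℕ) : ℝ) + 3 * ε * 61 ^ 2)) := by
      intro i hi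
      have hi' := Finset.mem_Icc.mp hi
      have hiR : (1 : ℝ) ≤ i := by exact_mod_cast hi'.1
      calc ∑ p ∈ cellP U i, (1 / (p : ℝ)) * Qs p
          ≤ ∑ p ∈ cellP U i, (1 / (p : ℝ)) * (V * ((Acell 61 i : ℝ) + 3 * ε * 61 ^ 2)) := by
            apply Finset.sum_le_sum
            intro p hp
            rw [mem_cellP] at hp
            apply mul_le_mul_of_nonneg_left _ (hinv p)
            have := Qcell U 61 i p V ε hU1 hp.2.pos hp.1.2 hV0.le hg.pos (fun j _ => hg.G j)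
            exact_mod_cast this
        _ = (∑ p ∈ cellP U i, 1 / (p : ℝ)) * (V * ((Acell 61 i : ℝ) + 3 * ε * 61 ^ 2)) := by
            rw [Finset.sum_mul]
        _ ≤ ((1 + ε) / i) * (V * ((Acell 61 i : ℝ) + 3 * ε * 61 ^ 2)) := by
            apply mul_le_mul_of_nonneg_right (hg.cell i hi'.1)
            apply mul_nonneg hV0.le
            apply add_nonneg (Nat.cast_nonneg _)
            apply mul_nonneg _ (sq_nonneg _)
            apply mul_nonneg (by norm_num) hε0.le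
        _ = V * ((1 + ε) * ((Acell 61 i : ℝ) / i + 3 * ε * 61 ^ 2 / i)) := by
            field_simp
        _ ≤ V * ((1 + ε) * (((Acell 61 i / i + 1 : ℕ) : ℝ) + 3 * ε * 61 ^ 2)) := by
            apply mul_le_mul_of_nonneg_left _ hV0.le
            apply mul_le_mul_of_nonneg_left _ (by linarith)
            apply add_le_add (hnum i hi)
            apply div_le_self _ hiR
            apply mul_nonneg _ (sq_nonneg _)
            apply mul_nonneg (by norm_num) hε0.le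
    calc ∑ i ∈ Icc 1 35, ∑ p ∈ cellP U i, (1 / (p : ℝ)) * Qs p
        ≤ ∑ i ∈ Icc 1 35, V * ((1 + ε) * (((Acell 61 i / i + 1 : ℕ) : ℝ) + 3 * ε * 61 ^ 2)) :=
          Finset.sum_le_sum h1
      _ = V * ((1 + ε) * (32057 + 35 * (3 * ε * 61 ^ 2))) := by
          rw [← Finset.mul_sum, ← Finset.mul_sum, Finset.sum_add_distrib, Finset.sum_const,
            Nat.card_Icc, ← Nat.cast_sum, hnum2, nsmul_eq_mul]
          norm_num
  have hfin : 45412 ≤ 77531 - 61 ^ 2 * ε - 61 * (1 + ε) - (1 + ε) * (32057 + 35 * (3 * ε * 61 ^ 2)) := by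
    rw [hε]
    norm_num
  have := mul_le_mul_of_nonneg_left hfin hV0.le
  simp only [hQs] at hsum hfirst hcells
  linarith



end Pool.Agent.Helper10.P4
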