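import Pool.Agent.Helper10.P5.Grid

/-! Sieve inequalities: lower bound with the squares kept, upper bound with smooth weights. -/

namespace Pool.Agent.Helper10.P4

open Finset Pool.Agent.Helper10 Pool.Agent.Helper10.P5

variable {ι : Type*}

/-- **Lower bound sieve** with a general profile, squares kept. -/
theorem low4 (E : Finset ι) (N : ι → ℕ) (X : ℝ) (hX : 0 ≤ X) (r : ℕ → ℝ)
    (hr0 : ∀ q, 0 ≤ r q)
    (hr : ∀ q : ℕ, 0 < q → q.Coprime 10 →
      |((E.filter (fun e => q ∣ N e)).card : ℝ) - X / q| ≤ r q)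
    (Y z : ℕ) (hz : 1 ≤ z) (y : ℕ → ℝ) (hy : ∀ k, Y < k → y k = 0) (B : ℝ)
    (hB : ∀ d ∈ DD Y, |lm Y y d| ≤ B) :
    X * (∑ k ∈ DD Y, y k ^ 2 / (Nat.totient k : ℝ) - ∑ p ∈ PP z, (1 / (p : ℝ)) *
      ∑ k ∈ DD Y, (y k - y (k * p)) ^ 2 / (Nat.totient k : ℝ)) - B ^ 2 * errTot r (Y * Y * z) ≤
      ∑ e ∈ sift E N z, wt5 Y y (N e) ^ 2 := by
  classical
  set S : ℕ → ℝ := fun m => ∑ e ∈ E.filter (fun e => m ∣ N e), wt5 Y y (N e) ^ 2 with hS
  set Qf : ℕ → ℝ := fun m => ∑ d1 ∈ DD Y, ∑ d2 ∈ DD Y, lm Y y d1 * lm Y y d2 /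
        ((Nat.lcm (Nat.lcm d1 d2) m : ℕ) : ℝ) with hQf
  set Rf : ℕ → ℝ := fun m => ∑ d1 ∈ DD Y, ∑ d2 ∈ DD Y, r (Nat.lcm (Nat.lcm d1 d2) m) with hRf
  -- comparison
  have h1 : S 1 - ∑ p ∈ PP z, S p ≤ ∑ e ∈ sift E N z, wt5 Y y (N e) ^ 2 := by
    have e1 : ∑ p ∈ PP z, S p = ∑ e ∈ E, ∑ p ∈ (PP z).filter (fun p => p ∣ N e),
        wt5 Y y (N e) ^ 2 := by
      simp only [hS]
      simp only [Finset.sum_filter]
      rw [Finset.sum_comm]
    have e2 : S 1 = ∑ e ∈ E, wt5 Y y (N e) ^ 2 := by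
      simp only [hS]
      congr 1
      apply Finset.filter_true_of_mem
      intro _ _
      exact one_dvd _
    rw [e1, e2, ← Finset.sum_sub_distrib]
    unfold sift
    rw [Finset.sum_filter]
    apply Finset.sum_le_sum
    intro e he
    by_cases hs : ∀ p ∈ PP z, ¬ p ∣ N e
    · rw [if_pos hs]
      have h3 : 0 ≤ ∑ p ∈ (PP z).filter (fun p => p ∣ N e), wt5 Y y (N e) ^ 2 :=
        Finset.sum_nonneg fun _ _ => sq_nonneg _
      linarith
    · rw [if_neg hs]
      push Not at hs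
      obtain ⟨p, hp1, hp2⟩ := hs
      have : wt5 Y y (N e) ^ 2 ≤ ∑ p ∈ (PP z).filter (fun p => p ∣ N e), wt5 Y y (N e) ^ 2 :=
        Finset.single_le_sum (f := fun _ => wt5 Y y (N e) ^ 2) (fun _ _ => sq_nonneg _)
          (Finset.mem_filter.mpr ⟨hp1, hp2⟩)
      linarith
  have h2 : X * Qf 1 - B ^ 2 * Rf 1 ≤ S 1 := by
    have := sum_wt5_approx E N X r hr Y 1 y B hB (by norm_num) (Nat.coprime_one_left 10)
    have := (abs_le.mp this).1
    simp only [hS, hQf, hRf]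
    linarith
  have h3 : ∀ p ∈ PP z, S p ≤ X * ((1 / (p : ℝ)) *
      ∑ k ∈ DD Y, (y k - y (k * p)) ^ 2 / (Nat.totient k : ℝ)) + B ^ 2 * Rf p := by
    intro p hp
    rw [mem_PP] at hp
    have := sum_wt5_approx E N X r hr Y p y B hB hp.2.1.pos hp.2.2
    have := (abs_le.mp this).2
    have h4 := mul_le_mul_of_nonneg_left (Qp_lm Y p y hy hp.2.1 hp.2.2) hX
    simp only [hS, hRf]
    linarith
  have h4 : ∑ p ∈ PP z, S p ≤ X * ∑ p ∈ PP z, (1 / (p : ℝ)) *
      ∑ k ∈ DD Y, (y k - y (k * p)) ^ 2 / (Nat.totient k : ℝ) + B ^ 2 * ∑ p ∈ PP z, Rf p := by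
    rw [Finset.mul_sum, Finset.mul_sum, ← Finset.sum_add_distrib]
    exact Finset.sum_le_sum h3
  have h5 : Rf 1 + ∑ p ∈ PP z, Rf p ≤ errTot r (Y * Y * z) := by
    have hnot : 1 ∉ PP z := by
      rw [mem_PP]
      rintro ⟨_, h, _⟩
      exact Nat.not_prime_one h
    rw [← Finset.sum_insert hnot]
    apply err_regroup r hr0 Y z
    intro m hm
    rw [Finset.mem_insert] at hm
    rcases hm with rfl | hm
    · exact ⟨le_refl _, hz, Nat.coprime_one_left 10⟩
    · rw [mem_PP] at hm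
      exact ⟨hm.2.1.pos, hm.1.le, hm.2.2⟩
  have e0 : Qf 1 = ∑ k ∈ DD Y, y k ^ 2 / (Nat.totient k : ℝ) := by
    rw [← Q0_lm Y y]
    simp only [hQf]
    apply Finset.sum_congr rfl
    intro d1 _
    apply Finset.sum_congr rfl
    intro d2 _
    rw [Nat.lcm_one_right]
  rw [e0] at h2
  have h6 := mul_le_mul_of_nonneg_left h5 (sq_nonneg B)
  have h7 : X * (∑ k ∈ DD Y, y k ^ 2 / (Nat.totient k : ℝ) - ∑ p ∈ PP z, (1 / (p : ℝ)) *
      ∑ k ∈ DD Y, (y k - y (k * p)) ^ 2 / (Nat.totient k : ℝ)) =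
      X * ∑ k ∈ DD Y, y k ^ 2 / (Nat.totient k : ℝ) - X * ∑ p ∈ PP z, (1 / (p : ℝ)) *
      ∑ k ∈ DD Y, (y k - y (k * p)) ^ 2 / (Nat.totient k : ℝ) := by ring
  rw [h7]
  linarith

/-- `k` has only prime factors below `z` -/
def Smo (z k : ℕ) : Prop := ∀ p : ℕ, p.Prime → p ∣ k → p < z

open Classical in
/-- smooth divisors -/
noncomputable def DS (W z : ℕ) : Finset ℕ := (DD W).filter (fun k => Smo z k)

/-- sum over the smooth divisors -/
noncomputable def GS (W z : ℕ) : ℝ := ∑ k ∈ DS W z, 1 / (Nat.totient k : ℝ)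

lemma mem_DS (W z k : ℕ) : k ∈ DS W z ↔ k ∈ DD W ∧ Smo z k := by
  classical
  unfold DS
  rw [Finset.mem_filter]

lemma smo_one (z : ℕ) : Smo z 1 := by
  intro p hp hd
  exact absurd (Nat.dvd_one.mp hd) hp.one_lt.ne'

lemma GS_ge_one (W z : ℕ) (hW : 1 ≤ W) : 1 ≤ GS W z := by
  unfold GS
  have h1 : 1 ∈ DS W z := (mem_DS _ _ _).mpr ⟨one_mem_DD W hW, smo_one z⟩
  have := Finset.single_le_sum (f := fun d : ℕ => 1 / (Nat.totient d : ℝ))
    (fun i _ => by positivity) h1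
  simpa using this

open Classical in
/-- the smooth profile -/
noncomputable def yS (W z k : ℕ) : ℝ := if k ≤ W ∧ Smo z k then 1 / GS W z else 0

lemma yS_nonneg (W z k : ℕ) : 0 ≤ yS W z k := by
  unfold yS
  split_ifs
  · unfold GS
    positivity
  · exact le_refl 0

lemma yS_le (W z k : ℕ) (hW : 1 ≤ W) : yS W z k ≤ 1 := by
  unfold yS
  split_ifs
  · have := GS_ge_one W z hW
    rw [div_le_one (by linarith)]
    exact this
  · norm_num

lemma yS_sum (W z : ℕ) (g : ℝ → ℝ) (hg : g 0 = 0) :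
    ∑ k ∈ DD W, g (yS W z k) / (Nat.totient k : ℝ) =
      g (1 / GS W z) * ∑ k ∈ DS W z, 1 / (Nat.totient k : ℝ) := by
  classical
  unfold DS
  rw [Finset.mul_sum, Finset.sum_filter]
  apply Finset.sum_congr rfl
  intro k hk
  have hk' := (mem_DD W k).mp hk
  unfold yS
  by_cases h : Smo z k
  · rw [if_pos ⟨hk'.1.2, h⟩, if_pos h]
    ring
  · rw [if_neg (fun h2 => h h2.2), if_neg h, hg]
    simp

lemma yS_lm_one (W z : ℕ) (hW : 1 ≤ W) : lm W (yS W z) 1 = 1 := by
  have hG : 0 < GS W z := lt_of_lt_of_le one_pos (GS_ge_one W z hW)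
  rw [lm_one]
  have h := yS_sum W z (fun x => x) rfl
  rw [h]
  unfold GS at hG ⊢
  rw [one_div, inv_mul_cancel₀ hG.ne']

lemma yS_Q0 (W z : ℕ) (hW : 1 ≤ W) : ∑ k ∈ DD W, yS W z k ^ 2 / (Nat.totient k : ℝ) = 1 / GS W z := by
  have hG : 0 < GS W z := lt_of_lt_of_le one_pos (GS_ge_one W z hW)
  have h := yS_sum W z (fun x => x ^ 2) (by norm_num)
  rw [h]
  unfold GS at hG ⊢
  field_simp

lemma yS_lm_zero (W z d : ℕ) (h : ¬ Smo z d) : lm W (yS W z) d = 0 := by
  unfold lm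
  have : ∑ k ∈ (DD W).filter (fun k => d ∣ k), yS W z k / (Nat.totient k : ℝ) = 0 := by
    apply Finset.sum_eq_zero
    intro k hk
    rw [Finset.mem_filter] at hk
    have : yS W z k = 0 := by
      unfold yS
      rw [if_neg]
      rintro ⟨_, h2⟩
      apply h
      intro p hp hpd
      exact h2 p hp (hpd.trans hk.2)
    rw [this, zero_div]
  rw [this, mul_zero]

/-- **Upper bound sieve** for the multiples of a prime, smooth weights. -/
theorem up4 (E : Finset ι) (N : ι → ℕ) (X : ℝ) (hX : 0 ≤ X) (r : ℕ → ℝ)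
    (hr : ∀ q : ℕ, 0 < q → q.Coprime 10 →
      |((E.filter (fun e => q ∣ N e)).card : ℝ) - X / q| ≤ r q)
    (W z p : ℕ) (hW : 1 ≤ W) (hp : p.Prime) (hp10 : p.Coprime 10) (hpz : z ≤ p) (B : ℝ)
    (hB : ∀ d ∈ DD W, |lm W (yS W z) d| ≤ B)
    (E' : Finset ι) (hE' : E' ⊆ E)
    (h : ∀ e ∈ E', p ∣ N e ∧ ∀ q ∈ PP z, ¬ q ∣ N e) :
    (E'.card : ℝ) ≤ X / (p * GS W z) + B ^ 2 *
      ∑ d1 ∈ DD W, ∑ d2 ∈ DD W, r (Nat.lcm (Nat.lcm d1 d2) p) := by
  classical
  have hG : 0 < GS W z := lt_of_lt_of_le one_pos (GS_ge_one W z hW)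
  have hp0 : (0 : ℝ) < p := by exact_mod_cast hp.pos
  have h1 : (E'.card : ℝ) ≤ ∑ e ∈ E.filter (fun e => p ∣ N e), wt5 W (yS W z) (N e) ^ 2 := by
    have e1 : (E'.card : ℝ) = ∑ e ∈ E', wt5 W (yS W z) (N e) ^ 2 := by
      have e2 : ∀ e ∈ E', wt5 W (yS W z) (N e) ^ 2 = 1 := by
        intro e he
        have h2 : wt5 W (yS W z) (N e) = 1 := by
          unfold wt5
          rw [← yS_lm_one W z hW]
          apply Finset.sum_eq_single_of_mem
          · exact Finset.mem_filter.mpr ⟨one_mem_DD W hW, one_dvd _⟩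
          · intro d hd hd1
            rw [Finset.mem_filter, mem_DD] at hd
            apply yS_lm_zero
            intro hsm
            have hq := Nat.minFac_prime hd1
            have hqd := Nat.minFac_dvd d
            apply (h e he).2 (Nat.minFac d) _ (hqd.trans hd.2)
            rw [mem_PP]
            exact ⟨hsm _ hq hqd, hq, Nat.Coprime.coprime_dvd_left hqd hd.1.2.2⟩
        rw [h2]
        norm_num
      rw [Finset.sum_congr rfl e2]
      simp
    rw [e1]
    apply Finset.sum_le_sum_of_subset_of_nonneg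
    · intro e he
      exact Finset.mem_filter.mpr ⟨hE' he, (h e he).1⟩
    · intro _ _ _
      exact sq_nonneg _
  have h2 := sum_wt5_approx E N X r hr W p (yS W z) B hB hp.pos hp10
  have h3 := (abs_le.mp h2).2
  have hy : ∀ k, W < k → yS W z k = 0 := by
    intro k hk
    unfold yS
    rw [if_neg]
    rintro ⟨h4, _⟩
    omega
  have h4 := Qp_lm W p (yS W z) hy hp hp10
  have h5 : ∑ k ∈ DD W, (yS W z k - yS W z (k * p)) ^ 2 / (Nat.totient k : ℝ) = 1 / GS W z := by
    rw [← yS_Q0 W z hW]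
    apply Finset.sum_congr rfl
    intro k _
    have : yS W z (k * p) = 0 := by
      unfold yS
      rw [if_neg]
      rintro ⟨_, h6⟩
      have := h6 p hp (Dvd.intro_left _ rfl)
      omega
    rw [this, sub_zero]
  rw [h5] at h4
  have h6 : X * (1 / (p : ℝ) * (1 / GS W z)) = X / (p * GS W z) := by
    rw [one_div_mul_one_div, mul_one_div]
  have h7 := mul_le_mul_of_nonneg_left h4 hX
  linarith

/-- smooth sums from below -/
lemma GS_lower (W z : ℕ) : G5 W - ∑ p ∈ (PL W).filter (fun p => z ≤ p),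
    (1 / ((p : ℝ) - 1)) * G5 (W / p) ≤ GS W z := by
  classical
  have h1 : G5 W = GS W z + ∑ k ∈ (DD W).filter (fun k => ¬ Smo z k), 1 / (Nat.totient k : ℝ) := by
    unfold G5 GS DS
    rw [Finset.sum_filter_add_sum_filter_not]
  have h2 : ∀ k ∈ (DD W).filter (fun k => ¬ Smo z k), 1 / (Nat.totient k : ℝ) ≤
      ∑ p ∈ (PL W).filter (fun p => z ≤ p), if p ∣ k then 1 / (Nat.totient k : ℝ) else 0 := by
    intro k hk
    rw [Finset.mem_filter] at hk
    have hk' := (mem_DD W k).mp hk.1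
    have h3 := hk.2
    unfold Smo at h3
    push Not at h3
    obtain ⟨p, hp, hpk, hzp⟩ := h3
    have hle := Nat.le_of_dvd (by omega) hpk
    have hmem : p ∈ (PL W).filter (fun p => z ≤ p) := by
      rw [Finset.mem_filter, mem_PL]
      exact ⟨⟨by omega, hp⟩, hzp⟩
    have := Finset.single_le_sum (f := fun p => if p ∣ k then 1 / (Nat.totient k : ℝ) else 0)
      (fun p _ => by
        show 0 ≤ (if p ∣ k then 1 / (Nat.totient k : ℝ) else 0)
        split_ifs
        · positivity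
        · exact le_refl 0) hmem
    simp only [if_pos hpk] at this
    exact this
  have h3 : ∑ k ∈ (DD W).filter (fun k => ¬ Smo z k), 1 / (Nat.totient k : ℝ) ≤
      ∑ p ∈ (PL W).filter (fun p => z ≤ p), (1 / ((p : ℝ) - 1)) * G5 (W / p) := by
    refine (Finset.sum_le_sum h2).trans ?_
    rw [Finset.sum_comm]
    apply Finset.sum_le_sum
    intro p hp
    rw [Finset.mem_filter, mem_PL] at hp
    have hpp := hp.1.2
    have hp1 : (1 : ℝ) < p := by exact_mod_cast hpp.one_lt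
    rw [← Finset.sum_filter]
    have h4 : ((DD W).filter (fun k => ¬ Smo z k)).filter (fun k => p ∣ k) ⊆
        (DD W).filter (fun k => p ∣ k) := by
      intro k hk
      rw [Finset.mem_filter, Finset.mem_filter] at hk
      exact Finset.mem_filter.mpr ⟨hk.1.1, hk.2⟩
    refine (Finset.sum_le_sum_of_subset_of_nonneg h4 (fun _ _ _ => by positivity)).trans ?_
    have e3 : ∀ k ∈ (DD W).filter (fun k => p ∣ k),
        1 / (Nat.totient k : ℝ) = (1 / ((p : ℝ) - 1)) * (1 / (Nat.totient (k / p) : ℝ)) := by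
      intro k hk
      rw [Finset.mem_filter, mem_DD] at hk
      obtain ⟨⟨_, hsq, _⟩, hqk⟩ := hk
      obtain ⟨l, rfl⟩ := hqk
      rw [Nat.mul_div_cancel_left l hpp.pos]
      have hcop : Nat.Coprime p l := Nat.coprime_of_squarefree_mul hsq
      rw [Nat.totient_mul hcop, Nat.totient_prime hpp]
      push_cast
      rw [Nat.cast_sub hpp.pos]
      push_cast
      rw [one_div_mul_one_div]
    rw [Finset.sum_congr rfl e3, ← Finset.mul_sum]
    apply mul_le_mul_of_nonneg_left _ (by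
      have : 0 < (p : ℝ) - 1 := by linarith
      positivity)
    rw [← Finset.sum_image
      (s := (DD W).filter (fun k => p ∣ k))
      (g := fun k => k / p) (f := fun e : ℕ => 1 / (Nat.totient e : ℝ))]
    · unfold G5
      apply Finset.sum_le_sum_of_subset_of_nonneg
      · intro e he
        rw [Finset.mem_image] at he
        obtain ⟨k, hk, rfl⟩ := he
        rw [Finset.mem_filter] at hk
        obtain ⟨hkD, hqk⟩ := hk
        have h2 := (mem_DD _ _).mp (dvd_mem_DD _ k _ hkD (Nat.div_dvd_of_dvd hqk))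
        have h3 := (mem_DD _ _).mp hkD
        rw [mem_DD]
        exact ⟨⟨h2.1.1, Nat.div_le_div_right h3.1.2⟩, h2.2⟩
      · intro _ _ _
        positivity
    · intro x hx z hz hxz
      rw [Finset.mem_coe, Finset.mem_filter] at hx hz
      simp only at hxz
      rw [← Nat.div_mul_cancel hx.2, ← Nat.div_mul_cancel hz.2, hxz]
  linarith

end Pool.Agent.Helper10.P4
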