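import Pool.Agent.Helper10.P4.PsiPoly
import Pool.Agent.Helper10.P5.SCore

/-! A positive definite trigonometric majorant of the normalized digit sum. -/

namespace Pool.Agent.Helper10.P4

open Finset Pool.Agent.Helper10 Pool.Agent.Helper10.P5

lemma cos_rec (θ : ℝ) (k : ℝ) : Real.cos ((k + 2) * θ) =
    2 * Real.cos θ * Real.cos ((k + 1) * θ) - Real.cos (k * θ) := by
  have h1 : (k + 2) * θ = (k + 1) * θ + θ := by ring
  have h2 : k * θ = (k + 1) * θ - θ := by ring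
  rw [h1, h2, Real.cos_add, Real.cos_sub]
  ring

lemma cheb_all (θ s : ℝ) (hs : Real.cos θ = s) :
    Real.cos (2 * θ) = (-1) * s ^ 0 + 2 * s ^ 2 ∧
    Real.cos (3 * θ) = (-3) * s ^ 1 + 4 * s ^ 3 ∧
    Real.cos (4 * θ) = 1 * s ^ 0 + (-8) * s ^ 2 + 8 * s ^ 4 ∧
    Real.cos (5 * θ) = 5 * s ^ 1 + (-20) * s ^ 3 + 16 * s ^ 5 ∧
    Real.cos (6 * θ) = (-1) * s ^ 0 + 18 * s ^ 2 + (-48) * s ^ 4 + 32 * s ^ 6 ∧
    Real.cos (7 * θ) = (-7) * s ^ 1 + 56 * s ^ 3 + (-112) * s ^ 5 + 64 * s ^ 7 ∧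
    Real.cos (8 * θ) = 1 * s ^ 0 + (-32) * s ^ 2 + 160 * s ^ 4 + (-256) * s ^ 6 + 128 * s ^ 8 ∧
    Real.cos (9 * θ) = 9 * s ^ 1 + (-120) * s ^ 3 + 432 * s ^ 5 + (-576) * s ^ 7 + 256 * s ^ 9 ∧
    Real.cos (10 * θ) = (-1) * s ^ 0 + 50 * s ^ 2 + (-400) * s ^ 4 + 1120 * s ^ 6 + (-1280) * s ^ 8 + 512 * s ^ 10 ∧
    Real.cos (11 * θ) = (-11) * s ^ 1 + 220 * s ^ 3 + (-1232) * s ^ 5 + 2816 * s ^ 7 + (-2816) * s ^ 9 + 1024 * s ^ 11 ∧
    Real.cos (12 * θ) = 1 * s ^ 0 + (-72) * s ^ 2 + 840 * s ^ 4 + (-3584) * s ^ 6 + 6912 * s ^ 8 + (-6144) * s ^ 10 + 2048 * s ^ 12 ∧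
    Real.cos (13 * θ) = 13 * s ^ 1 + (-364) * s ^ 3 + 2912 * s ^ 5 + (-9984) * s ^ 7 + 16640 * s ^ 9 + (-13312) * s ^ 11 + 4096 * s ^ 13 ∧
    Real.cos (14 * θ) = (-1) * s ^ 0 + 98 * s ^ 2 + (-1568) * s ^ 4 + 9408 * s ^ 6 + (-26880) * s ^ 8 + 39424 * s ^ 10 + (-28672) * s ^ 12 + 8192 * s ^ 14 ∧
    Real.cos (15 * θ) = (-15) * s ^ 1 + 560 * s ^ 3 + (-6048) * s ^ 5 + 28800 * s ^ 7 + (-70400) * s ^ 9 + 92160 * s ^ 11 + (-61440) * s ^ 13 + 16384 * s ^ 15 ∧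
    Real.cos (16 * θ) = 1 * s ^ 0 + (-128) * s ^ 2 + 2688 * s ^ 4 + (-21504) * s ^ 6 + 84480 * s ^ 8 + (-180224) * s ^ 10 + 212992 * s ^ 12 + (-131072) * s ^ 14 + 32768 * s ^ 16 := by
  have c0 : Real.cos (0 * θ) = 1 := by rw [zero_mul, Real.cos_zero]
  have c1 : Real.cos (1 * θ) = s := by rw [one_mul, hs]
  have c2 : Real.cos (2 * θ) = (-1) * s ^ 0 + 2 * s ^ 2 := by
    have h := cos_rec θ 0
    rw [show ((0 : ℝ) + 2) = 2 by norm_num, show ((0 : ℝ) + 1) = 1 by norm_num, hs, c1, c0] at h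
    rw [h]
    ring
  have c3 : Real.cos (3 * θ) = (-3) * s ^ 1 + 4 * s ^ 3 := by
    have h := cos_rec θ 1
    rw [show ((1 : ℝ) + 2) = 3 by norm_num, show ((1 : ℝ) + 1) = 2 by norm_num, hs, c2, c1] at h
    rw [h]
    ring
  have c4 : Real.cos (4 * θ) = 1 * s ^ 0 + (-8) * s ^ 2 + 8 * s ^ 4 := by
    have h := cos_rec θ 2
    rw [show ((2 : ℝ) + 2) = 4 by norm_num, show ((2 : ℝ) + 1) = 3 by norm_num, hs, c3, c2] at h
    rw [h]
    ring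
  have c5 : Real.cos (5 * θ) = 5 * s ^ 1 + (-20) * s ^ 3 + 16 * s ^ 5 := by
    have h := cos_rec θ 3
    rw [show ((3 : ℝ) + 2) = 5 by norm_num, show ((3 : ℝ) + 1) = 4 by norm_num, hs, c4, c3] at h
    rw [h]
    ring
  have c6 : Real.cos (6 * θ) = (-1) * s ^ 0 + 18 * s ^ 2 + (-48) * s ^ 4 + 32 * s ^ 6 := by
    have h := cos_rec θ 4
    rw [show ((4 : ℝ) + 2) = 6 by norm_num, show ((4 : ℝ) + 1) = 5 by norm_num, hs, c5, c4] at h
    rw [h]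
    ring
  have c7 : Real.cos (7 * θ) = (-7) * s ^ 1 + 56 * s ^ 3 + (-112) * s ^ 5 + 64 * s ^ 7 := by
    have h := cos_rec θ 5
    rw [show ((5 : ℝ) + 2) = 7 by norm_num, show ((5 : ℝ) + 1) = 6 by norm_num, hs, c6, c5] at h
    rw [h]
    ring
  have c8 : Real.cos (8 * θ) = 1 * s ^ 0 + (-32) * s ^ 2 + 160 * s ^ 4 + (-256) * s ^ 6 + 128 * s ^ 8 := by
    have h := cos_rec θ 6
    rw [show ((6 : ℝ) + 2) = 8 by norm_num, show ((6 : ℝ) + 1) = 7 by norm_num, hs, c7, c6] at h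
    rw [h]
    ring
  have c9 : Real.cos (9 * θ) = 9 * s ^ 1 + (-120) * s ^ 3 + 432 * s ^ 5 + (-576) * s ^ 7 + 256 * s ^ 9 := by
    have h := cos_rec θ 7
    rw [show ((7 : ℝ) + 2) = 9 by norm_num, show ((7 : ℝ) + 1) = 8 by norm_num, hs, c8, c7] at h
    rw [h]
    ring
  have c10 : Real.cos (10 * θ) = (-1) * s ^ 0 + 50 * s ^ 2 + (-400) * s ^ 4 + 1120 * s ^ 6 + (-1280) * s ^ 8 + 512 * s ^ 10 := by
    have h := cos_rec θ 8
    rw [show ((8 : ℝ) + 2) = 10 by norm_num, show ((8 : ℝ) + 1) = 9 by norm_num, hs, c9, c8] at h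
    rw [h]
    ring
  have c11 : Real.cos (11 * θ) = (-11) * s ^ 1 + 220 * s ^ 3 + (-1232) * s ^ 5 + 2816 * s ^ 7 + (-2816) * s ^ 9 + 1024 * s ^ 11 := by
    have h := cos_rec θ 9
    rw [show ((9 : ℝ) + 2) = 11 by norm_num, show ((9 : ℝ) + 1) = 10 by norm_num, hs, c10, c9] at h
    rw [h]
    ring
  have c12 : Real.cos (12 * θ) = 1 * s ^ 0 + (-72) * s ^ 2 + 840 * s ^ 4 + (-3584) * s ^ 6 + 6912 * s ^ 8 + (-6144) * s ^ 10 + 2048 * s ^ 12 := by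
    have h := cos_rec θ 10
    rw [show ((10 : ℝ) + 2) = 12 by norm_num, show ((10 : ℝ) + 1) = 11 by norm_num, hs, c11, c10] at h
    rw [h]
    ring
  have c13 : Real.cos (13 * θ) = 13 * s ^ 1 + (-364) * s ^ 3 + 2912 * s ^ 5 + (-9984) * s ^ 7 + 16640 * s ^ 9 + (-13312) * s ^ 11 + 4096 * s ^ 13 := by
    have h := cos_rec θ 11
    rw [show ((11 : ℝ) + 2) = 13 by norm_num, show ((11 : ℝ) + 1) = 12 by norm_num, hs, c12, c11] at h
    rw [h]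
    ring
  have c14 : Real.cos (14 * θ) = (-1) * s ^ 0 + 98 * s ^ 2 + (-1568) * s ^ 4 + 9408 * s ^ 6 + (-26880) * s ^ 8 + 39424 * s ^ 10 + (-28672) * s ^ 12 + 8192 * s ^ 14 := by
    have h := cos_rec θ 12
    rw [show ((12 : ℝ) + 2) = 14 by norm_num, show ((12 : ℝ) + 1) = 13 by norm_num, hs, c13, c12] at h
    rw [h]
    ring
  have c15 : Real.cos (15 * θ) = (-15) * s ^ 1 + 560 * s ^ 3 + (-6048) * s ^ 5 + 28800 * s ^ 7 + (-70400) * s ^ 9 + 92160 * s ^ 11 + (-61440) * s ^ 13 + 16384 * s ^ 15 := by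
    have h := cos_rec θ 13
    rw [show ((13 : ℝ) + 2) = 15 by norm_num, show ((13 : ℝ) + 1) = 14 by norm_num, hs, c14, c13] at h
    rw [h]
    ring
  have c16 : Real.cos (16 * θ) = 1 * s ^ 0 + (-128) * s ^ 2 + 2688 * s ^ 4 + (-21504) * s ^ 6 + 84480 * s ^ 8 + (-180224) * s ^ 10 + 212992 * s ^ 12 + (-131072) * s ^ 14 + 32768 * s ^ 16 := by
    have h := cos_rec θ 14
    rw [show ((14 : ℝ) + 2) = 16 by norm_num, show ((14 : ℝ) + 1) = 15 by norm_num, hs, c15, c14] at h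
    rw [h]
    ring
  exact ⟨c2, c3, c4, c5, c6, c7, c8, c9, c10, c11, c12, c13, c14, c15, c16⟩

/-- the coefficients of the majorant -/
noncomputable def cps : ℕ → ℝ
  | 0 => 25114 / 100000
  | 1 => 24360 / 100000
  | 2 => 16088 / 100000
  | 3 => 11678 / 100000
  | 4 => 8693 / 100000
  | 5 => 6372 / 100000
  | 6 => 4382 / 100000
  | 7 => 2470 / 100000
  | 8 => 843 / 100000
  | _ => 0

/-- the majorant -/
noncomputable def psi (x : ℝ) : ℝ := ∑ m ∈ range 9, cps m * Real.cos (2 * Real.pi * (m * x))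

lemma ee_cos (y : ℝ) : ee y + ee (-y) = ((2 * Real.cos (2 * Real.pi * y) : ℝ) : ℂ) := by
  unfold ee
  push_cast
  rw [Complex.cos]
  have e1 : Complex.I * (2 * Real.pi * (y : ℂ)) = 2 * Real.pi * y * Complex.I := by ring
  have e2 : Complex.I * (2 * Real.pi * (-(y : ℂ))) = -(2 * Real.pi * y) * Complex.I := by ring
  rw [e1, e2]
  ring

lemma ph_eq (x : ℝ) : ph x = |1 / 5 * (Real.cos (1 * (Real.pi * x)) + Real.cos (3 * (Real.pi * x)) +
    Real.cos (5 * (Real.pi * x)) + Real.cos (7 * (Real.pi * x)) + Real.cos (9 * (Real.pi * x)))| := by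
  have hc : ∀ j : ℝ, ee (9 / 2 * x) * ((2 * Real.cos ((2 * j + 1) * (Real.pi * x)) : ℝ) : ℂ) =
      ee ((5 + j) * x) + ee ((4 - j) * x) := by
    intro j
    have e1 : (2 * j + 1) * (Real.pi * x) = 2 * Real.pi * ((j + 1 / 2) * x) := by ring
    rw [e1, ← ee_cos, mul_add, ← ee_add, ← ee_add]
    congr 2
    · ring
    · ring
  have h0 := hc 0
  have h1 := hc 1
  have h2 := hc 2
  have h3 := hc 3
  have h4 := hc 4
  norm_num at h0 h1 h2 h3 h4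
  have hsum : ∑ d ∈ range 10, ee ((d : ℝ) * x) = ee (9 / 2 * x) *
      ((2 * (Real.cos (1 * (Real.pi * x)) + Real.cos (3 * (Real.pi * x)) +
    Real.cos (5 * (Real.pi * x)) + Real.cos (7 * (Real.pi * x)) + Real.cos (9 * (Real.pi * x))) : ℝ) : ℂ) := by
    simp only [Finset.sum_range_succ, Finset.sum_range_zero]
    push_cast
    norm_num
    linear_combination -h0 - h1 - h2 - h3 - h4
  unfold ph
  rw [hsum, norm_mul, norm_ee, one_mul, Complex.norm_real, Real.norm_eq_abs]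
  set A := Real.cos (1 * (Real.pi * x)) + Real.cos (3 * (Real.pi * x)) +
    Real.cos (5 * (Real.pi * x)) + Real.cos (7 * (Real.pi * x)) + Real.cos (9 * (Real.pi * x)) with hA
  rw [abs_mul, abs_mul]
  norm_num
  ring

lemma psi_eq (x : ℝ) : psi x = 12557 / 50000 * Real.cos (0 * (Real.pi * x)) + 609 / 2500 * Real.cos (2 * (Real.pi * x)) + 2011 / 12500 * Real.cos (4 * (Real.pi * x)) + 5839 / 50000 * Real.cos (6 * (Real.pi * x)) + 8693 / 100000 * Real.cos (8 * (Real.pi * x)) + 1593 / 25000 * Real.cos (10 * (Real.pi * x)) + 2191 / 50000 * Real.cos (12 * (Real.pi * x)) + 247 / 10000 * Real.cos (14 * (Real.pi * x)) + 843 / 100000 * Real.cos (16 * (Real.pi * x)) := by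
  unfold psi
  simp only [Finset.sum_range_succ, Finset.sum_range_zero, cps]
  push_cast
  rw [show 2 * Real.pi * ((0 : ℝ) * x) = 0 * (Real.pi * x) by ring]
  rw [show 2 * Real.pi * ((1 : ℝ) * x) = 2 * (Real.pi * x) by ring]
  rw [show 2 * Real.pi * ((2 : ℝ) * x) = 4 * (Real.pi * x) by ring]
  rw [show 2 * Real.pi * ((3 : ℝ) * x) = 6 * (Real.pi * x) by ring]
  rw [show 2 * Real.pi * ((4 : ℝ) * x) = 8 * (Real.pi * x) by ring]
  rw [show 2 * Real.pi * ((5 : ℝ) * x) = 10 * (Real.pi * x) by ring]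
  rw [show 2 * Real.pi * ((6 : ℝ) * x) = 12 * (Real.pi * x) by ring]
  rw [show 2 * Real.pi * ((7 : ℝ) * x) = 14 * (Real.pi * x) by ring]
  rw [show 2 * Real.pi * ((8 : ℝ) * x) = 16 * (Real.pi * x) by ring]
  norm_num

theorem ph_le_psi (x : ℝ) : ph x ≤ psi x := by
  rw [ph_eq, psi_eq]
  set θ := Real.pi * x with hθ
  obtain ⟨s, hs⟩ : ∃ s, Real.cos θ = s := ⟨_, rfl⟩
  have hs1 : -1 ≤ s := by rw [← hs]; exact Real.neg_one_le_cos θ
  have hs2 : s ≤ 1 := by rw [← hs]; exact Real.cos_le_one θ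
  obtain ⟨c2, c3, c4, c5, c6, c7, c8, c9, c10, c11, c12, c13, c14, c15, c16⟩ := cheb_all θ s hs
  have c0 : Real.cos (0 * θ) = 1 := by rw [zero_mul, Real.cos_zero]
  have c1 : Real.cos (1 * θ) = s := by rw [one_mul, hs]
  rw [c0, c1, c2, c3, c4, c5, c6, c7, c8, c9, c10, c12, c14, c16]
  have h1 := poly_ineq s hs1 hs2
  have h2 := poly_ineq (-s) (by linarith) (by linarith)
  rw [abs_le]
  constructor
  · ring_nf at h2 ⊢
    linarith
  · ring_nf at h1 ⊢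
    linarith

end Pool.Agent.Helper10.P4
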