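import Pool.Agent.Helper10.P4.SAll

/-! Power saving over squares of primes. -/

namespace Pool.Agent.Helper10.P4

open Finset Pool.Agent.Helper10 Pool.Agent.Helper10.P5

lemma pow_sq_aux (a r : ℕ) (h : 12 * r ≤ 7 * a) :
    (((67 : ℝ) / 1000) / (999 / 1000) ^ 3) ^ a ≤ (98 / 10000) ^ r := by
  set β : ℝ := ((67 : ℝ) / 1000) / (999 / 1000) ^ 3 with hβ
  have hβ0 : 0 < β := by rw [hβ]; norm_num
  have hβ1 : β ≤ 1 := by rw [hβ]; norm_num
  have h1 : (β ^ a) ^ 7 ≤ ((98 / 10000) ^ r) ^ 7 := by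
    calc (β ^ a) ^ 7 = β ^ (7 * a) := by rw [← pow_mul, mul_comm]
      _ ≤ β ^ (12 * r) := pow_le_pow_of_le_one hβ0.le hβ1 h
      _ = (β ^ 12) ^ r := by rw [← pow_mul]
      _ ≤ ((98 / 10000) ^ 7) ^ r := by
          apply pow_le_pow_left₀ (by positivity)
          rw [hβ]
          norm_num
      _ = ((98 / 10000) ^ r) ^ 7 := by rw [← pow_mul, ← pow_mul, mul_comm]
  exact le_of_pow_le_pow_left₀ (by norm_num) (by positivity) h1

/-- **First moment over squares of primes.** -/
theorem S_sq4 (g : ℕ) (hg : 4 ≤ g) : ∃ C θ : ℝ, 0 < C ∧ 0 < θ ∧ θ < 1 ∧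
    ∀ κ T r : ℕ, (∀ q : ℕ, q.Coprime 10 → q.Coprime κ) → 12 * r + 7 * (r / g) ≤ 7 * T →
      ∑ q ∈ SQ r, ∑ a ∈ AA q, GF κ T (Icc 1 T) ((a : ℝ) / q) ≤ C * (100 * θ) ^ r := by
  classical
  obtain ⟨σ, μ, θ, hσ0, hσ1, hμ1, hθ0, hθ1, hσμ, hdec⟩ := decay_gen (999 / 1000) (by norm_num)
    (by norm_num) g (by omega)
  obtain ⟨C', hC'1, hτ⟩ := tau_le_pow μ hμ1
  set θ' : ℝ := max θ (98 / 100) with hθ'
  have hθ'0 : 0 < θ' := lt_max_of_lt_left hθ0
  have hθ'1 : θ' < 1 := max_lt hθ1 (by norm_num)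
  have hθle : θ ≤ θ' := le_max_left _ _
  have hθle2 : 98 / 100 ≤ θ' := le_max_right _ _
  set C1 : ℝ := 12000 * g * C' + 50000 with hC1
  set C2 : ℝ := 10 ^ (3 * g + 3) with hC2
  refine ⟨C1 + C2, θ', by positivity, hθ'0, hθ'1, ?_⟩
  intro κ T r hκ hT
  have hS : ∀ q ∈ SQ r, 0 < q ∧ q ≤ 10 ^ (2 * r + 2) ∧ q.Coprime 10 := by
    intro q hq
    have := SQ_spec r q hq
    exact ⟨this.1, this.2.1, this.2.2.1⟩
  have hθ1' : (1 : ℝ) ≤ (100 * θ') ^ r := one_le_pow₀ (by linarith)
  rcases Nat.lt_or_ge r g with hrg | hrg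
  · -- trivial bound
    have h1 : ∑ q ∈ SQ r, ∑ a ∈ AA q, GF κ T (Icc 1 T) ((a : ℝ) / q) ≤ 10 ^ (3 * r + 3) := by
      calc ∑ q ∈ SQ r, ∑ a ∈ AA q, GF κ T (Icc 1 T) ((a : ℝ) / q)
          ≤ ∑ q ∈ SQ r, (10 : ℝ) ^ (2 * r + 2) := by
            apply Finset.sum_le_sum
            intro q hq
            calc ∑ a ∈ AA q, GF κ T (Icc 1 T) ((a : ℝ) / q) ≤ ∑ a ∈ AA q, (1 : ℝ) :=
                  Finset.sum_le_sum fun _ _ => GF_le_one _ _ _ _
              _ = (AA q).card := by simp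
              _ ≤ (q : ℝ) := by
                  have : (AA q).card ≤ q := by
                    unfold AA
                    refine (Finset.card_filter_le _ _).trans ?_
                    rw [Finset.card_range]
                  exact_mod_cast this
              _ ≤ 10 ^ (2 * r + 2) := by exact_mod_cast (hS q hq).2.1
        _ = (SQ r).card * (10 : ℝ) ^ (2 * r + 2) := by rw [Finset.sum_const, nsmul_eq_mul]
        _ ≤ (9 * 10 ^ r) * (10 : ℝ) ^ (2 * r + 2) := by
            apply mul_le_mul_of_nonneg_right _ (by positivity)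
            exact_mod_cast SQ_card r
        _ ≤ 10 ^ (3 * r + 3) := by
            have : (10 : ℝ) ^ (3 * r + 3) = 10 * 10 ^ r * 10 ^ (2 * r + 2) := by ring
            rw [this]
            apply mul_le_mul_of_nonneg_right _ (by positivity)
            have : (0 : ℝ) < 10 ^ r := by positivity
            linarith
    refine h1.trans ?_
    have h2 : (10 : ℝ) ^ (3 * r + 3) ≤ C2 := by
      rw [hC2]
      apply pow_le_pow_right₀ (by norm_num)
      omega
    have hC20 : 0 < C2 := by positivity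
    have h7 : 0 ≤ C1 * (100 * θ') ^ r := by positivity
    nlinarith
  · obtain ⟨L, hL⟩ : ∃ L, L = r / g := ⟨_, rfl⟩
    have hL1 : 1 ≤ L := by rw [hL]; exact (Nat.one_le_div_iff (by omega)).mpr hrg
    have hgL : r < g * (L + 1) := by rw [hL]; exact Nat.lt_mul_div_succ r (by omega)
    have hLr : g * L ≤ r := by rw [hL]; exact Nat.mul_div_le r g
    have hLle : 4 * L ≤ r := by nlinarith
    have h1 := hdec r
    obtain ⟨ℓ, hℓ⟩ : ∃ ℓ, ℓ = min T (2 * r) := ⟨_, rfl⟩
    have hGL6 : ℓ / L ≤ 6 * g := by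
      rw [hL]
      exact GL_le r g (by omega) hrg ℓ (by omega)
    rw [← hL] at h1 hT
    have hℓT : ℓ ≤ T := by omega
    have hℓ2 : ℓ ≤ 2 * r := by omega
    have hℓr : 12 * r + 7 * L ≤ 7 * ℓ := by omega
    have hℓr2 : 5 * r + 3 * L ≤ 3 * ℓ := by omega
    set D : ℕ := ⌊C' * μ ^ r⌋₊ with hDdef
    have hμr : (1 : ℝ) ≤ μ ^ r := one_le_pow₀ hμ1.le
    have hDle : (D : ℝ) ≤ C' * μ ^ r := Nat.floor_le (by positivity)
    have hD : ∀ n : ℕ, 1 ≤ n → n ≤ 18 * 10 ^ (2 * ℓ + 1) → tau n ≤ D := by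
      intro n hn1 hn2
      apply Nat.le_floor
      apply hτ r n hn1
      refine hn2.trans ?_
      apply Nat.mul_le_mul_left
      exact Nat.pow_le_pow_right (by norm_num) (by omega)
    obtain ⟨G, hG⟩ : ∃ G, G = ℓ / L := ⟨_, rfl⟩
    rw [← hG] at hGL6
    have hGL : G * L ≤ ℓ := by rw [hG]; exact Nat.div_mul_le_self ℓ L
    have hGL2 : ℓ < G * L + L := by
      rw [hG]
      have := Nat.lt_div_mul_add (a := ℓ) (show 0 < L by omega)
      exact this
    have hGL3 : 12 * r ≤ 7 * (G * L) := by omega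
    set l : ℝ := (999 / 1000) ^ L with hl
    have hl0 : 0 < l := by positivity
    have hpt := fun α => pointwise κ T ℓ L G hℓT hGL l hl0 α
    have h2 := sum_compl κ T ℓ L G (10 ^ (2 * r + 2)) D r hκ hℓT hℓr2 (SQ r) (SQ_card r) hS hD
    have h3 := LS4 κ T ℓ (10 ^ (2 * r + 2)) (10 ^ (4 * r + 4)) (Icc 1 (G * L)) hκ hℓT
      (Finset.Icc_subset_Icc_right hGL) (SQ r) hS (Nat.one_le_pow _ _ (by norm_num)) (by
        rw [← pow_mul]
        apply Nat.pow_le_pow_right (by norm_num)
        omega) (by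
        calc 18 * 10 ^ (2 * ℓ + 1) + 1 ≤ 18 * 10 ^ (4 * r + 1) + 10 ^ (4 * r + 1) := by
              apply Nat.add_le_add
              · apply Nat.mul_le_mul_left
                exact Nat.pow_le_pow_right (by norm_num) (by omega)
              · exact Nat.one_le_pow _ _ (by norm_num)
          _ = 19 * 10 ^ (4 * r + 1) := by ring
          _ ≤ 1000 * 10 ^ (4 * r + 1) := by
              apply Nat.mul_le_mul_right
              norm_num
          _ = 10 ^ (4 * r + 4) := by ring)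
    rw [Nat.card_Icc, Nat.add_sub_cancel] at h3
    have h4 : ∑ q ∈ SQ r, ∑ a ∈ AA q, GF κ T (Icc 1 T) ((a : ℝ) / q) ≤
        l * ∑ q ∈ SQ r, ∑ a ∈ AA q, ∑ i ∈ range G,
          GF κ T (Icc 1 ℓ \ Ioc (i * L) ((i + 1) * L)) ((a : ℝ) / q) +
        (1 / l ^ (3 * G)) * ∑ q ∈ SQ r, ∑ a ∈ AA q, GF κ T (Icc 1 (G * L)) ((a : ℝ) / q) ^ 4 := by
      rw [Finset.mul_sum, Finset.mul_sum, ← Finset.sum_add_distrib]
      apply Finset.sum_le_sum
      intro q _
      rw [Finset.mul_sum, Finset.mul_sum, ← Finset.sum_add_distrib]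
      exact Finset.sum_le_sum fun a _ => hpt _
    have hGR : (G : ℝ) ≤ 6 * g := by exact_mod_cast hGL6
    -- first part
    have h5 : l * ∑ q ∈ SQ r, ∑ a ∈ AA q, ∑ i ∈ range G,
          GF κ T (Icc 1 ℓ \ Ioc (i * L) ((i + 1) * L)) ((a : ℝ) / q) ≤
        12000 * g * C' * (100 * θ') ^ r := by
      calc l * ∑ q ∈ SQ r, ∑ a ∈ AA q, ∑ i ∈ range G,
          GF κ T (Icc 1 ℓ \ Ioc (i * L) ((i + 1) * L)) ((a : ℝ) / q)
          ≤ (1 / (999 / 1000) * σ ^ r) * (G * ((10 ^ (2 * r + 2) : ℕ) * (9 + D))) := by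
            apply mul_le_mul h1 h2 _ (by positivity)
            apply Finset.sum_nonneg
            intro q _
            apply Finset.sum_nonneg
            intro a _
            apply Finset.sum_nonneg
            intro i _
            exact GF_nonneg _ _ _ _
        _ ≤ (2 * σ ^ r) * ((6 * g) * ((100 * 100 ^ r) * (10 * (C' * μ ^ r)))) := by
            apply mul_le_mul
            · apply mul_le_mul_of_nonneg_right _ (by positivity)
              norm_num
            · apply mul_le_mul hGR _ (by positivity) (by positivity)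
              push_cast
              have e1 : (10 : ℝ) ^ (2 * r + 2) = 100 * 100 ^ r := by
                rw [pow_add, pow_mul]
                norm_num
                ring
              rw [e1]
              apply mul_le_mul_of_nonneg_left _ (by positivity)
              have : 1 ≤ C' * μ ^ r := by nlinarith
              linarith
            · positivity
            · positivity
        _ = 12000 * g * C' * (100 * (σ * μ)) ^ r := by rw [mul_pow, mul_pow]; ring
        _ ≤ 12000 * g * C' * (100 * θ') ^ r := by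
            apply mul_le_mul_of_nonneg_left _ (by positivity)
            apply pow_le_pow_left₀ (by positivity)
            rw [hσμ]
            linarith
    -- second part
    have h6 : (1 / l ^ (3 * G)) * ∑ q ∈ SQ r, ∑ a ∈ AA q,
        GF κ T (Icc 1 (G * L)) ((a : ℝ) / q) ^ 4 ≤ 50000 * (100 * θ') ^ r := by
      have e1 : l ^ (3 * G) = ((999 / 1000 : ℝ) ^ 3) ^ (G * L) := by
        rw [hl, ← pow_mul, ← pow_mul]
        congr 1
        ring
      have e2 : (1 / l ^ (3 * G)) * (5 * ((10 ^ (4 * r + 4) : ℕ) : ℝ) *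
          (67 / 1000) ^ (G * L)) = 5 * ((10 ^ (4 * r + 4) : ℕ) : ℝ) *
          ((67 / 1000) / (999 / 1000) ^ 3) ^ (G * L) := by
        rw [e1, div_pow (67 / 1000 : ℝ)]
        ring
      calc (1 / l ^ (3 * G)) * ∑ q ∈ SQ r, ∑ a ∈ AA q, GF κ T (Icc 1 (G * L)) ((a : ℝ) / q) ^ 4
          ≤ (1 / l ^ (3 * G)) * (5 * ((10 ^ (4 * r + 4) : ℕ) : ℝ) *
          (67 / 1000) ^ (G * L)) := mul_le_mul_of_nonneg_left h3 (by positivity)
        _ = 5 * ((10 ^ (4 * r + 4) : ℕ) : ℝ) *
          ((67 / 1000) / (999 / 1000) ^ 3) ^ (G * L) := e2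
        _ ≤ 5 * ((10 ^ (4 * r + 4) : ℕ) : ℝ) * (98 / 10000) ^ r :=
            mul_le_mul_of_nonneg_left (pow_sq_aux _ _ hGL3) (by positivity)
        _ = 50000 * (100 * (98 / 100)) ^ r := by
            push_cast
            have e3 : (10 : ℝ) ^ (4 * r + 4) = 10000 * 10000 ^ r := by
              rw [pow_add, pow_mul]
              norm_num
              ring
            have e4 : (10000 : ℝ) ^ r * (98 / 10000) ^ r = (100 * (98 / 100)) ^ r := by
              rw [← mul_pow]
              norm_num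
            rw [e3, ← e4]
            ring
        _ ≤ 50000 * (100 * θ') ^ r := by
            apply mul_le_mul_of_nonneg_left _ (by positivity)
            apply pow_le_pow_left₀ (by norm_num)
            linarith
    have h7 : 0 ≤ C2 * (100 * θ') ^ r := by positivity
    calc ∑ q ∈ SQ r, ∑ a ∈ AA q, GF κ T (Icc 1 T) ((a : ℝ) / q)
        ≤ 12000 * g * C' * (100 * θ') ^ r + 50000 * (100 * θ') ^ r :=
          h4.trans (add_le_add h5 h6)
      _ = C1 * (100 * θ') ^ r := by rw [hC1]; ring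
      _ ≤ (C1 + C2) * (100 * θ') ^ r := by rw [add_mul]; linarith

end Pool.Agent.Helper10.P4
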