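import Pool.Agent.Helper10.P4.Err4
import Pool.Agent.Helper10.P5.Sq5

/-! Members of the family divisible by the square of a large prime. -/

namespace Pool.Agent.Helper10.P4

open Finset Filter Pool.Agent.Helper10 Pool.Agent.Helper10.P5

lemma sq_block4 (g : ℕ) (hg : 4 ≤ g) : ∃ C θ : ℝ, 0 < C ∧ 0 < θ ∧ θ < 1 ∧
    ∀ κ T N0 j : ℕ, (∀ q : ℕ, q.Coprime 10 → q.Coprime κ) → 12 * j + 7 * (j / g) ≤ 7 * T →
      ∑ p ∈ (QT j).filter Nat.Prime, (cnt5 κ T N0 (p ^ 2) : ℝ) ≤ 10 ^ T * (C * θ ^ j) := by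
  obtain ⟨C1, θ1, hC1, hθ10, hθ11, hS1⟩ := S_all4 g (by omega)
  obtain ⟨C2, θ2, hC2, hθ20, hθ21, hS2⟩ := S_sq4 g hg
  set θ := max (1 / 10 : ℝ) (max θ1 θ2) with hθ
  have hθ0 : 0 < θ := lt_max_of_lt_left (by norm_num)
  have hθ1 : θ < 1 := max_lt (by norm_num) (max_lt hθ11 hθ21)
  refine ⟨9 + C1 + C2, θ, by positivity, hθ0, hθ1, ?_⟩
  intro κ T N0 j hκ hT
  have h1 := hS1 κ T j hκ (by omega)
  have h2 := hS2 κ T j hκ hT
  have h10 : (0 : ℝ) < 10 ^ j := by positivity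
  have hP1 : ∑ p ∈ (QT j).filter Nat.Prime, Psi5 κ T p ≤ C1 * (10 * θ1) ^ j := by
    refine le_trans ?_ h1
    apply Finset.sum_le_sum_of_subset_of_nonneg (Finset.filter_subset _ _)
    intro q _ _
    exact Psi5_nonneg κ T q
  have hP2 : ∑ p ∈ (QT j).filter Nat.Prime, Psi5 κ T (p ^ 2) ≤ C2 * (100 * θ2) ^ j := by
    refine le_trans (le_of_eq ?_) h2
    unfold SQ Psi5
    rw [Finset.sum_image]
    intro x _ y _ hxy
    exact Nat.pow_left_injective (n := 2) (by norm_num) hxy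
  have hcard : (((QT j).filter Nat.Prime).card : ℝ) ≤ 9 * 10 ^ j := by
    exact_mod_cast (Finset.card_filter_le _ _).trans (QT_card j)
  calc ∑ p ∈ (QT j).filter Nat.Prime, (cnt5 κ T N0 (p ^ 2) : ℝ)
      ≤ ∑ p ∈ (QT j).filter Nat.Prime, 10 ^ T / 100 ^ j * (1 + Psi5 κ T p + Psi5 κ T (p ^ 2)) := by
        apply Finset.sum_le_sum
        intro p hp
        rw [Finset.mem_filter, mem_QT] at hp
        refine (cnt5_sq_le κ T N0 p hp.2).trans ?_
        have hn1 := Psi5_nonneg κ T p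
        have hn2 := Psi5_nonneg κ T (p ^ 2)
        apply mul_le_mul_of_nonneg_right _ (by positivity)
        apply div_le_div_of_nonneg_left (by positivity) (by positivity)
        have : (10 : ℝ) ^ j ≤ p := by exact_mod_cast hp.1.1.1.le
        calc (100 : ℝ) ^ j = (10 ^ j) ^ 2 := by rw [← pow_mul, mul_comm, pow_mul]; norm_num
          _ ≤ (p : ℝ) ^ 2 := pow_le_pow_left₀ (by positivity) this 2
    _ = 10 ^ T / 100 ^ j * ((((QT j).filter Nat.Prime).card : ℝ) +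
        ∑ p ∈ (QT j).filter Nat.Prime, Psi5 κ T p +
        ∑ p ∈ (QT j).filter Nat.Prime, Psi5 κ T (p ^ 2)) := by
        rw [← Finset.mul_sum, Finset.sum_add_distrib, Finset.sum_add_distrib, Finset.sum_const,
          nsmul_eq_mul, mul_one]
    _ ≤ 10 ^ T / 100 ^ j * (9 * 10 ^ j + C1 * (10 * θ1) ^ j + C2 * (100 * θ2) ^ j) := by
        apply mul_le_mul_of_nonneg_left _ (by positivity)
        linarith
    _ = 10 ^ T * (9 * (1 / 10) ^ j + C1 * (θ1 / 10) ^ j + C2 * θ2 ^ j) := by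
        have e1 : (100 : ℝ) ^ j = 10 ^ j * 10 ^ j := by rw [← mul_pow]; norm_num
        rw [e1, mul_pow, mul_pow, div_pow, div_pow, one_pow]
        have e2 : (100 : ℝ) ^ j = 10 ^ j * 10 ^ j := e1
        rw [e2]
        field_simp
    _ ≤ 10 ^ T * ((9 + C1 + C2) * θ ^ j) := by
        apply mul_le_mul_of_nonneg_left _ (by positivity)
        have a1 : ((1 : ℝ) / 10) ^ j ≤ θ ^ j := pow_le_pow_left₀ (by norm_num) (le_max_left _ _) j
        have a2 : (θ1 / 10) ^ j ≤ θ ^ j := by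
          apply pow_le_pow_left₀ (by positivity)
          have : θ1 ≤ θ := (le_max_left _ _).trans (le_max_right _ _)
          linarith
        have a3 : θ2 ^ j ≤ θ ^ j :=
          pow_le_pow_left₀ hθ20.le ((le_max_right _ _).trans (le_max_right _ _)) j
        have b2 := mul_le_mul_of_nonneg_left a2 hC1.le
        have b3 := mul_le_mul_of_nonneg_left a3 hC2.le
        have b1 : 9 * ((1 : ℝ) / 10) ^ j ≤ 9 * θ ^ j := mul_le_mul_of_nonneg_left a1 (by norm_num)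
        linarith

/-- the members divisible by the square of a prime in a long interval -/
theorem sq4 (g : ℕ) (hg : 4 ≤ g) : ∃ C θ : ℝ, 0 < C ∧ 0 < θ ∧ θ < 1 ∧
    ∀ κ T N0 j0 J : ℕ, (∀ q : ℕ, q.Coprime 10 → q.Coprime κ) → 12 * J + 7 * (J / g) ≤ 7 * T →
      ∀ B : Finset (Fin T → ℕ), B ⊆ KK T 10 → (∀ f ∈ B, ∃ p : ℕ, p.Prime ∧ p.Coprime 10 ∧
        10 ^ j0 < p ∧ p ≤ 10 ^ J ∧ p ^ 2 ∣ N0 + κ * vl T f) →
      (B.card : ℝ) ≤ 10 ^ T * (C * θ ^ j0) := by
  classical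
  obtain ⟨C, θ, hC, hθ0, hθ1, hS⟩ := sq_block4 g hg
  refine ⟨C / (1 - θ), θ, div_pos hC (by linarith), hθ0, hθ1, ?_⟩
  intro κ T N0 j0 J hκ hT B hBK hB
  have hsub : B ⊆ (Ico j0 J).biUnion (fun j => ((QT j).filter Nat.Prime).biUnion (fun p =>
      (KK T 10).filter (fun f => p ^ 2 ∣ N0 + κ * vl T f))) := by
    intro f hf
    have hfK := hBK hf
    obtain ⟨p, hp, hp10, h1, h2, h3⟩ := hB f hf
    have hp1 := hp.one_lt
    set j := Nat.clog 10 p - 1 with hj
    have hc0 : 0 < Nat.clog 10 p := Nat.clog_pos (by norm_num) hp1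
    have hlt : 10 ^ j < p := by
      have := Nat.pow_pred_clog_lt_self (b := 10) (by norm_num) (x := p) (by omega)
      simpa [hj] using this
    have hle : p ≤ 10 ^ (j + 1) := by
      have := Nat.le_pow_clog (b := 10) (by norm_num) p
      rw [show j + 1 = Nat.clog 10 p by omega]
      exact this
    rw [Finset.mem_biUnion]
    refine ⟨j, ?_, ?_⟩
    · rw [Finset.mem_Ico]
      constructor
      · have : 10 ^ j0 < 10 ^ (j + 1) := lt_of_lt_of_le h1 hle
        have := (Nat.pow_lt_pow_iff_right (by norm_num)).mp this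
        omega
      · have : 10 ^ j < 10 ^ J := lt_of_lt_of_le hlt h2
        exact (Nat.pow_lt_pow_iff_right (by norm_num)).mp this
    · rw [Finset.mem_biUnion]
      refine ⟨p, ?_, ?_⟩
      · rw [Finset.mem_filter, mem_QT]
        exact ⟨⟨⟨hlt, hle⟩, hp10⟩, hp⟩
      · rw [Finset.mem_filter]
        exact ⟨hfK, h3⟩
  have h1 : (B.card : ℝ) ≤ ∑ j ∈ Ico j0 J, ∑ p ∈ (QT j).filter Nat.Prime,
      (cnt5 κ T N0 (p ^ 2) : ℝ) := by
    have h2 : B.card ≤ ∑ j ∈ Ico j0 J, ∑ p ∈ (QT j).filter Nat.Prime, cnt5 κ T N0 (p ^ 2) := by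
      refine (Finset.card_le_card hsub).trans ?_
      refine Finset.card_biUnion_le.trans ?_
      apply Finset.sum_le_sum
      intro j _
      exact Finset.card_biUnion_le
    exact_mod_cast h2
  refine h1.trans ?_
  have h2 : ∀ j ∈ Ico j0 J, ∑ p ∈ (QT j).filter Nat.Prime, (cnt5 κ T N0 (p ^ 2) : ℝ) ≤
      10 ^ T * (C * θ ^ j) := by
    intro j hj
    rw [Finset.mem_Ico] at hj
    apply hS κ T N0 j hκ
    have h3 := Nat.div_le_div_right (c := g) hj.2.le
    omega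
  refine (Finset.sum_le_sum h2).trans ?_
  rw [← Finset.mul_sum]
  apply mul_le_mul_of_nonneg_left _ (by positivity)
  rw [← Finset.mul_sum]
  have h3 : ∑ j ∈ Ico j0 J, θ ^ j ≤ θ ^ j0 / (1 - θ) := by
    rw [Finset.sum_Ico_eq_sum_range]
    have e1 : ∀ i ∈ range (J - j0), θ ^ (j0 + i) = θ ^ j0 * θ ^ i := fun i _ => pow_add _ _ _
    rw [Finset.sum_congr rfl e1, ← Finset.mul_sum]
    have h2 : ∑ i ∈ range (J - j0), θ ^ i ≤ 1 / (1 - θ) := by
      rw [geom_sum_eq hθ1.ne]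
      have e : (θ ^ (J - j0) - 1) / (θ - 1) = (1 - θ ^ (J - j0)) / (1 - θ) := by
        rw [← neg_sub, ← neg_sub 1 θ, neg_div_neg_eq]
      rw [e]
      apply div_le_div_of_nonneg_right _ (by linarith)
      have : 0 ≤ θ ^ (J - j0) := by positivity
      linarith
    calc θ ^ j0 * ∑ i ∈ range (J - j0), θ ^ i ≤ θ ^ j0 * (1 / (1 - θ)) :=
          mul_le_mul_of_nonneg_left h2 (by positivity)
      _ = θ ^ j0 / (1 - θ) := by ring
  calc C * ∑ j ∈ Ico j0 J, θ ^ j ≤ C * (θ ^ j0 / (1 - θ)) := mul_le_mul_of_nonneg_left h3 hC.le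
    _ = C / (1 - θ) * θ ^ j0 := by ring

end Pool.Agent.Helper10.P4
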