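import Pool.Agent.Helper10.P4.Psi

/-! First moment by the positive definite majorant. -/

namespace Pool.Agent.Helper10.P4

open Finset Pool.Agent.Helper10 Pool.Agent.Helper10.P5

lemma psi_nonneg (x : ℝ) : 0 ≤ psi x := (ph_nonneg x).trans (ph_le_psi x)

/-- Fourier coefficients of the majorant, shifted by `8` -/
noncomputable def bk (k : ℕ) : ℝ :=
  if k = 8 then 25114 / 100000 else if k < 8 then cps (8 - k) / 2 else cps (k - 8) / 2

/-- coefficients at the distance `t` -/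
noncomputable def bb (A : Finset ℕ) (t k : ℕ) : ℝ :=
  if t ∈ A then bk k else (if k = 8 then 1 else 0)

lemma cps_nonneg (m : ℕ) : 0 ≤ cps m := by
  unfold cps
  split <;> norm_num

lemma bk_nonneg (k : ℕ) : 0 ≤ bk k := by
  unfold bk
  have h1 := cps_nonneg (8 - k)
  have h2 := cps_nonneg (k - 8)
  split_ifs
  · norm_num
  · linarith
  · linarith

lemma bb_nonneg (A : Finset ℕ) (t k : ℕ) : 0 ≤ bb A t k := by
  unfold bb
  have := bk_nonneg k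
  split_ifs <;> linarith

lemma bk_sum : ∑ k ∈ range 17, bk k = 1 := by
  simp only [Finset.sum_range_succ, Finset.sum_range_zero, bk, cps]
  norm_num

lemma bb_sum (A : Finset ℕ) (t : ℕ) : ∑ k ∈ range 17, bb A t k = 1 := by
  unfold bb
  split_ifs
  · exact bk_sum
  · rw [Finset.sum_ite_eq', if_pos (by simp)]

lemma psi_expand (x : ℝ) :
    ((psi x : ℝ) : ℂ) = ∑ k ∈ range 17, ((bk k : ℝ) : ℂ) * ee (((k : ℝ) - 8) * x) := by
  have hc : ∀ m : ℝ, ((Real.cos (2 * Real.pi * (m * x)) : ℝ) : ℂ) =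
      (ee (m * x) + ee (-(m * x))) / 2 := by
    intro m
    rw [ee_cos]
    push_cast
    ring
  unfold psi
  simp only [Finset.sum_range_succ, Finset.sum_range_zero]
  push_cast
  have h0 := hc 0
  have h1 := hc 1
  have h2 := hc 2
  have h3 := hc 3
  have h4 := hc 4
  have h5 := hc 5
  have h6 := hc 6
  have h7 := hc 7
  have h8 := hc 8
  push_cast at h0 h1 h2 h3 h4 h5 h6 h7 h8
  rw [h0, h1, h2, h3, h4, h5, h6, h7, h8]
  simp only [bk, cps]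
  norm_num
  have e0 : ee (0 : ℝ) = 1 := ee_zero
  try rw [e0]
  have g1 : (-8 * x) = -(8 * x) := by ring
  have g2 : (-7 * x) = -(7 * x) := by ring
  have g3 : (-6 * x) = -(6 * x) := by ring
  have g4 : (-5 * x) = -(5 * x) := by ring
  have g5 : (-4 * x) = -(4 * x) := by ring
  have g6 : (-3 * x) = -(3 * x) := by ring
  have g7 : (-2 * x) = -(2 * x) := by ring
  have g8 : (-1 * x) = -(x) := by ring
  try simp only [g1, g2, g3, g4, g5, g6, g7, g8]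
  ring

lemma bb_expand (A : Finset ℕ) (t : ℕ) (x : ℝ) :
    (((if t ∈ A then psi x else 1 : ℝ)) : ℂ) =
      ∑ k ∈ range 17, ((bb A t k : ℝ) : ℂ) * ee (((k : ℝ) - 8) * x) := by
  unfold bb
  split_ifs with h
  · exact psi_expand x
  · have h1 : ∀ k ∈ range 17, (((if k = 8 then 1 else 0 : ℝ)) : ℂ) * ee (((k : ℝ) - 8) * x) =
        if k = 8 then 1 else 0 := by
      intro k _
      split_ifs with h2
      · rw [h2]
        norm_num
        exact ee_zero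
      · simp
    rw [Finset.sum_congr rfl h1, Finset.sum_ite_eq', if_pos (by simp)]
    norm_num

/-- product of the majorants -/
noncomputable def PG (κ T : ℕ) (A : Finset ℕ) (α : ℝ) : ℝ :=
  ∏ t ∈ A, psi (α * ((κ * ww 10 T t : ℕ) : ℝ))

lemma PG_nonneg (κ T : ℕ) (A : Finset ℕ) (α : ℝ) : 0 ≤ PG κ T A α :=
  Finset.prod_nonneg fun _ _ => psi_nonneg _

lemma GF_le_PG (κ T : ℕ) (A : Finset ℕ) (α : ℝ) : GF κ T A α ≤ PG κ T A α :=
  Finset.prod_le_prod (fun _ _ => ph_nonneg _) (fun _ _ => ph_le_psi _)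

/-- total coefficient -/
noncomputable def cb (A : Finset ℕ) (ℓ : ℕ) (f : Fin ℓ → ℕ) : ℝ :=
  ∏ i : Fin ℓ, bb A ((i : ℕ) + 1) (f i)

lemma cb_nonneg (A : Finset ℕ) (ℓ : ℕ) (f : Fin ℓ → ℕ) : 0 ≤ cb A ℓ f :=
  Finset.prod_nonneg fun _ _ => bb_nonneg _ _ _

lemma cb_sum (A : Finset ℕ) (ℓ : ℕ) : ∑ f ∈ KK ℓ 17, cb A ℓ f = 1 := by
  unfold KK cb
  rw [← Finset.prod_univ_sum (fun _ : Fin ℓ => range 17) (fun i k => bb A ((i : ℕ) + 1) k)]
  apply Finset.prod_eq_one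
  intro i _
  exact bb_sum A _

lemma cb_eight (A : Finset ℕ) (ℓ : ℕ) (hA : A ⊆ Icc 1 ℓ) :
    cb A ℓ (fun _ => 8) = (25114 / 100000) ^ A.card := by
  unfold cb
  rw [← prod_Icc_fin ℓ (fun t => bb A t 8)]
  have h1 : ∀ t ∈ Icc 1 ℓ, bb A t 8 = if t ∈ A then (25114 / 100000 : ℝ) else 1 := by
    intro t _
    unfold bb bk
    simp
  rw [Finset.prod_congr rfl h1, Finset.prod_ite_mem, Finset.inter_eq_right.mpr hA,
    Finset.prod_const]

lemma PG_expand (κ T ℓ : ℕ) (A : Finset ℕ) (hℓ : ℓ ≤ T) (hA : A ⊆ Icc 1 ℓ) (α : ℝ) :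
    ((PG κ T A α : ℝ) : ℂ) = ∑ f ∈ KK ℓ 17, ((cb A ℓ f : ℝ) : ℂ) *
      ee (α * (((κ * 10 ^ (T - ℓ) : ℕ) : ℝ) * ((vl ℓ f : ℝ) - (vl ℓ (fun _ => 8) : ℝ)))) := by
  have e1 : PG κ T A α = ∏ t ∈ Icc 1 ℓ,
      (if t ∈ A then psi (α * ((κ * ww 10 T t : ℕ) : ℝ)) else 1) := by
    unfold PG
    rw [Finset.prod_ite_mem, Finset.inter_eq_right.mpr hA]
  have e2 : ∀ t ∈ Icc 1 ℓ, (((if t ∈ A then psi (α * ((κ * ww 10 T t : ℕ) : ℝ)) else 1 : ℝ)) : ℂ) =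
      ∑ k ∈ range 17, ((bb A t k : ℝ) : ℂ) *
        ee (((k : ℝ) - 8) * (α * ((κ * 10 ^ (T - ℓ) * ww 10 ℓ t : ℕ) : ℝ))) := by
    intro t ht
    rw [bb_expand]
    have h2 := ww_add_left 10 ℓ t (T - ℓ) (Finset.mem_Icc.mp ht).2
    rw [show ℓ + (T - ℓ) = T by omega] at h2
    rw [h2, ← mul_assoc]
  rw [e1, Complex.ofReal_prod, Finset.prod_congr rfl e2, prod_Icc_fin]
  unfold KK cb
  rw [Finset.prod_univ_sum (fun _ : Fin ℓ => range 17)]
  apply Finset.sum_congr rfl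
  intro f _
  rw [Finset.prod_mul_distrib]
  congr 1
  · push_cast
    rfl
  · rw [← ee_sum]
    congr 1
    unfold vl
    push_cast
    rw [← Finset.sum_sub_distrib, Finset.mul_sum, Finset.mul_sum]
    apply Finset.sum_congr rfl
    intro i _
    ring

lemma PG_sum (κ T ℓ : ℕ) (A : Finset ℕ) (hℓ : ℓ ≤ T) (hA : A ⊆ Icc 1 ℓ) (q : ℕ) (hq : 0 < q)
    (hcop : q.Coprime (κ * 10 ^ (T - ℓ))) :
    ∑ a ∈ range q, PG κ T A ((a : ℝ) / q) = q * ∑ f ∈ KK ℓ 17,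
      if (q : ℤ) ∣ (vl ℓ f : ℤ) - (vl ℓ (fun _ => 8) : ℤ) then cb A ℓ f else 0 := by
  have hcop' : IsCoprime (q : ℤ) ((κ * 10 ^ (T - ℓ) : ℕ) : ℤ) := Nat.isCoprime_iff_coprime.mpr hcop
  have h1 : ((∑ a ∈ range q, PG κ T A ((a : ℝ) / q) : ℝ) : ℂ) = ((q * ∑ f ∈ KK ℓ 17,
      (if (q : ℤ) ∣ (vl ℓ f : ℤ) - (vl ℓ (fun _ => 8) : ℤ) then cb A ℓ f else 0) : ℝ) : ℂ) := by
    rw [Complex.ofReal_sum, Finset.sum_congr rfl (fun (a : ℕ) _ => PG_expand κ T ℓ A hℓ hA ((a : ℝ) / q)),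
      Finset.sum_comm]
    rw [Complex.ofReal_mul, Complex.ofReal_sum, Finset.mul_sum]
    apply Finset.sum_congr rfl
    intro f _
    rw [← Finset.mul_sum]
    have h2 := sum_ee_eq q hq (((κ * 10 ^ (T - ℓ) : ℕ) : ℤ) * ((vl ℓ f : ℤ) - (vl ℓ (fun _ => 8) : ℤ)))
    have h3 : ∀ a ∈ range q, ee ((a : ℝ) / q * (((κ * 10 ^ (T - ℓ) : ℕ) : ℝ) *
        ((vl ℓ f : ℝ) - (vl ℓ (fun _ => 8) : ℝ)))) = ee ((a : ℝ) *
        (((((κ * 10 ^ (T - ℓ) : ℕ) : ℤ) * ((vl ℓ f : ℤ) - (vl ℓ (fun _ => 8) : ℤ)) : ℤ) : ℝ) / q)) := by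
      intro a _
      congr 1
      push_cast
      ring
    rw [Finset.sum_congr rfl h3, h2]
    by_cases h : (q : ℤ) ∣ (vl ℓ f : ℤ) - (vl ℓ (fun _ => 8) : ℤ)
    · rw [if_pos h, if_pos (Dvd.dvd.mul_left h _)]
      push_cast
      ring
    · rw [if_neg h, if_neg (fun h' => h (hcop'.dvd_of_dvd_mul_left h'))]
      simp
  exact_mod_cast h1

/-- **First moment** of the digit product over a set of moduli. -/
theorem T1_gen (κ T ℓ Qm D : ℕ) (A : Finset ℕ)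
    (hκ : ∀ q : ℕ, q.Coprime 10 → q.Coprime κ) (hℓ : ℓ ≤ T) (hA : A ⊆ Icc 1 ℓ)
    (S : Finset ℕ) (hS : ∀ q ∈ S, 0 < q ∧ q ≤ Qm ∧ q.Coprime 10)
    (hD : ∀ n : ℕ, 1 ≤ n → n ≤ 18 * 10 ^ (2 * ℓ + 1) → (S.filter (fun q => q ∣ n)).card ≤ D) :
    ∑ q ∈ S, ∑ a ∈ AA q, GF κ T A ((a : ℝ) / q) ≤
      Qm * (S.card * (25114 / 100000) ^ A.card + D) := by
  classical
  have h8 : (fun _ => 8 : Fin ℓ → ℕ) ∈ KK ℓ 17 := by
    unfold KK
    rw [Fintype.mem_piFinset]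
    intro _
    simp
  have h1 : ∀ q ∈ S, ∑ a ∈ AA q, GF κ T A ((a : ℝ) / q) ≤ Qm * ∑ f ∈ KK ℓ 17,
      if (q : ℤ) ∣ (vl ℓ f : ℤ) - (vl ℓ (fun _ => 8) : ℤ) then cb A ℓ f else 0 := by
    intro q hq
    obtain ⟨hq0, hqm, hq10⟩ := hS q hq
    have hcop : q.Coprime (κ * 10 ^ (T - ℓ)) :=
      Nat.Coprime.mul_right (hκ q hq10) (Nat.Coprime.pow_right _ hq10)
    calc ∑ a ∈ AA q, GF κ T A ((a : ℝ) / q) ≤ ∑ a ∈ AA q, PG κ T A ((a : ℝ) / q) :=
          Finset.sum_le_sum fun a _ => GF_le_PG _ _ _ _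
      _ ≤ ∑ a ∈ range q, PG κ T A ((a : ℝ) / q) := by
          apply Finset.sum_le_sum_of_subset_of_nonneg (Finset.filter_subset _ _)
          intro _ _ _
          exact PG_nonneg _ _ _ _
      _ = (q : ℝ) * ∑ f ∈ KK ℓ 17,
          if (q : ℤ) ∣ (vl ℓ f : ℤ) - (vl ℓ (fun _ => 8) : ℤ) then cb A ℓ f else 0 :=
          PG_sum κ T ℓ A hℓ hA q hq0 hcop
      _ ≤ _ := by
          apply mul_le_mul_of_nonneg_right (by exact_mod_cast hqm)
          apply Finset.sum_nonneg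
          intro f _
          have := cb_nonneg A ℓ f
          split_ifs
          · exact this
          · exact le_refl _
  refine (Finset.sum_le_sum h1).trans ?_
  rw [← Finset.mul_sum]
  apply mul_le_mul_of_nonneg_left _ (by positivity)
  rw [Finset.sum_comm]
  have h2 : ∀ f ∈ KK ℓ 17, ∑ q ∈ S,
      (if (q : ℤ) ∣ (vl ℓ f : ℤ) - (vl ℓ (fun _ => 8) : ℤ) then cb A ℓ f else 0) ≤
      (if f = (fun _ => 8) then (S.card : ℝ) * cb A ℓ f else 0) + D * cb A ℓ f := by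
    intro f hf
    have hnn := cb_nonneg A ℓ f
    rw [← Finset.sum_filter, Finset.sum_const, nsmul_eq_mul]
    by_cases hpp : f = (fun _ => 8)
    · rw [if_pos hpp]
      have h3 : ((S.filter (fun q : ℕ => (q : ℤ) ∣ (vl ℓ f : ℤ) -
          (vl ℓ (fun _ => 8) : ℤ))).card : ℝ) ≤ S.card := by
        exact_mod_cast Finset.card_filter_le _ _
      have h4 := mul_le_mul_of_nonneg_right h3 hnn
      have h5 : 0 ≤ (D : ℝ) * cb A ℓ f := by positivity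
      linarith
    · rw [if_neg hpp, zero_add]
      apply mul_le_mul_of_nonneg_right _ hnn
      set n := ((vl ℓ f : ℤ) - (vl ℓ (fun _ => 8) : ℤ)).natAbs with hn
      have hne : (vl ℓ f : ℤ) - (vl ℓ (fun _ => 8) : ℤ) ≠ 0 := by
        intro h0
        apply hpp
        apply vl_inj ℓ 17 (by norm_num) _ _ hf h8
        have : (vl ℓ f : ℤ) = vl ℓ (fun _ => 8) := by linarith
        exact_mod_cast this
      have hn1 : 1 ≤ n := by
        rw [hn]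
        exact Int.natAbs_pos.mpr hne
      have hb1 := vl_le ℓ 17 _ hf
      have hb2 := vl_le ℓ 17 _ h8
      have hn2 : n ≤ 18 * 10 ^ (2 * ℓ + 1) := by
        norm_num at hb1 hb2
        omega
      have h3 := hD n hn1 hn2
      have h4 : S.filter (fun q : ℕ => (q : ℤ) ∣ (vl ℓ f : ℤ) - (vl ℓ (fun _ => 8) : ℤ)) =
          S.filter (fun q => q ∣ n) := by
        apply Finset.filter_congr
        intro q _
        rw [hn, Int.natCast_dvd]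
      rw [h4]
      exact_mod_cast h3
  refine (Finset.sum_le_sum h2).trans ?_
  rw [Finset.sum_add_distrib]
  have h3 : ∑ f ∈ KK ℓ 17, (if f = (fun _ => 8) then (S.card : ℝ) * cb A ℓ f else 0) =
      S.card * (25114 / 100000) ^ A.card := by
    rw [Finset.sum_ite_eq', if_pos h8, cb_eight A ℓ hA]
  have h4 : ∑ f ∈ KK ℓ 17, (D : ℝ) * cb A ℓ f = D := by
    rw [← Finset.mul_sum, cb_sum, mul_one]
  rw [h3, h4]

/-- the large sieve with a free length -/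
theorem LS4 (κ T ℓ Qm U : ℕ) (V : Finset ℕ)
    (hκ : ∀ q : ℕ, q.Coprime 10 → q.Coprime κ) (hℓ : ℓ ≤ T) (hV : V ⊆ Icc 1 ℓ)
    (S : Finset ℕ) (hS : ∀ q ∈ S, 0 < q ∧ q ≤ Qm ∧ q.Coprime 10)
    (hQ1 : 1 ≤ Qm) (hQ : Qm ^ 2 ≤ U) (hU : 18 * 10 ^ (2 * ℓ + 1) + 1 ≤ U) :
    ∑ q ∈ S, ∑ a ∈ AA q, GF κ T V ((a : ℝ) / q) ^ 4 ≤ 5 * (U : ℝ) * (67 / 1000) ^ V.card := by
  classical
  set κ' : ℕ := κ * 10 ^ (T - ℓ) with hκ'
  have hκ'c : ∀ q : ℕ, q.Coprime 10 → q.Coprime κ' := fun q hq =>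
    Nat.Coprime.mul_right (hκ q hq) (Nat.Coprime.pow_right _ hq)
  have e0 : ∀ α : ℝ, GF κ T V α ^ 4 = (GF κ T V α ^ 2 * GF κ T ∅ α) ^ 2 := by
    intro α
    have : GF κ T ∅ α = 1 := by unfold GF; simp
    rw [this]
    ring
  have e1 : ∑ q ∈ S, ∑ a ∈ AA q, GF κ T V ((a : ℝ) / q) ^ 4 =
      ∑ q ∈ S, ∑ a ∈ AA q, (GF κ T V ((a : ℝ) / q) ^ 2 * GF κ T ∅ ((a : ℝ) / q)) ^ 2 :=
    Finset.sum_congr rfl fun q _ => Finset.sum_congr rfl fun a _ => e0 _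
  rw [e1, Finset.sum_sigma' S AA
    (fun q a => (GF κ T V ((a : ℝ) / q) ^ 2 * GF κ T ∅ ((a : ℝ) / q)) ^ 2)]
  have hQR : (0 : ℝ) < Qm := by exact_mod_cast hQ1
  have LS := large_sieve (S.sigma (fun q => AA q))
    (fun p : (Σ _ : ℕ, ℕ) => (κ' : ℝ) * ((p.2 : ℝ) / p.1)) (1 / (Qm : ℝ) ^ 2) (by positivity)
    (fun p hp p' hp' hne => spacing_gen S Qm κ' (fun q hq => ⟨(hS q hq).1, (hS q hq).2.1,
      hκ'c q (hS q hq).2.2⟩) p p' hp hp' hne) (KK ℓ 19) (vl ℓ)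
    (by
      intro f hf f' hf' h
      exact vl_inj ℓ 19 (by norm_num) f f' hf hf' h)
    U
    (by
      intro f hf
      have := vl_le ℓ 19 f hf
      norm_num at this
      omega)
    (by
      rw [one_div_one_div]
      exact_mod_cast hQ)
    (fun f => ((ct V ∅ ℓ f : ℝ) : ℂ))
  have hcn : ∑ f ∈ KK ℓ 19, ‖((ct V ∅ ℓ f : ℝ) : ℂ)‖ ^ 2 = (67 / 1000) ^ V.card := by
    have h := ct_sq_sum V ∅ ℓ hV (Finset.empty_subset _) (Finset.disjoint_empty_right _)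
    rw [Finset.card_empty, pow_zero, mul_one] at h
    rw [← h]
    apply Finset.sum_congr rfl
    intro f _
    rw [Complex.norm_real, Real.norm_eq_abs, sq_abs]
  rw [hcn] at LS
  refine le_trans (le_of_eq ?_) LS
  apply Finset.sum_congr rfl
  intro p _
  rw [GF_expand κ T ℓ V ∅ hℓ hV (Finset.empty_subset _) (Finset.disjoint_empty_right _)]
  congr 2
  apply Finset.sum_congr rfl
  intro f _
  congr 2
  rw [hκ']
  push_cast
  ring

end Pool.Agent.Helper10.P4
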