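import Pool.Agent.Helper10.P4.GN
import Pool.Agent.Helper10.P5.Fin5
import Pool.Agent.Helper10.P4.Sq4

/-! The divisor sums on sifted palindromes. -/

namespace Pool.Agent.Helper10.P4

open Finset Pool.Agent.Helper10 Pool.Agent.Helper10.P5

/-- on sifted numbers the divisor sum lies between two bounds -/
lemma wt_bounds (U J a k n : ℕ) (hU : 2 ≤ U) (ha : 1 ≤ a) (haJ : a ≤ J) (hJ : J < 2 * a)
    (hn : 0 < n) (hnU : n < (U ^ a) ^ (k + 1))
    (hs : ∀ p : ℕ, p.Prime → p.Coprime 10 → p < U ^ a → ¬ p ∣ n)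
    (hUa : ¬ (U ^ a).Prime) :
    ∃ c : ℕ, c ≤ k ∧ c ≤ n.primeFactorsList.length ∧
      wt5 (U ^ J) (ys U J) n ≤ ∑ j ∈ Icc 1 J, G5 (U ^ j) ∧
      ∑ j ∈ Icc 1 J, G5 (U ^ j) - c * (((U : ℝ) ^ a) / ((U : ℝ) ^ a - 1) *
        ∑ j ∈ Icc (a + 1) J, G5 (U ^ (j - a))) ≤ wt5 (U ^ J) (ys U J) n := by
  classical
  have hU1 : 1 ≤ U := by omega
  have hYpos : 1 ≤ U ^ J := Nat.one_le_pow _ _ hU1
  have hUa2 : 2 ≤ U ^ a := by
    calc 2 ≤ U := hU
      _ = U ^ 1 := (pow_one U).symm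
      _ ≤ U ^ a := Nat.pow_le_pow_right hU1 ha
  set P : Finset ℕ := ((DD (U ^ J)).filter (fun d => d ∣ n)).erase 1 with hP
  have hPprime : ∀ d ∈ P, d.Prime ∧ d ∣ n ∧ U ^ a < d := by
    intro d hd
    rw [hP, Finset.mem_erase, Finset.mem_filter, mem_DD] at hd
    obtain ⟨hd1, ⟨⟨hd0, hdY⟩, hsq, hd10⟩, hdn⟩ := hd
    have hmf := Nat.minFac_prime hd1
    have hmd := Nat.minFac_dvd d
    have key : ∀ p : ℕ, p.Prime → p ∣ d → U ^ a < p := by
      intro p hp hpd
      have h1 : U ^ a ≤ p := by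
        by_contra hcon
        push Not at hcon
        exact hs p hp (Nat.Coprime.coprime_dvd_left hpd hd10) hcon (hpd.trans hdn)
      rcases Nat.lt_or_ge (U ^ a) p with h2 | h2
      · exact h2
      · exfalso
        have : U ^ a = p := by omega
        rw [this] at hUa
        exact hUa hp
    have hprime : d.Prime := by
      obtain ⟨e, he⟩ := hmd
      by_cases he1 : e = 1
      · rw [he1, mul_one] at he
        rw [he]
        exact hmf
      · exfalso
        have hmf2 := Nat.minFac_prime he1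
        have hmd2 := Nat.minFac_dvd e
        have hed : e ∣ d := Dvd.intro_left _ he.symm
        have h3 := key _ hmf (Nat.minFac_dvd d)
        have h4 := key _ hmf2 (hmd2.trans hed)
        have he0 : 0 < e := Nat.pos_of_dvd_of_pos hed (by omega)
        have h5 : U ^ a < e := h4.trans_le (Nat.minFac_le he0)
        have h6 : U ^ a * U ^ a < d := by
          rw [he]
          exact Nat.mul_lt_mul'' h3 h5
        rw [← pow_add] at h6
        have h7 : U ^ J ≤ U ^ (a + a) := Nat.pow_le_pow_right hU1 (by omega)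
        omega
    exact ⟨hprime, hdn, key d hprime (dvd_refl d)⟩
  have hcard : P.card ≤ k := by
    apply primes_card_le n (U ^ a) k hn (by omega) hnU P
    intro p hp
    obtain ⟨h1, h2, h3⟩ := hPprime p hp
    exact ⟨h1, h2, h3.le⟩
  have hcard2 : P.card ≤ n.primeFactorsList.length := by
    calc P.card ≤ n.primeFactorsList.toFinset.card := by
          apply Finset.card_le_card
          intro p hp
          obtain ⟨h1, h2, h3⟩ := hPprime p hp
          rw [List.mem_toFinset, Nat.mem_primeFactorsList (by omega)]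
          exact ⟨h1, h2⟩
      _ ≤ n.primeFactorsList.length := List.toFinset_card_le _
  have h1mem : 1 ∈ (DD (U ^ J)).filter (fun d => d ∣ n) :=
    Finset.mem_filter.mpr ⟨one_mem_DD _ hYpos, one_dvd _⟩
  have hwt : wt5 (U ^ J) (ys U J) n = lm (U ^ J) (ys U J) 1 + ∑ q ∈ P, lm (U ^ J) (ys U J) q := by
    unfold wt5
    rw [← Finset.add_sum_erase _ _ h1mem]
  refine ⟨P.card, hcard, hcard2, ?_⟩
  rw [hwt, ys_lm_one U J hU1]
  set L1 := ∑ j ∈ Icc 1 J, G5 (U ^ j) with hL1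
  set R := ∑ j ∈ Icc (a + 1) J, G5 (U ^ (j - a)) with hR
  have hR0 : 0 ≤ R := Finset.sum_nonneg fun _ _ => G5_nonneg _
  have hUaR : (1 : ℝ) < (U : ℝ) ^ a := by exact_mod_cast hUa2
  set ρ := ((U : ℝ) ^ a) / ((U : ℝ) ^ a - 1) with hρ
  have hρ0 : 0 ≤ ρ := by
    rw [hρ]
    have : 0 < (U : ℝ) ^ a - 1 := by linarith
    positivity
  have hup : ∑ q ∈ P, lm (U ^ J) (ys U J) q ≤ 0 := by
    apply Finset.sum_nonpos
    intro q hq
    obtain ⟨h1, h2, h3⟩ := hPprime q hq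
    exact (lm_prime U J a q hU1 h1 h3 haJ).1
  have hlo : -∑ q ∈ P, lm (U ^ J) (ys U J) q ≤ P.card * (ρ * R) := by
    rw [← Finset.sum_neg_distrib]
    calc ∑ q ∈ P, -lm (U ^ J) (ys U J) q ≤ ∑ q ∈ P, ρ * R := by
          apply Finset.sum_le_sum
          intro q hq
          obtain ⟨h1, h2, h3⟩ := hPprime q hq
          refine (lm_prime U J a q hU1 h1 h3 haJ).2.trans ?_
          apply mul_le_mul_of_nonneg_right _ hR0
          have hqR : (U : ℝ) ^ a < q := by exact_mod_cast h3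
          rw [hρ, div_le_div_iff₀ (by linarith) (by linarith)]
          nlinarith
      _ = P.card * (ρ * R) := by rw [Finset.sum_const, nsmul_eq_mul]
  constructor <;> linarith

lemma sum_num1' : ∑ j ∈ Icc (37 : ℕ) 61, (j - 36) = 325 := by decide +kernel
lemma sum_num2' : ∑ j ∈ Icc (1 : ℕ) 61, j = 1891 := by decide +kernel

/-- size of the weights on sifted palindromes -/
lemma sift_wt4 (m n : ℕ) (V C : ℝ) (hg : GridOK (1 / 10 ^ 6) m V C) (hm : 1000 ≤ m)
    (hn1 : 1 ≤ n) (hn2 : n < 532 * m + 532) (f : Fin (n - 1) → ℕ) (hf : f ∈ KK (n - 1) 10)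
    (hs : ∀ p ∈ PP ((10 ^ (2 * m)) ^ 36), ¬ p ∣ Npal n f) :
    wt5 ((10 ^ (2 * m)) ^ 61) (ys (10 ^ (2 * m)) 61) (Npal n f) ^ 2 ≤
      3 * (V * (1891 + 1 / 1000)) ^ 2 ∧
    ((Npal n f).primeFactorsList.length ≤ 11 →
      wt5 ((10 ^ (2 * m)) ^ 61) (ys (10 ^ (2 * m)) 61) (Npal n f) ^ 2 ≤
        (V * (1891 + 1 / 1000)) ^ 2) := by
  have hV := V_bounds m V C _ hg
  have hmR : (1000 : ℝ) ≤ m := by exact_mod_cast hm
  have hV0 : 0 < V := by linarith [hV.1]
  have hU2 : 1001 ≤ 10 ^ (2 * m) := by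
    calc 1001 ≤ 10 ^ 4 := by norm_num
      _ ≤ 10 ^ (2 * m) := Nat.pow_le_pow_right (by norm_num) (by omega)
  obtain ⟨U, hU⟩ : ∃ U, U = 10 ^ (2 * m) := ⟨_, rfl⟩
  rw [← hU] at hU2 hs ⊢
  have hG := hg.G
  rw [← hU] at hG
  obtain ⟨c, hc14, hclen, hup, hlo⟩ := wt_bounds U 61 36 14 (Npal n f) (by omega) (by norm_num)
    (by norm_num) (by norm_num) (Npal_pos n f) (by
      refine (Npal_lt n hn1 f hf).trans_le ?_
      rw [hU, ← pow_mul, ← pow_mul]
      apply Nat.pow_le_pow_right (by norm_num)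
      omega) (by
      intro p hp hp10 hpz
      exact hs p ((mem_PP _ p).mpr ⟨hpz, hp, hp10⟩)) (Nat.Prime.not_prime_pow (by norm_num))
  have h1 : ∑ j ∈ Icc (36 + 1) 61, G5 (U ^ (j - 36)) ≤ V * 326 := by
    calc ∑ j ∈ Icc (36 + 1) 61, G5 (U ^ (j - 36))
        ≤ ∑ j ∈ Icc (37 : ℕ) 61, (V * ((j - 36 : ℕ) : ℝ) + 1 / 10 ^ 6 * V) := by
          apply Finset.sum_le_sum
          intro j _
          have := (abs_le.mp (hG (j - 36))).2
          linarith
      _ = V * 325 + 25 * (1 / 10 ^ 6 * V) := by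
          rw [Finset.sum_add_distrib, ← Finset.mul_sum, ← Nat.cast_sum, sum_num1',
            Finset.sum_const, Nat.card_Icc, nsmul_eq_mul]
          norm_num
      _ ≤ V * 326 := by
          norm_num
          linarith
  have h2 : V * 1890 ≤ ∑ j ∈ Icc 1 61, G5 (U ^ j) := by
    calc V * 1890 ≤ V * 1891 - 61 * (1 / 10 ^ 6 * V) := by
          norm_num
          linarith
      _ = ∑ j ∈ Icc (1 : ℕ) 61, (V * (j : ℝ) - 1 / 10 ^ 6 * V) := by
          rw [Finset.sum_sub_distrib, ← Finset.mul_sum, ← Nat.cast_sum, sum_num2',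
            Finset.sum_const, Nat.card_Icc, nsmul_eq_mul]
          norm_num
      _ ≤ ∑ j ∈ Icc 1 61, G5 (U ^ j) := by
          apply Finset.sum_le_sum
          intro j _
          have := (abs_le.mp (hG j)).1
          linarith
  have h2' : ∑ j ∈ Icc 1 61, G5 (U ^ j) ≤ V * (1891 + 1 / 1000) := by
    calc ∑ j ∈ Icc 1 61, G5 (U ^ j) ≤ ∑ j ∈ Icc (1 : ℕ) 61, (V * (j : ℝ) + 1 / 10 ^ 6 * V) := by
          apply Finset.sum_le_sum
          intro j _
          have := (abs_le.mp (hG j)).2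
          linarith
      _ = V * 1891 + 61 * (1 / 10 ^ 6 * V) := by
          rw [Finset.sum_add_distrib, ← Finset.mul_sum, ← Nat.cast_sum, sum_num2',
            Finset.sum_const, Nat.card_Icc, nsmul_eq_mul]
          norm_num
      _ ≤ V * (1891 + 1 / 1000) := by
          norm_num
          linarith
  have h3 : (U : ℝ) ^ 36 / ((U : ℝ) ^ 36 - 1) ≤ 1001 / 1000 := by
    have h4 : (1001 : ℝ) ≤ U := by exact_mod_cast hU2
    have h5 : (U : ℝ) ≤ (U : ℝ) ^ 36 := le_self_pow₀ (by linarith) (by norm_num)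
    rw [div_le_div_iff₀ (by linarith) (by norm_num)]
    linarith
  have h6 : 0 ≤ ∑ j ∈ Icc (36 + 1) 61, G5 (U ^ (j - 36)) :=
    Finset.sum_nonneg fun _ _ => G5_nonneg _
  have h7 : (U : ℝ) ^ 36 / ((U : ℝ) ^ 36 - 1) * ∑ j ∈ Icc (36 + 1) 61, G5 (U ^ (j - 36)) ≤
      1001 / 1000 * (V * 326) :=
    mul_le_mul h3 h1 h6 (by norm_num)
  set Z := (U : ℝ) ^ 36 / ((U : ℝ) ^ 36 - 1) * ∑ j ∈ Icc (36 + 1) 61, G5 (U ^ (j - 36)) with hZ
  set w := wt5 (U ^ 61) (ys U 61) (Npal n f) with hw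
  set L1 := ∑ j ∈ Icc 1 61, G5 (U ^ j) with hL1
  have hc14R : (c : ℝ) ≤ 14 := by exact_mod_cast hc14
  have hc0 : (0 : ℝ) ≤ c := Nat.cast_nonneg c
  constructor
  · have h8 : (c : ℝ) * Z ≤ 14 * (1001 / 1000 * (V * 326)) := by
      calc (c : ℝ) * Z ≤ c * (1001 / 1000 * (V * 326)) := mul_le_mul_of_nonneg_left h7 hc0
        _ ≤ 14 * (1001 / 1000 * (V * 326)) := mul_le_mul_of_nonneg_right hc14R (by positivity)
    have h9 : -(V * 2679) ≤ w := by
      have : L1 - 14 * (1001 / 1000 * (V * 326)) ≤ w := by linarith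
      linarith
    have h10 : w ≤ V * (1891 + 1 / 1000) := hup.trans h2'
    have h11 : |w| ≤ V * 2679 := by
      rw [abs_le]
      constructor
      · exact h9
      · linarith
    calc w ^ 2 = |w| ^ 2 := (sq_abs w).symm
      _ ≤ (V * 2679) ^ 2 := pow_le_pow_left₀ (abs_nonneg _) h11 2
      _ = V ^ 2 * 2679 ^ 2 := mul_pow _ _ _
      _ ≤ V ^ 2 * (3 * (1891 + 1 / 1000) ^ 2) := by
          apply mul_le_mul_of_nonneg_left _ (by positivity)
          norm_num
      _ = 3 * (V * (1891 + 1 / 1000)) ^ 2 := by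
          rw [mul_pow]
          ring
  · intro hlen
    have hc11 : (c : ℝ) ≤ 11 := by exact_mod_cast hclen.trans hlen
    have h8 : (c : ℝ) * Z ≤ 11 * (1001 / 1000 * (V * 326)) := by
      calc (c : ℝ) * Z ≤ c * (1001 / 1000 * (V * 326)) := mul_le_mul_of_nonneg_left h7 hc0
        _ ≤ 11 * (1001 / 1000 * (V * 326)) := mul_le_mul_of_nonneg_right hc11 (by positivity)
    have h10 : w ≤ V * (1891 + 1 / 1000) := hup.trans h2'
    have h11 : |w| ≤ V * (1891 + 1 / 1000) := by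
      rw [abs_le]
      constructor
      · linarith
      · exact h10
    calc w ^ 2 = |w| ^ 2 := (sq_abs w).symm
      _ ≤ (V * (1891 + 1 / 1000)) ^ 2 := pow_le_pow_left₀ (abs_nonneg _) h11 2

end Pool.Agent.Helper10.P4
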